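import Pool.Agent.AP.Ident
import Pool.Agent.AO.GroupRing

/-!
# The elements `r e` of the group ring (module AP-GroupRing)
-/

set_option autoImplicit false

namespace Pool.Agent.AP

open MonoidAlgebra

variable {H : Type*} [Group H] {𝔻 : Type*} [CommGroup 𝔻] {K Q : Type*} [Fintype K] [Fintype Q]

open Pool.Agent.AO (rR)

namespace DData

variable {S : FS H 𝔻 K Q} {M : Type*} [AddCommGroup M] (T : DData S M)

/-- The action of `ℤ[𝔻]` on `M`. -/
noncomputable def Φ : MonoidAlgebra ℤ 𝔻 →ₐ[ℤ] Module.End ℤ M :=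
  MonoidAlgebra.lift ℤ (Module.End ℤ M) 𝔻 T.ρ

/-- The operator `r e` on `M`. -/
noncomputable def rr (e : 𝔻) : Module.End ℤ M := T.Φ (rR T.σ e)

theorem Φ_of (d : 𝔻) : T.Φ (MonoidAlgebra.of ℤ 𝔻 d) = T.ρ d := by
  simp [Φ, MonoidAlgebra.of_apply]

/-- Everything in the image of `Φ` commutes (`ℤ[𝔻]` is commutative). -/
theorem Φ_comm (x y : MonoidAlgebra ℤ 𝔻) (v : M) : T.Φ x (T.Φ y v) = T.Φ y (T.Φ x v) := by
  rw [← Module.End.mul_apply, ← map_mul, mul_comm, map_mul, Module.End.mul_apply]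

/-- Conjugation by `b ∈ B` on `𝔻`.
PROOF. `jB`, `jinj`; the inverse is given by `b⁻¹`. -/
theorem exists_tau {b : H} (hb : b ∈ S.B) :
    ∃ τ : 𝔻 ≃* 𝔻, ∀ d, S.j (τ d) = b * S.j d * b⁻¹ := by
  choose f hf using S.jB b hb
  choose g hg using S.jB b⁻¹ (inv_mem hb)
  have hf' : ∀ d, S.j (f d) = b * S.j d * b⁻¹ := fun d => (hf d).symm
  have hg' : ∀ d, S.j (g d) = b⁻¹ * S.j d * b := fun d => by
    have := (hg d).symm
    rwa [inv_inv] at this
  refine ⟨{ toFun := f, invFun := g, left_inv := ?_, right_inv := ?_, map_mul' := ?_ }, hf'⟩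
  · intro d
    apply S.jinj
    rw [hg', hf']
    group
  · intro d
    apply S.jinj
    rw [hf', hg']
    group
  · intro x y
    apply S.jinj
    rw [map_mul, hf', hf', hf', map_mul]
    group

/-- If `(t q)⁻¹ x ∈ C` then conjugation by `x` on `𝔻` is `σ q`. -/
private theorem groupRing_conj {q : Q} {x : H} (hx : (S.t q)⁻¹ * x ∈ S.C) (e : 𝔻) :
    x * S.j e * x⁻¹ = S.j (T.σ q e) := by
  have hc := S.cC _ hx _ (S.jC e)
  rw [T.σ_spec]
  have hxe : x = S.t q * ((S.t q)⁻¹ * x) := by group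
  calc x * S.j e * x⁻¹
      = S.t q * (((S.t q)⁻¹ * x) * S.j e) * x⁻¹ := by group
    _ = S.t q * (S.j e * ((S.t q)⁻¹ * x)) * x⁻¹ := by rw [hc]
    _ = S.t q * S.j e * (S.t q)⁻¹ := by group

omit T in
/-- Left multiplication by `b ∈ B` permutes the left cosets of `C` in `B`. -/
private theorem groupRing_permL (S : FS H 𝔻 K Q) {b : H} (hb : b ∈ S.B) :
    ∃ π : Equiv.Perm Q, ∀ q, (S.t (π q))⁻¹ * (b * S.t q) ∈ S.C := by
  choose π hπ using fun q => (S.hT (b * S.t q) (mul_mem hb (S.tB q))).exists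
  have hinj : Function.Injective π := by
    intro q q' h
    have h1 := hπ q
    have h2 := hπ q'
    rw [h] at h1
    have h3 : (S.t q)⁻¹ * S.t q' ∈ S.C := by
      have h4 := mul_mem (inv_mem h1) h2
      have h5 : ((S.t (π q'))⁻¹ * (b * S.t q))⁻¹ * ((S.t (π q'))⁻¹ * (b * S.t q'))
          = (S.t q)⁻¹ * S.t q' := by group
      rwa [h5] at h4
    have h6 : (S.t q')⁻¹ * S.t q' ∈ S.C := by
      rw [inv_mul_cancel]
      exact one_mem _
    exact (S.hT (S.t q') (S.tB q')).unique h3 h6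
  exact ⟨Equiv.ofBijective π (Finite.injective_iff_bijective.1 hinj), fun q => hπ q⟩

omit T in
/-- Right multiplication by `b ∈ B` permutes the left cosets of the normal subgroup `C` in `B`. -/
private theorem groupRing_permR (S : FS H 𝔻 K Q) {b : H} (hb : b ∈ S.B) :
    ∃ π : Equiv.Perm Q, ∀ q, (S.t (π q))⁻¹ * (S.t q * b) ∈ S.C := by
  choose π hπ using fun q => (S.hT (S.t q * b) (mul_mem (S.tB q) hb)).exists
  have hinj : Function.Injective π := by
    intro q q' h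
    have h1 := hπ q
    have h2 := hπ q'
    rw [h] at h1
    have h3 : (S.t q)⁻¹ * S.t q' ∈ S.C := by
      have h4 := S.nC b hb _ (mul_mem (inv_mem h1) h2)
      have h5 : b * (((S.t (π q'))⁻¹ * (S.t q * b))⁻¹ * ((S.t (π q'))⁻¹ * (S.t q' * b))) * b⁻¹
          = (S.t q)⁻¹ * S.t q' := by group
      rwa [h5] at h4
    have h6 : (S.t q')⁻¹ * S.t q' ∈ S.C := by
      rw [inv_mul_cancel]
      exact one_mem _
    exact (S.hT (S.t q') (S.tB q')).unique h3 h6
  exact ⟨Equiv.ofBijective π (Finite.injective_iff_bijective.1 hinj), fun q => hπ q⟩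

/-- `r e` is invariant under the conjugations by elements of `B`.
PROOF. For every `q` there is (`hT` for `b (t q) ∈ B`) a unique `π q` with
`(t (π q))⁻¹ b (t q) ∈ C`, `b (t q) = t (π q) c`. So
`j (τ (σ q e)) = b (t q) e (t q)⁻¹ b⁻¹ = t (π q) e (t (π q))⁻¹ = j (σ (π q) e)`.
`π` is injective: if `π q = π q'` then `b t q` and `b t q'` are in the same left coset of `C`, so
`(t q)⁻¹ (t q') ∈ C` and `q = q'` by uniqueness in `hT` (for `b = t q'`). So `π` is a bijection of the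
finite set `Q` and the product is reindexed (`Fintype.prod_bijective` or `Equiv.prod_comp`). -/
theorem rR_inv {b : H} (hb : b ∈ S.B) {τ : 𝔻 ≃* 𝔻} (hτ : ∀ d, S.j (τ d) = b * S.j d * b⁻¹)
    (e : 𝔻) : mapDomainRingHom ℤ (τ : 𝔻 →* 𝔻) (rR T.σ e) = rR T.σ e := by
  obtain ⟨π, hπ⟩ := groupRing_permL S hb
  have key : ∀ q, τ (T.σ q e) = T.σ (π q) e := by
    intro q
    apply S.jinj
    rw [hτ, T.σ_spec q, ← groupRing_conj T (hπ q) e]
    group
  unfold AO.rR
  rw [map_prod]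
  refine Eq.trans ?_ (Equiv.prod_comp π
    (fun q => (1 - MonoidAlgebra.of ℤ 𝔻 (T.σ q e) : MonoidAlgebra ℤ 𝔻)))
  refine Finset.prod_congr rfl fun q _ => ?_
  rw [map_sub, map_one, ← key q]
  congr 1
  simp [MonoidAlgebra.of_apply, MonoidAlgebra.mapDomain_single]

/-- The same for `e`: `r (τ e) = r e`.
PROOF. `σ q (τ e)` has `j`-image `t q b e b⁻¹ (t q)⁻¹` and `(t q) b` lies in `(t (π q)) C` for a
permutation `π` of `Q` (here use that `C` is normalised by `B`: if `t q b` and `t q' b` are in the same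
left coset of `C` then `b⁻¹ (t q)⁻¹ (t q') b ∈ C`, so `(t q)⁻¹ (t q') ∈ C`). -/
theorem rR_tau {b : H} (hb : b ∈ S.B) {τ : 𝔻 ≃* 𝔻} (hτ : ∀ d, S.j (τ d) = b * S.j d * b⁻¹)
    (e : 𝔻) : rR T.σ (τ e) = rR T.σ e := by
  obtain ⟨π, hπ⟩ := groupRing_permR S hb
  have key : ∀ q, T.σ q (τ e) = T.σ (π q) e := by
    intro q
    apply S.jinj
    rw [T.σ_spec q, hτ, ← groupRing_conj T (hπ q) e]
    group
  unfold AO.rR
  refine Eq.trans ?_ (Equiv.prod_comp π
    (fun q => (1 - MonoidAlgebra.of ℤ 𝔻 (T.σ q e) : MonoidAlgebra ℤ 𝔻)))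
  refine Finset.prod_congr rfl fun q _ => ?_
  rw [key q]

/-- The factorisation `r e = r' e (1 - e)`.
PROOF. Let `q1` be the index with `(t q1)⁻¹ * 1 ∈ C` (`hT`); then `t q1 ∈ C` and
`σ q1 e = e`. Take `r' e = ∏_{q ≠ q1} (1 - σ_q e)` (`Finset.prod_erase_mul` or
`Finset.mul_prod_erase`). -/
theorem exists_rR' : ∃ r' : 𝔻 → MonoidAlgebra ℤ 𝔻, ∀ e,
    rR T.σ e = r' e * (1 - MonoidAlgebra.of ℤ 𝔻 e) := by
  classical
  obtain ⟨q1, hq1⟩ := (S.hT 1 (one_mem _)).exists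
  have key : ∀ e, T.σ q1 e = e := by
    intro e
    apply S.jinj
    rw [← groupRing_conj T hq1 e]
    group
  refine ⟨fun e => ∏ q ∈ Finset.univ.erase q1, (1 - MonoidAlgebra.of ℤ 𝔻 (T.σ q e)), fun e => ?_⟩
  have h := Finset.prod_erase_mul Finset.univ
    (fun q => (1 - MonoidAlgebra.of ℤ 𝔻 (T.σ q e) : MonoidAlgebra ℤ 𝔻)) (Finset.mem_univ q1)
  simp only [key] at h
  exact h.symm

end DData

namespace TData

variable {S : FS H 𝔻 K Q} {M : Type*} [AddCommGroup M] (T : TData S M)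

/-- Elements of `G1` commute with the group ring.
PROOF. Induction on `x` (`MonoidAlgebra.induction_on`, or: the set of `x` for which the statement
holds is closed under addition, and contains `of d`, `ℤ`-multiples) from `TData.act_ρ_G1`. -/
theorem act_Φ_G1 {g : H} (hg : g ∈ T.G1) (x : MonoidAlgebra ℤ 𝔻) (v : M) :
    T.act g (T.Φ x v) = T.Φ x (T.act g v) := by
  induction x using MonoidAlgebra.induction_on with
  | of d => rw [DData.Φ_of]; exact T.act_ρ_G1 hg d v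
  | add x y hx hy => rw [map_add, LinearMap.add_apply, LinearMap.add_apply, map_add, hx, hy]
  | smul r x hx =>
    rw [map_smul, LinearMap.smul_apply, LinearMap.smul_apply, map_smul, hx]

/-- For `a ∈ A ∩ G`, `b ∈ B ∩ G`, `a b ∈ G1` and `τ` the conjugation by `b`, for all `x` in the
group ring: `a (τ(x) v) = x (a v)`. PROOF. As before from `TData.act_ρ_A`
(`j (τ d) = b d b⁻¹`). -/
theorem act_Φ_A {a b : H} (haG : a ∈ S.G) (hbG : b ∈ S.G) (hab : a * b ∈ T.G1)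
    {τ : 𝔻 ≃* 𝔻} (hτ : ∀ d, S.j (τ d) = b * S.j d * b⁻¹) (x : MonoidAlgebra ℤ 𝔻) (v : M) :
    T.act a (T.Φ (mapDomainRingHom ℤ (τ : 𝔻 →* 𝔻) x) v) = T.Φ x (T.act a v) := by
  induction x using MonoidAlgebra.induction_on with
  | of d =>
    have h1 : mapDomainRingHom ℤ (τ : 𝔻 →* 𝔻) (MonoidAlgebra.of ℤ 𝔻 d)
        = MonoidAlgebra.of ℤ 𝔻 (τ d) := by
      simp [MonoidAlgebra.of_apply, MonoidAlgebra.mapDomain_single]
    rw [h1, DData.Φ_of, DData.Φ_of]
    exact T.act_ρ_A haG hbG hab (hτ d) v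
  | add x y hx hy =>
    rw [map_add, map_add, map_add, LinearMap.add_apply, LinearMap.add_apply, map_add, hx, hy]
  | smul r x hx =>
    have h1 : mapDomainRingHom ℤ (τ : 𝔻 →* 𝔻) (r • x)
        = r • mapDomainRingHom ℤ (τ : 𝔻 →* 𝔻) x := map_zsmul _ r x
    rw [h1, map_smul, map_smul, LinearMap.smul_apply, LinearMap.smul_apply, map_smul, hx]

/-- For `b ∈ B ∩ G` and `τ` the conjugation by `b`: `b (x v) = τ(x) (b v)`.
PROOF. As before from `TData.act_ρ_B`. -/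
theorem act_Φ_B {b : H} (hbG : b ∈ S.G)
    {τ : 𝔻 ≃* 𝔻} (hτ : ∀ d, S.j (τ d) = b * S.j d * b⁻¹) (x : MonoidAlgebra ℤ 𝔻) (v : M) :
    T.act b (T.Φ x v) = T.Φ (mapDomainRingHom ℤ (τ : 𝔻 →* 𝔻) x) (T.act b v) := by
  induction x using MonoidAlgebra.induction_on with
  | of d =>
    have h1 : mapDomainRingHom ℤ (τ : 𝔻 →* 𝔻) (MonoidAlgebra.of ℤ 𝔻 d)
        = MonoidAlgebra.of ℤ 𝔻 (τ d) := by
      simp [MonoidAlgebra.of_apply, MonoidAlgebra.mapDomain_single]
    rw [h1, DData.Φ_of, DData.Φ_of]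
    exact T.act_ρ_B hbG (hτ d) v
  | add x y hx hy =>
    rw [map_add, map_add, map_add, LinearMap.add_apply, LinearMap.add_apply, map_add, hx, hy]
  | smul r x hx =>
    have h1 : mapDomainRingHom ℤ (τ : 𝔻 →* 𝔻) (r • x)
        = r • mapDomainRingHom ℤ (τ : 𝔻 →* 𝔻) x := map_zsmul _ r x
    rw [h1, map_smul, map_smul, LinearMap.smul_apply, LinearMap.smul_apply, map_smul, hx]

/-- `A ∩ G` commutes with the operators `r e`.
PROOF. Let `a ∈ A ∩ G`; `b ∈ B ∩ G` with `a b ∈ G1` (`G_G1`), `τ` from `exists_tau`; `act_Φ_A`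
with `x = rR e` and `rR_inv`. -/
theorem act_rr_A {a : H} (ha : a ∈ S.A) (haG : a ∈ S.G) (e : 𝔻) (v : M) :
    T.act a (T.rr e v) = T.rr e (T.act a v) := by
  obtain ⟨b, hbB, hbG, hab⟩ := T.G_G1 a haG
  obtain ⟨τ, hτ⟩ := DData.exists_tau (S := S) hbB
  have h := T.act_Φ_A haG hbG hab hτ (rR T.σ e) v
  rw [DData.rR_inv T.toDData hbB hτ e] at h
  exact h

end TData

end Pool.Agent.AP
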