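import Pool.Agent.AP.Defs

/-!
# Types and minimal types (module AP-Types)

A label is a double coset `A₀ x C`. A type is a function `x : G → labels` which on every finite set
agrees with some translate `u ↦ A₀ (h u) C`. A minimal type is a type taking the minimal number of
labels.
-/

set_option autoImplicit false

namespace Pool.Agent.AP

open Filter

variable {G : Type*} [Group G]

/-- The set of labels: double cosets `A₀ x C`. -/
abbrev Lab (A₀ C : Subgroup G) := DoubleCoset.Quotient (A₀ : Set G) (C : Set G)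

/-- The label of `x`. -/
abbrev lab (A₀ C : Subgroup G) (x : G) : Lab A₀ C := DoubleCoset.mk A₀ C x

variable (A₀ C : Subgroup G)

/-- PROOF. `DoubleCoset.eq` (or the definition of the setoid). -/
theorem lab_eq (x y : G) : lab A₀ C x = lab A₀ C y ↔ ∃ a ∈ A₀, ∃ c ∈ C, y = a * x * c :=
  DoubleCoset.eq A₀ C x y

/-- A type. -/
def IsType (x : G → Lab A₀ C) : Prop := ∀ F : Finset G, ∃ h : G, ∀ u ∈ F, x u = lab A₀ C (h * u)

/-- A minimal type. -/
def MinType (x : G → Lab A₀ C) : Prop :=
  IsType A₀ C x ∧ ∀ y, IsType A₀ C y → (Set.range x).ncard ≤ (Set.range y).ncard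

variable {A₀ C}

/-- PROOF. Apply the definition to `F = {u c, u}`; `h u c` and `h u` have the same label. -/
theorem IsType.mul_C {x : G → Lab A₀ C} (hx : IsType A₀ C x) (u : G) {c : G} (hc : c ∈ C) :
    x (u * c) = x u := by
  classical
  obtain ⟨h, hh⟩ := hx {u * c, u}
  rw [hh (u * c) (by simp), hh u (by simp), lab_eq]
  exact ⟨1, one_mem _, c⁻¹, inv_mem hc, by group⟩

/-- PROOF. For every `u` there is a label `y u` with `x (g i * u) = y u` for almost all `i`
(`AO.exists_of_eventually_exists`, labels are finitely many). `y` is a type: for a finite set `F` there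
is `i` with `y u = x (g i * u)` for all `u ∈ F`, and there is `h` with `x w = lab (h w)` for
`w ∈ g i F`, so `y u = lab (h g i u)` for `u ∈ F`. -/
theorem IsType.lim [Finite (Lab A₀ C)] {x : G → Lab A₀ C} (hx : IsType A₀ C x) {I : Type*}
    (𝒰 : Ultrafilter I) (g : I → G) :
    ∃ y, IsType A₀ C y ∧ ∀ u, ∀ᶠ i in (𝒰 : Filter I), x (g i * u) = y u := by
  classical
  have h1 : ∀ u, ∃ q, ∀ᶠ i in (𝒰 : Filter I), x (g i * u) = q := fun u =>
    AO.exists_of_eventually_exists 𝒰 (P := fun i q => x (g i * u) = q)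
      (Eventually.of_forall fun i => ⟨_, rfl⟩)
  choose y hy using h1
  refine ⟨y, ?_, hy⟩
  intro F
  have h2 : ∀ᶠ i in (𝒰 : Filter I), ∀ u ∈ F, x (g i * u) = y u :=
    (Filter.eventually_all_finset F).2 fun u _ => hy u
  obtain ⟨i, hi⟩ := h2.exists
  obtain ⟨h, hh⟩ := hx (F.image fun u => g i * u)
  refine ⟨h * g i, fun u hu => ?_⟩
  rw [← hi u hu, hh (g i * u) (Finset.mem_image_of_mem _ hu), mul_assoc]

/-- PROOF. `u ↦ lab u` is a type, take a type with the minimal number of labels (`Nat.find` /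
well-foundedness). -/
theorem exists_minType [Finite (Lab A₀ C)] : ∃ x, MinType A₀ C x := by
  classical
  have hex : ∃ n : ℕ, ∃ x : G → Lab A₀ C, IsType A₀ C x ∧ (Set.range x).ncard = n :=
    ⟨_, fun u => lab A₀ C u, fun _ => ⟨1, fun u _ => by rw [one_mul]⟩, rfl⟩
  obtain ⟨x, hx, hxn⟩ := Nat.find_spec hex
  refine ⟨x, hx, fun y hy => ?_⟩
  rw [hxn]
  exact Nat.find_min' hex ⟨y, hy, rfl⟩

/-- The range of a limit is contained in the range. -/
private theorem range_lim_subset {x y : G → Lab A₀ C} {I : Type*}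
    (𝒰 : Ultrafilter I) (g : I → G) (h : ∀ u, ∀ᶠ i in (𝒰 : Filter I), x (g i * u) = y u) :
    Set.range y ⊆ Set.range x := by
  rintro _ ⟨u, rfl⟩
  obtain ⟨i, hi⟩ := (h u).exists
  exact ⟨_, hi⟩

/-- The limit of a minimal type is minimal. PROOF. `range y ⊆ range x`. -/
theorem MinType.lim [Finite (Lab A₀ C)] {x : G → Lab A₀ C} (hx : MinType A₀ C x) {I : Type*}
    (𝒰 : Ultrafilter I) (g : I → G) :
    ∃ y, MinType A₀ C y ∧ ∀ u, ∀ᶠ i in (𝒰 : Filter I), x (g i * u) = y u := by
  obtain ⟨y, hy, hyl⟩ := hx.1.lim 𝒰 g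
  refine ⟨y, ⟨hy, fun z hz => ?_⟩, hyl⟩
  exact (Set.ncard_le_ncard (range_lim_subset 𝒰 g hyl) (Set.toFinite _)).trans (hx.2 z hz)

/-- The blocks of a minimal type are syndetic.
PROOF. Suppose not: for every finite set `F` there is `g F` with `x (g F * f) ≠ l` for all `f ∈ F`. Let
`𝒰` be an ultrafilter on `Finset G` with `𝒰 ≤ atTop` and `y` the limit (`IsType.lim`) for `g`. Then
`range y ⊆ range x` and `l ∉ range y` (if `y u = l` then for almost all `F ∋ u`: `x (g F * u) = l`), so
`range y` has fewer elements than `range x`: contradiction to minimality. -/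
theorem MinType.syn [Finite (Lab A₀ C)] {x : G → Lab A₀ C} (hx : MinType A₀ C x) (u₀ : G) :
    ∃ F : Finset G, ∀ g : G, ∃ f ∈ F, x (g * f) = x u₀ := by
  classical
  by_contra hcon
  push Not at hcon
  choose g hg using hcon
  obtain ⟨y, hy, hyl⟩ := hx.1.lim (Ultrafilter.of (atTop : Filter (Finset G))) g
  have hsub := range_lim_subset _ g hyl
  have hnot : x u₀ ∉ Set.range y := by
    rintro ⟨u, hu⟩
    have h1 := hyl u
    have h2 : ∀ᶠ F in (Ultrafilter.of (atTop : Filter (Finset G)) : Filter (Finset G)), u ∈ F := by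
      refine (Ultrafilter.of_le (atTop : Filter (Finset G))) ?_
      refine (Filter.eventually_ge_atTop ({u} : Finset G)).mono fun F hF => ?_
      exact hF (Finset.mem_singleton_self u)
    obtain ⟨F, hF1, hF2⟩ := (h1.and h2).exists
    exact hg F u hF2 (hF1.trans hu)
  have hlt : (Set.range y).ncard < (Set.range x).ncard :=
    Set.ncard_lt_ncard (Set.ssubset_iff_subset_ne.2 ⟨hsub, fun h => hnot (h ▸ ⟨u₀, rfl⟩)⟩)
      (Set.toFinite _)
  exact absurd (hx.2 y hy) (not_le.2 hlt)

end Pool.Agent.AP
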