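import Pool.Agent.AP.Ultra
import Pool.Agent.AP.Types

/-!
# Constructing a `Core` (module AP-Build; proofs: helper41)
-/

set_option autoImplicit false

namespace Pool.Agent.AP

open Filter

open Pool.Agent.AO (UP starSub cst)

/-- The number of labels is finite.
PROOF. Every `x` is `a b = α (s k) (t q) c` with `α ∈ A0`, `c ∈ C` (`hAB`, `hS`, `hT`), so its label is
the label of `(s k) (t q)`. -/
theorem Pre.finite_lab {G : Type*} [Group G] {K Q : Type*} [Fintype K] [Fintype Q]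
    (S : Pre G K Q) : Finite (Lab S.A0 S.C) := by
  refine Finite.of_surjective (fun p : K × Q => lab S.A0 S.C (S.s p.1 * S.t p.2)) ?_
  intro l
  induction l using Quotient.inductionOn' with | _ x
  obtain ⟨a, ha, b, hb, hab⟩ := S.hAB x
  obtain ⟨k, hk⟩ := S.hS a ha
  obtain ⟨q, hq, -⟩ := S.hT b hb
  refine ⟨(k, q), (lab_eq _ _ _ _).2 ⟨a * (S.s k)⁻¹, hk, (S.t q)⁻¹ * b, hq, ?_⟩⟩
  rw [hab]
  group

/-- Equal labels almost everywhere give a relation in the ultrapower. -/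
private theorem germ_of_lab {G : Type*} [Group G] (A₀ C : Subgroup G) {I : Type*}
    (𝒰 : Ultrafilter I) (p q : I → G) (h : ∀ᶠ i in (𝒰 : Filter I), lab A₀ C (p i) = lab A₀ C (q i)) :
    ∃ α ∈ starSub 𝒰 A₀, ∃ γ ∈ starSub 𝒰 C,
      ((q : I → G) : (𝒰 : Filter I).Germ G) = α * ((p : I → G) : (𝒰 : Filter I).Germ G) * γ := by
  classical
  have h1 : ∀ i, ∃ ac : G × G, lab A₀ C (p i) = lab A₀ C (q i) →
      ac.1 ∈ A₀ ∧ ac.2 ∈ C ∧ q i = ac.1 * p i * ac.2 := by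
    intro i
    by_cases hi : lab A₀ C (p i) = lab A₀ C (q i)
    · obtain ⟨a, ha, c, hc, hac⟩ := (lab_eq _ _ _ _).1 hi
      exact ⟨(a, c), fun _ => ⟨ha, hc, hac⟩⟩
    · exact ⟨(1, 1), fun h => absurd h hi⟩
  choose ac hac using h1
  refine ⟨((fun i => (ac i).1 : I → G) : (𝒰 : Filter I).Germ G), ?_,
    ((fun i => (ac i).2 : I → G) : (𝒰 : Filter I).Germ G), ?_, ?_⟩
  · exact h.mono fun i hi => (hac i hi).1
  · exact h.mono fun i hi => (hac i hi).2.1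
  · exact Germ.coe_eq.2 (h.mono fun i hi => (hac i hi).2.2)

/-- Construction of a `Core` in the ultrapower from a minimal type `x0` and a system of elements
`c0 i ∈ C` and a homomorphism `φ : 𝔻 →* *C` (given by representatives `f d`) such that
`x0 (c0 i * f d i * u) = x0 (c0 i * u)` for almost all `i`.
PROOF. For every `i` choose (`IsType` for the finite set `win i`) `h i` with `x0 w = lab (h i * w)` for
`w ∈ win i`. Let `E` be the germ of `h i * c0 i`; write `E = a b` (`hAB` in the ultrapower), `a ∈ *A`,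
`b ∈ *B`, and take `e := b`.
`D1`: let `u = cst g`. For almost all `i` (by `hwin` for `d` and for `1`, and `f 1 i = 1` for almost all
`i` since `φ 1 = 1`) `lab (h i * c0 i * f d i * g) = x0 (c0 i * f d i * g) = x0 (c0 i * g)
 = lab (h i * c0 i * g)`, so by `lab_eq` there are `a_i ∈ A0`, `c_i ∈ C` with
`h i * c0 i * f d i * g = a_i * (h i * c0 i * g) * c_i`. So `E φ(d) u = α (E u) γ`, `α ∈ *A0`,
`γ ∈ *C`, and `b φ(d) u = (a⁻¹ α a) (b u) γ = α (b u) γ` since `α` commutes with `a`.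
`syn`: let `x` be the limit (`MinType.lim`) of `x0` along `c0`, and `F` as in `MinType.syn` for `x` and
`u₀ = 1`; take the image of `F` under `cst`. For `g`: there is `f ∈ F` with `x (g f) = x 1`; for almost all
`i`: `x0 (c0 i * (g f)) = x (g f) = x 1 = x0 (c0 i * 1)`; as above
`E (g f) = α E γ` and `b (g f) = α b γ`. -/
theorem exists_core {G : Type*} [Group G] {K Q : Type*} [Fintype K] [Fintype Q] (S : Pre G K Q)
    (hSG : S.G = ⊤) {x0 : G → Lab S.A0 S.C} (hx0 : MinType S.A0 S.C x0) {I : Type*}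
    (𝒰 : Ultrafilter I) {𝔻 : Type*} [CommGroup 𝔻] (φ : 𝔻 →* UP 𝒰 G)
    (hφ : Function.Injective φ) (hφC : ∀ d, φ d ∈ (S.ultra 𝒰).C)
    (hφB : ∀ b ∈ (S.ultra 𝒰).B, ∀ d, ∃ d', b * φ d * b⁻¹ = φ d') (hnt : ∃ d : 𝔻, d ≠ 1)
    (c0 : I → G) (hc0 : ∀ i, c0 i ∈ S.C)
    (f : 𝔻 → I → G) (hf : ∀ d, φ d = ((f d : I → G) : (𝒰 : Filter I).Germ G))
    (win : I → Finset G)
    (hwin : ∀ d, ∀ u : G, ∀ᶠ i in (𝒰 : Filter I), c0 i * f d i * u ∈ win i)
    (hK : ∀ d, ∀ u : G, ∀ᶠ i in (𝒰 : Filter I), x0 (c0 i * f d i * u) = x0 (c0 i * u)) :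
    Nonempty (Core (UP 𝒰 G) 𝔻 K Q) := by
  classical
  haveI : Finite (Lab S.A0 S.C) := S.finite_lab
  have hh : ∀ i, ∃ h : G, ∀ u ∈ win i, x0 u = lab S.A0 S.C (h * u) := fun i => hx0.1 (win i)
  choose h hh using hh
  have hf1 : ∀ᶠ i in (𝒰 : Filter I), f 1 i = 1 := by
    have h1 : ((f 1 : I → G) : (𝒰 : Filter I).Germ G) = 1 := by rw [← hf 1, map_one]
    exact Germ.coe_eq.1 h1
  have hl0 : ∀ g : G, ∀ᶠ i in (𝒰 : Filter I),
      x0 (c0 i * g) = lab S.A0 S.C (h i * c0 i * g) := by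
    intro g
    filter_upwards [hwin 1 g, hf1] with i h1 h2
    rw [h2, mul_one] at h1
    rw [hh i _ h1, mul_assoc]
  have hl1 : ∀ (d : 𝔻) (g : G), ∀ᶠ i in (𝒰 : Filter I),
      x0 (c0 i * f d i * g) = lab S.A0 S.C (h i * c0 i * f d i * g) := by
    intro d g
    filter_upwards [hwin d g] with i h1
    rw [hh i _ h1]
    simp only [mul_assoc]
  obtain ⟨a, ha, b, hb, hab⟩ := (S.ultra 𝒰).hAB
    ((fun i => h i * c0 i : I → G) : (𝒰 : Filter I).Germ G)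
  have key : ∀ x y : UP 𝒰 G, (∃ α ∈ starSub 𝒰 S.A0, ∃ γ ∈ starSub 𝒰 S.C,
      ((fun i => h i * c0 i : I → G) : (𝒰 : Filter I).Germ G) * y =
        α * (((fun i => h i * c0 i : I → G) : (𝒰 : Filter I).Germ G) * x) * γ) →
      ∃ α ∈ starSub 𝒰 S.A0, ∃ γ ∈ starSub 𝒰 S.C, b * y = α * (b * x) * γ := by
    rintro x y ⟨α, hα, γ, hγ, he⟩
    refine ⟨α, hα, γ, hγ, ?_⟩
    rw [hab] at he
    have hc : α * a = a * α := (S.ultra 𝒰).cen α hα a ha
    calc b * y = a⁻¹ * (a * b * y) := by group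
      _ = a⁻¹ * (α * (a * b * x) * γ) := by rw [he]
      _ = a⁻¹ * (α * a) * (b * x) * γ := by group
      _ = α * (b * x) * γ := by rw [hc]; group
  refine ⟨{ (S.ultra 𝒰) with
    j := φ
    jinj := hφ
    jC := hφC
    jB := hφB
    nt := hnt
    e := b
    eB := hb
    D1 := ?_
    syn := ?_ }⟩
  · rintro u ⟨g, -, rfl⟩ d
    have h1 : ∀ᶠ i in (𝒰 : Filter I), lab S.A0 S.C (h i * c0 i * g) =
        lab S.A0 S.C (h i * c0 i * f d i * g) := by
      filter_upwards [hl0 g, hl1 d g, hK d g] with i h1 h2 h3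
      rw [← h1, ← h2, h3]
    obtain ⟨α, hα, γ, hγ, he⟩ := germ_of_lab S.A0 S.C 𝒰 _ _ h1
    have h2 := key (cst 𝒰 G g) (φ d * cst 𝒰 G g) ⟨α, hα, γ, hγ, by
      rw [hf d, ← mul_assoc]
      exact he⟩
    obtain ⟨α', hα', γ', hγ', he'⟩ := h2
    exact ⟨α', hα', γ', hγ', by rw [mul_assoc]; exact he'⟩
  · obtain ⟨y, hy, hyl⟩ := hx0.lim 𝒰 c0
    obtain ⟨F, hF⟩ := hy.syn 1
    refine ⟨(fun g => cst 𝒰 G g) '' (F : Set G), F.finite_toSet.image _, ?_, ?_⟩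
    · rintro _ ⟨g, -, rfl⟩
      exact ⟨g, by rw [hSG]; exact Subgroup.mem_top g, rfl⟩
    · rintro _ ⟨g, -, rfl⟩
      obtain ⟨f0, hf0, hfe⟩ := hF g
      refine ⟨cst 𝒰 G f0, ⟨f0, hf0, rfl⟩, ?_⟩
      have h1 : ∀ᶠ i in (𝒰 : Filter I), lab S.A0 S.C (h i * c0 i * 1) =
          lab S.A0 S.C (h i * c0 i * (g * f0)) := by
        filter_upwards [hl0 1, hl0 (g * f0), hyl 1, hyl (g * f0)] with i h1 h2 h3 h4
        rw [← h1, ← h2, h3, h4, hfe]
      obtain ⟨α, hα, γ, hγ, he⟩ := germ_of_lab S.A0 S.C 𝒰 _ _ h1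
      have h2 := key 1 (cst 𝒰 G g * cst 𝒰 G f0) ⟨α, hα, γ, hγ, he⟩
      obtain ⟨α', hα', γ', hγ', he'⟩ := h2
      exact ⟨α', hα', γ', hγ', by rw [he', mul_one]⟩

end Pool.Agent.AP
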