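import Pool.Agent.AP.Cent
import Pool.Agent.AO.CasePAlg

/-!
# The bounded exponent case (module AP-CaseP)
-/

set_option autoImplicit false

namespace Pool.Agent.AP

variable {H : Type*} [Group H] {𝔻 : Type*} [CommGroup 𝔻] {K Q : Type*} [Fintype K] [Fintype Q]

/-- If `u, v ∈ U` and `δ_u = δ_v` then `u⁻¹ v ∈ C`.
PROOF. As in `U_form` write `e u = α e c`, `e v = α' e c'` with `α, α' ∈ A0`, `c, c' ∈ C`; so
`u = e⁻¹ α e c`, `v = e⁻¹ α' e c'`. For all `d`: `u d u⁻¹ = v d v⁻¹`, i.e.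
`α (e d e⁻¹) α⁻¹ = α' (e d e⁻¹) α'⁻¹`, so `α'⁻¹ α` commutes with all `e d e⁻¹`, so with all `j d`
(`jB` for `e⁻¹`: every `j d'` is of the form `e d e⁻¹`), so `α'⁻¹ α = 1` by `Pre.one_of_comm` for a fixed
`d ≠ 1` (`nt`, and `t q d (t q)⁻¹ ∈ j(𝔻)`). So `u⁻¹ v = c⁻¹ c'`. -/
theorem coset_of_delta (S : Core H 𝔻 K Q) {u v : H} (hu : u ∈ S.U) (hv : v ∈ S.U)
    (h : ∀ d, S.delta u d = S.delta v d) : u⁻¹ * v ∈ S.C := by
  obtain ⟨-, α, hα, c, hc, hue⟩ := hu
  obtain ⟨-, α', hα', c', hc', hve⟩ := hv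
  have hu' : u = S.e⁻¹ * α * S.e * c := by
    calc u = S.e⁻¹ * (S.e * u) := by group
      _ = S.e⁻¹ * (α * S.e * c) := by rw [hue]
      _ = S.e⁻¹ * α * S.e * c := by group
  have hv' : v = S.e⁻¹ * α' * S.e * c' := by
    calc v = S.e⁻¹ * (S.e * v) := by group
      _ = S.e⁻¹ * (α' * S.e * c') := by rw [hve]
      _ = S.e⁻¹ * α' * S.e * c' := by group
  have key : ∀ (β k : H), k ∈ S.C → ∀ d, (S.e⁻¹ * β * S.e * k) * S.j d * (S.e⁻¹ * β * S.e * k)⁻¹ =
      S.e⁻¹ * (β * (S.e * S.j d * S.e⁻¹) * β⁻¹) * S.e := by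
    intro β k hk d
    have h1 : k * S.j d = S.j d * k := S.cC _ hk _ (S.jC d)
    calc (S.e⁻¹ * β * S.e * k) * S.j d * (S.e⁻¹ * β * S.e * k)⁻¹
        = S.e⁻¹ * β * S.e * (k * S.j d) * k⁻¹ * S.e⁻¹ * β⁻¹ * S.e := by group
      _ = S.e⁻¹ * β * S.e * (S.j d * k) * k⁻¹ * S.e⁻¹ * β⁻¹ * S.e := by rw [h1]
      _ = S.e⁻¹ * (β * (S.e * S.j d * S.e⁻¹) * β⁻¹) * S.e := by group
  have heq : ∀ d, α * (S.e * S.j d * S.e⁻¹) * α⁻¹ = α' * (S.e * S.j d * S.e⁻¹) * α'⁻¹ := by
    intro d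
    have h1 : u * S.j d * u⁻¹ = v * S.j d * v⁻¹ := mul_right_cancel (h d)
    rw [hu', hv', key α c hc d, key α' c' hc' d] at h1
    exact mul_left_cancel (mul_right_cancel h1)
  have hcomm : ∀ e : 𝔻, Commute (α'⁻¹ * α) (S.j e) := by
    intro e
    obtain ⟨d, hd⟩ := S.jB S.e⁻¹ (inv_mem S.eB) e
    have hd' : S.e * S.j d * S.e⁻¹ = S.j e := by
      rw [← hd]; group
    have h2 := heq d
    rw [hd'] at h2
    show α'⁻¹ * α * S.j e = S.j e * (α'⁻¹ * α)
    calc α'⁻¹ * α * S.j e = α'⁻¹ * (α * S.j e * α⁻¹) * α := by group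
      _ = α'⁻¹ * (α' * S.j e * α'⁻¹) * α := by rw [h2]
      _ = S.j e * (α'⁻¹ * α) := by group
  obtain ⟨d, hd⟩ := S.nt
  have hjd : S.j d ≠ 1 := by
    intro h
    exact hd (S.jinj (by rw [h, map_one]))
  have h5 : α'⁻¹ * α = 1 := by
    refine S.toPre.one_of_comm (S.jC d) hjd (mul_mem (inv_mem hα') hα) fun q' => ?_
    obtain ⟨d', hd'⟩ := S.jB (S.t q') (S.tB q') d
    rw [hd']
    exact hcomm d'
  have h6 : α' = α := inv_mul_eq_one.1 h5
  have h7 : u⁻¹ * v = c⁻¹ * c' := by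
    rw [hu', hv', h6]; group
  rw [h7]
  exact mul_mem (inv_mem hc) hc'

open scoped Pointwise in
/-- `W` is infinite if `𝔻` is finite.
PROOF. Suppose `W` is finite. The map `U → (𝔻 → W)`, `u ↦ δ_u` has finite image, and `u, v` with the
same image are in the same left coset of `C` (`coset_of_delta`), so `U` is contained in a finite union
of cosets `u_i C`. By `syn` (with `F`): `G ⊆ ⋃ u_i C f⁻¹ = ⋃ (u_i f⁻¹) (f C f⁻¹)`,
`f ∈ F`. By B.H. Neumann's lemma (Mathlib: `Subgroup.exists_finiteIndex_of_leftCoset_cover` or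
similar in `Mathlib/GroupTheory/CosetCover.lean`, applied in the group `↥G` to the subgroups
`(f C f⁻¹).subgroupOf G`) some `f C f⁻¹ ∩ G` has finite index in `G`, and conjugating by `f ∈ G`,
`C ∩ G` has finite index in `G`: contradiction to `idxC`. -/
theorem W_infinite (S : Core H 𝔻 K Q) [Finite 𝔻] : (S.W : Set H).Infinite := by
  classical
  intro hfin
  haveI : Finite ↥(S.W : Set H) := hfin
  obtain ⟨F, hF, hFG, hFs⟩ := S.syn
  haveI : Finite ↥F := hF.to_subtype
  have hex : ∀ φ : 𝔻 → ↥(S.W : Set H), ∃ r : H, r ∈ S.G ∧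
      ∀ u ∈ S.U, (∀ d, S.delta u d = φ d) → r⁻¹ * u ∈ S.C := by
    intro φ
    by_cases hφ : ∃ r ∈ S.U, ∀ d, S.delta r d = φ d
    · obtain ⟨r, hr, hrφ⟩ := hφ
      exact ⟨r, hr.1, fun u hu huφ => coset_of_delta S hr hu fun d => (hrφ d).trans (huφ d).symm⟩
    · exact ⟨1, one_mem _, fun u hu huφ => absurd ⟨u, hu, huφ⟩ hφ⟩
  choose r hrG hr using hex
  haveI : Fintype ((𝔻 → ↥(S.W : Set H)) × ↥F) := Fintype.ofFinite _
  let cj : ↥F → Subgroup ↥S.G := fun f =>
    (S.C.subgroupOf S.G).comap (MulAut.conj (⟨(f : H), hFG f.2⟩ : ↥S.G)⁻¹).toMonoidHom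
  let rep : (𝔻 → ↥(S.W : Set H)) × ↥F → ↥S.G := fun i =>
    ⟨r i.1, hrG i.1⟩ * (⟨(i.2 : H), hFG i.2.2⟩ : ↥S.G)⁻¹
  have hcov : ⋃ i ∈ (Finset.univ : Finset ((𝔻 → ↥(S.W : Set H)) × ↥F)),
      (rep i) • ((cj i.2 : Subgroup ↥S.G) : Set ↥S.G) = Set.univ := by
    rw [Set.eq_univ_iff_forall]
    rintro ⟨g, hg⟩
    obtain ⟨f, hf, a, ha, c, hc, hgf⟩ := hFs g hg
    have hU : g * f ∈ S.U := ⟨mul_mem hg (hFG hf), a, ha, c, hc, hgf⟩
    have h1 := hr (fun d => ⟨S.delta (g * f) d, S.delta_mem_W hU d⟩) (g * f) hU (fun _ => rfl)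
    simp only [Set.mem_iUnion]
    refine ⟨((fun d => ⟨S.delta (g * f) d, S.delta_mem_W hU d⟩), ⟨f, hf⟩), Finset.mem_univ _, ?_⟩
    rw [Set.mem_smul_set_iff_inv_smul_mem]
    refine Subgroup.mem_comap.2 ?_
    rw [Subgroup.mem_subgroupOf]
    simp only [MulEquiv.coe_toMonoidHom, MulAut.conj_apply, smul_eq_mul, Subgroup.coe_mul,
      Subgroup.coe_inv, inv_inv, rep]
    convert h1 using 1
    group
  obtain ⟨i, -, hi⟩ := Subgroup.exists_finiteIndex_of_leftCoset_cover hcov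
  have h2 : (cj i.2).index = (S.C.subgroupOf S.G).index :=
    Subgroup.index_comap_of_surjective _ (MulEquiv.surjective _)
  have h3 : (S.C.subgroupOf S.G).index = 0 := S.idxC
  exact hi.index_ne_zero (h2.trans h3)

/-- auxiliary: conjugation by an element of `B` on `𝔻` -/
private theorem CaseP_tau (S : Core H 𝔻 K Q) {b : H} (hb : b ∈ S.B) :
    ∃ τ : 𝔻 ≃* 𝔻, ∀ d, S.j (τ d) = b * S.j d * b⁻¹ := by
  choose f hf using S.jB b hb
  choose g hg using S.jB b⁻¹ (inv_mem hb)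
  have hf' : ∀ d, S.j (f d) = b * S.j d * b⁻¹ := fun d => (hf d).symm
  have hg' : ∀ d, S.j (g d) = b⁻¹ * S.j d * b := fun d => by
    have := (hg d).symm
    rwa [inv_inv] at this
  refine ⟨{ toFun := f, invFun := g, left_inv := ?_, right_inv := ?_, map_mul' := ?_ }, hf'⟩
  · intro d
    apply S.jinj
    rw [hg', hf']
    group
  · intro d
    apply S.jinj
    rw [hf', hg']
    group
  · intro x y
    apply S.jinj
    rw [map_mul, hf', hf', hf', map_mul]
    group

/-- PROOF. `W` is an abelian group (`W_comm`) with an action of `𝔻` by conjugation (`D_norm_W`).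
Take `M = Additive S.W` with `DistribMulAction 𝔻 M`, and `σ q d` the element with
`j (σ q d) = t q d (t q)⁻¹` (`jB`, `jinj`; see `Act_tau` in `Pool/Agent/AP/Act.lean`). By
`fix_small` and `AO.casePAlg` `W` is finite, contradicting `W_infinite`. -/
theorem caseP (S : Core H 𝔻 K Q) [Finite 𝔻] (p : ℕ) (hp : p.Prime) (hexp : ∀ d : 𝔻, d ^ p = 1)
    (hcard : p ^ Fintype.card Q < Nat.card 𝔻) : False := by
  let _ : CommGroup S.W :=
    { (inferInstance : Group S.W) with
      mul_comm := fun x y => Subtype.ext (S.W_comm x.1 x.2 y.1 y.2) }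
  letI act : DistribMulAction 𝔻 (Additive S.W) :=
    { smul := fun d m => Additive.ofMul
        ⟨S.j d * ((Additive.toMul m : S.W) : H) * (S.j d)⁻¹,
          S.D_norm_W d _ (Additive.toMul m : S.W).2⟩
      one_smul := fun m => by
        apply Additive.toMul.injective
        apply Subtype.ext
        show S.j 1 * ((Additive.toMul m : S.W) : H) * (S.j 1)⁻¹ = _
        rw [map_one]; group
      mul_smul := fun d e m => by
        apply Additive.toMul.injective
        apply Subtype.ext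
        show S.j (d * e) * ((Additive.toMul m : S.W) : H) * (S.j (d * e))⁻¹ =
          S.j d * (S.j e * ((Additive.toMul m : S.W) : H) * (S.j e)⁻¹) * (S.j d)⁻¹
        rw [map_mul]; group
      smul_zero := fun d => by
        apply Additive.toMul.injective
        apply Subtype.ext
        show S.j d * (1 : H) * (S.j d)⁻¹ = 1
        group
      smul_add := fun d x y => by
        apply Additive.toMul.injective
        apply Subtype.ext
        show S.j d * (((Additive.toMul x : S.W) : H) * ((Additive.toMul y : S.W) : H)) *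
            (S.j d)⁻¹ =
          (S.j d * ((Additive.toMul x : S.W) : H) * (S.j d)⁻¹) *
          (S.j d * ((Additive.toMul y : S.W) : H) * (S.j d)⁻¹)
        group }
  choose σ hσ using fun q => CaseP_tau S (S.tB q)
  have hM : Finite (Additive S.W) := by
    refine AO.casePAlg p hp hexp hcard σ fun d hd => ?_
    have hF := S.fix_small hd
    refine Set.Finite.of_finite_image
      (f := fun m : Additive S.W => ((Additive.toMul m : S.W) : H)) (hF.1.subset ?_)
      (fun x _ y _ h => Additive.toMul.injective (Subtype.ext h))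
    rintro _ ⟨m, hm, rfl⟩
    refine ⟨(Additive.toMul m : S.W).2, fun q => ?_⟩
    have h1 : S.j (σ q d) * ((Additive.toMul m : S.W) : H) * (S.j (σ q d))⁻¹ =
        ((Additive.toMul m : S.W) : H) :=
      congrArg (fun m : Additive S.W => ((Additive.toMul m : S.W) : H)) (hm q)
    rw [hσ] at h1
    show ((Additive.toMul m : S.W) : H) * (S.t q * S.j d * (S.t q)⁻¹) =
      (S.t q * S.j d * (S.t q)⁻¹) * ((Additive.toMul m : S.W) : H)
    conv_lhs => rw [← h1]
    group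
  haveI : Finite S.W := hM
  exact W_infinite S (Set.toFinite _)

end Pool.Agent.AP
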