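import Pool.Agent.AP.Gam

/-!
# Centralisers (module AP-Cent)

Notation: `d` stands for `S.j d`; `A, A0, B, C, G, t, ...` are the fields of `S`.
Compare with `Pool/Agent/AO/Cent.lean`.
-/

set_option autoImplicit false

namespace Pool.Agent.AP

namespace Pre

variable {H : Type*} [Group H] {K Q : Type*} [Fintype K] [Fintype Q] (S : Pre H K Q)

/-- Every `B`-conjugate of an element `c ∈ C` is one of the elements `t q c (t q)⁻¹`. -/
theorem conj_eq {b c : H} (hb : b ∈ S.B) (hc : c ∈ S.C) :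
    ∃ q, b * c * b⁻¹ = S.t q * c * (S.t q)⁻¹ := by
  obtain ⟨q, hq, -⟩ := S.hT b hb
  refine ⟨q, ?_⟩
  have h1 : ((S.t q)⁻¹ * b) * c = c * ((S.t q)⁻¹ * b) := S.cC _ hq _ hc
  calc b * c * b⁻¹ = S.t q * (((S.t q)⁻¹ * b) * c) * ((S.t q)⁻¹ * b)⁻¹ * (S.t q)⁻¹ := by group
    _ = S.t q * (c * ((S.t q)⁻¹ * b)) * ((S.t q)⁻¹ * b)⁻¹ * (S.t q)⁻¹ := by rw [h1]
    _ = S.t q * c * (S.t q)⁻¹ := by group

theorem one_of_comm {c a : H} (hc : c ∈ S.C) (hc1 : c ≠ 1) (ha : a ∈ S.A0)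
    (h : ∀ q, Commute a (S.t q * c * (S.t q)⁻¹)) : a = 1 := by
  refine S.h3 c hc hc1 a ha fun q => ?_
  have h1 : a * (S.t q * c * (S.t q)⁻¹) * a⁻¹ = S.t q * c * (S.t q)⁻¹ := by
    rw [(h q).eq]; group
  rw [h1]
  exact S.nC _ (S.tB q) _ hc

/-- Let `X ≥ C` be a subgroup with `X ∩ A0 = 1`. Then the left cosets of `C` in `X` are separated
by a map to `K × Q`.
PROOF. For `x : H` write `x = a b` (`hAB`), `a ∈ A`, `b ∈ B` and let `φ x = (k, q)` with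
`a (s k)⁻¹ ∈ A0` (`hS`) and `(t q)⁻¹ b ∈ C` (`hT`) (use choice). If `x, y ∈ X` and `φ x = φ y = (k, q)`, then
`x = α (s k) (t q) c`, `y = α' (s k) (t q) c'` with `α, α' ∈ A0`, `c, c' ∈ C ≤ X`. So
`α α'⁻¹ = (x c⁻¹) (y c'⁻¹)⁻¹ ∈ X ∩ A0 = 1`, `α = α'`, and `x⁻¹ y = c⁻¹ c' ∈ C`. -/
theorem exists_sep : ∃ φ : H → K × Q, ∀ X : Subgroup H, S.C ≤ X →
    (∀ a ∈ X, a ∈ S.A0 → a = 1) →
    ∀ x ∈ X, ∀ y ∈ X, φ x = φ y → x⁻¹ * y ∈ S.C := by
  choose a ha b hb hab using S.hAB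
  choose k hk using fun x => S.hS (a x) (ha x)
  choose q hq using fun x => (S.hT (b x) (hb x)).exists
  refine ⟨fun x => (k x, q x), fun X hCX hXA x hx y hy hxy => ?_⟩
  obtain ⟨hkxy, hqxy⟩ := Prod.ext_iff.1 hxy
  simp only at hkxy hqxy
  have key : ∀ z ∈ X, a z * S.t (q z) ∈ X := by
    intro z hz
    have h1 : a z * S.t (q z) = z * ((S.t (q z))⁻¹ * b z)⁻¹ := by
      conv_rhs => rw [show z * ((S.t (q z))⁻¹ * b z)⁻¹ = (a z * b z) * ((S.t (q z))⁻¹ * b z)⁻¹ by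
        rw [← hab z]]
      group
    rw [h1]
    exact mul_mem hz (inv_mem (hCX (hq z)))
  have h2 : a x * (a y)⁻¹ = (a x * S.t (q x)) * (a y * S.t (q y))⁻¹ := by
    rw [← hqxy]; group
  have h2' : a x * (a y)⁻¹ = (a x * (S.s (k x))⁻¹) * (a y * (S.s (k y))⁻¹)⁻¹ := by
    rw [← hkxy]; group
  have h3 : a x * (a y)⁻¹ = 1 := by
    refine hXA _ ?_ ?_
    · rw [h2]
      exact mul_mem (key x hx) (inv_mem (key y hy))
    · rw [h2']
      exact mul_mem (hk x) (inv_mem (hk y))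
  have h4 : a x = a y := mul_inv_eq_one.1 h3
  have h5 : x⁻¹ * y = ((S.t (q x))⁻¹ * b x)⁻¹ * ((S.t (q y))⁻¹ * b y) := by
    calc x⁻¹ * y = (a x * b x)⁻¹ * (a y * b y) := by rw [← hab x, ← hab y]
      _ = (b x)⁻¹ * ((a x)⁻¹ * a y) * b y := by group
      _ = (b x)⁻¹ * b y := by rw [h4]; group
      _ = ((S.t (q x))⁻¹ * b x)⁻¹ * ((S.t (q x))⁻¹ * b y) := by group
      _ = ((S.t (q x))⁻¹ * b x)⁻¹ * ((S.t (q y))⁻¹ * b y) := by rw [hqxy]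
  rw [h5]
  exact mul_mem (inv_mem (hq x)) (hq y)

/-- The centraliser of the `B`-conjugates of `c`. -/
def CB (c : H) : Subgroup H :=
  Subgroup.centralizer {x | ∃ q, x = S.t q * c * (S.t q)⁻¹}

theorem C_le_CB {c : H} (hc : c ∈ S.C) : S.C ≤ S.CB c := by
  intro x hx
  unfold CB
  rw [Subgroup.mem_centralizer_iff]
  rintro y ⟨q, rfl⟩
  exact S.cC _ (S.nC _ (S.tB q) _ hc) _ hx

theorem CB_inf_A {c : H} (hc : c ∈ S.C) (hc1 : c ≠ 1) : ∀ a ∈ S.CB c, a ∈ S.A0 → a = 1 := by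
  intro a h ha
  unfold CB at h
  rw [Subgroup.mem_centralizer_iff] at h
  exact S.one_of_comm hc hc1 ha fun q => (h _ ⟨q, rfl⟩).symm

/-- A subgroup `Y ≤ C_H(c^B)` with `Y ∩ C = 1` has at most `|K| |Q|` elements.
PROOF. The map `φ` of `exists_sep` (with `X = CB c`) is injective on `Y`. -/
theorem small_of_CB {c : H} (hc : c ∈ S.C) (hc1 : c ≠ 1) (Y : Subgroup H) (hY : Y ≤ S.CB c)
    (hYC : ∀ y ∈ Y, y ∈ S.C → y = 1) :
    (Y : Set H).Finite ∧ (Y : Set H).ncard ≤ Fintype.card K * Fintype.card Q := by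
  obtain ⟨φ, hφ⟩ := S.exists_sep
  have hinj : Set.InjOn φ (Y : Set H) := by
    intro x hx y hy hxy
    have h1 := hφ (S.CB c) (S.C_le_CB hc) (S.CB_inf_A hc hc1) x (hY hx) y (hY hy) hxy
    have h2 := hYC _ (mul_mem (inv_mem hx) hy) h1
    exact inv_mul_eq_one.1 h2
  refine ⟨Set.Finite.of_finite_image (Set.toFinite _) hinj, ?_⟩
  rw [← Set.ncard_image_of_injOn hinj, ← Fintype.card_prod, ← Nat.card_eq_fintype_card,
    ← Set.ncard_univ]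
  exact Set.ncard_le_ncard (Set.subset_univ _) (Set.toFinite _)

/-- PROOF. `A0 ⊓ L` has finite index in the infinite group `A0 ⊓ G`
(`Subgroup.relIndex`: `(A0 ⊓ L).relIndex (A0 ⊓ G) ≠ 0`; if `A0 ⊓ L` were finite, so would be
`A0 ⊓ G`, a finite union of cosets). -/
theorem infA_of {L : Subgroup H} (hL : L ≤ S.G) (hLi : L.relIndex S.G ≠ 0) :
    ((S.A0 ⊓ L : Subgroup H) : Set H).Infinite := by
  intro hfin
  have h1 : L.relIndex (S.A0 ⊓ S.G) ≠ 0 := fun h =>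
    hLi (Subgroup.relIndex_eq_zero_of_le_right inf_le_right h)
  rw [← Subgroup.inf_relIndex_right] at h1
  have h2 : ((L ⊓ (S.A0 ⊓ S.G) : Subgroup H) : Set H).Finite := by
    refine hfin.subset ?_
    intro x hx
    have hx' := Subgroup.mem_inf.1 hx
    exact Subgroup.mem_inf.2 ⟨(Subgroup.mem_inf.1 hx'.2).1, hx'.1⟩
  haveI : Finite ↥(L ⊓ (S.A0 ⊓ S.G)) := h2.to_subtype
  have h3 := Subgroup.relIndex_mul_relIndex (⊥ : Subgroup H) (L ⊓ (S.A0 ⊓ S.G)) (S.A0 ⊓ S.G)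
    bot_le inf_le_right
  rw [Subgroup.relIndex_bot_left, Subgroup.relIndex_bot_left] at h3
  have h4 : Nat.card ↥(S.A0 ⊓ S.G) ≠ 0 := by
    rw [← h3]
    exact mul_ne_zero Nat.card_pos.ne' h1
  haveI : Finite ↥(S.A0 ⊓ S.G) := Nat.finite_of_card_ne_zero h4
  exact S.infA (Set.toFinite _)

end Pre

namespace Core

variable {H : Type*} [Group H] {𝔻 : Type*} [CommGroup 𝔻] {K Q : Type*} [Fintype K] [Fintype Q]
variable (S : Core H 𝔻 K Q)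

omit [CommGroup 𝔻] [Fintype K] [Fintype Q] in
/-- auxiliary: `L` normalises the centraliser of `Γ` -/
private theorem Cent_norm_aux (Γ L : Subgroup H) (hn : ∀ g ∈ L, ∀ x ∈ Γ, g * x * g⁻¹ ∈ Γ) :
    ∀ g ∈ L, ∀ z : H, (∀ x ∈ Γ, Commute z x) → ∀ x ∈ Γ, Commute (g * z * g⁻¹) x := by
  intro g hg z hz x hx
  have h1 : g⁻¹ * x * g⁻¹⁻¹ ∈ Γ := hn g⁻¹ (inv_mem hg) x hx
  have h2 := (hz _ h1).eq
  show g * z * g⁻¹ * x = x * (g * z * g⁻¹)
  calc g * z * g⁻¹ * x = g * (z * (g⁻¹ * x * g⁻¹⁻¹)) * g⁻¹ := by group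
    _ = g * ((g⁻¹ * x * g⁻¹⁻¹) * z) * g⁻¹ := by rw [h2]
    _ = x * (g * z * g⁻¹) := by group

/-- Let `L` be a subgroup of finite index of `G` containing the transversal `t`, and `Γ` a group
containing `j(𝔻)` and normalised by `L`. Then the centraliser of `Γ` is finite.
PROOF. As `AO.Core.cent_finite`. Let `Z` be the centraliser of `Γ`. Choose `d ≠ 1` (`nt`);
`j d ∈ C`, `j d ≠ 1` by `jinj`, and `t q d (t q)⁻¹ ∈ j(𝔻) ⊆ Γ` (`jB`), so `Z ≤ CB (j d)`. So with the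
map `φ` of `exists_sep` (`X = CB (j d)`), `φ z = φ z'` implies `z⁻¹ z' ∈ Z ∩ C` for `z, z' ∈ Z`; so it is
enough to prove that `Z ∩ C` is finite. `L` normalises `Z`. Choose `a ∈ A0 ∩ L`, `a ≠ 1` (`infA_of`). Map
`z ∈ Z ∩ C` to the function `q ↦ φ ((a t_q) z (a t_q)⁻¹)`. If `z, z'` have the same image then
`y = z⁻¹ z' ∈ Z ∩ C` satisfies `a (t_q y t_q⁻¹) a⁻¹ ∈ C` for all `q`, so `y = 1` by `h3`. -/
theorem cent_finite (Γ L : Subgroup H) (hL : L ≤ S.G) (hLi : L.relIndex S.G ≠ 0)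
    (htL : ∀ q, S.t q ∈ L) (hD : ∀ d, S.j d ∈ Γ) (hn : ∀ g ∈ L, ∀ x ∈ Γ, g * x * g⁻¹ ∈ Γ) :
    {z : H | ∀ x ∈ Γ, Commute z x}.Finite := by
  obtain ⟨φ, hφ⟩ := S.exists_sep
  obtain ⟨d, hd⟩ := S.nt
  have hjd : S.j d ≠ 1 := by
    intro h
    exact hd (S.jinj (by rw [h, map_one]))
  have hle : ∀ z : H, (∀ x ∈ Γ, Commute z x) → z ∈ S.CB (S.j d) := by
    intro z hz
    unfold Pre.CB
    rw [Subgroup.mem_centralizer_iff]
    rintro y ⟨q, rfl⟩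
    obtain ⟨d', hd'⟩ := S.jB (S.t q) (S.tB q) d
    rw [hd']
    exact (hz _ (hD d')).symm.eq
  have hsep : ∀ z : H, (∀ x ∈ Γ, Commute z x) → ∀ z' : H, (∀ x ∈ Γ, Commute z' x) →
      φ z = φ z' → z⁻¹ * z' ∈ S.C := fun z hz z' hz' h =>
    hφ (S.CB (S.j d)) (S.C_le_CB (S.jC d)) (S.CB_inf_A (S.jC d) hjd) z (hle z hz) z' (hle z' hz') h
  have hmul : ∀ z : H, (∀ x ∈ Γ, Commute z x) → ∀ z' : H, (∀ x ∈ Γ, Commute z' x) →
      ∀ x ∈ Γ, Commute (z⁻¹ * z') x := fun z hz z' hz' x hx =>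
    ((hz x hx).inv_left).mul_left (hz' x hx)
  have hnorm := Cent_norm_aux Γ L hn
  -- `Z ∩ C` is finite
  have hZC : {z : H | (∀ x ∈ Γ, Commute z x) ∧ z ∈ S.C}.Finite := by
    obtain ⟨a, ha, ha1⟩ := (S.infA_of hL hLi).nontrivial.exists_ne 1
    have haA : a ∈ S.A0 := (Subgroup.mem_inf.1 ha).1
    have haL : a ∈ L := (Subgroup.mem_inf.1 ha).2
    have hinj : Set.InjOn (fun (z : H) (q : Q) => φ ((a * S.t q) * z * (a * S.t q)⁻¹))
        {z : H | (∀ x ∈ Γ, Commute z x) ∧ z ∈ S.C} := by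
      intro z hz z' hz' h
      by_contra hne
      have hy1 : z⁻¹ * z' ≠ 1 := fun h1 => hne (inv_mul_eq_one.1 h1)
      have hyC : z⁻¹ * z' ∈ S.C := mul_mem (inv_mem hz.2) hz'.2
      refine ha1 (S.h3 _ hyC hy1 a haA fun q => ?_)
      have hg : a * S.t q ∈ L := mul_mem haL (htL q)
      have h2 := hsep _ (hnorm _ hg z hz.1) _ (hnorm _ hg z' hz'.1) (congrFun h q)
      have h3 : a * (S.t q * (z⁻¹ * z') * (S.t q)⁻¹) * a⁻¹ =
          (a * S.t q * z * (a * S.t q)⁻¹)⁻¹ * (a * S.t q * z' * (a * S.t q)⁻¹) := by group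
      rw [h3]
      exact h2
    exact Set.Finite.of_finite_image (Set.toFinite _) hinj
  have hsub : {z : H | ∀ x ∈ Γ, Commute z x} ⊆
      ⋃ q : K × Q, {z : H | (∀ x ∈ Γ, Commute z x) ∧ φ z = q} := by
    intro z hz
    exact Set.mem_iUnion.2 ⟨φ z, hz, rfl⟩
  refine (Set.finite_iUnion fun q => ?_).subset hsub
  rcases Set.eq_empty_or_nonempty {z : H | (∀ x ∈ Γ, Commute z x) ∧ φ z = q} with he | ⟨z₀, hz₀⟩
  · rw [he]; exact Set.finite_empty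
  · refine (hZC.image fun w => z₀ * w).subset ?_
    intro z hz
    refine ⟨z₀⁻¹ * z, ⟨hmul _ hz₀.1 _ hz.1, hsep _ hz₀.1 _ hz.1 (by rw [hz₀.2, hz.2])⟩, ?_⟩
    show z₀ * (z₀⁻¹ * z) = z
    group

/-- PROOF. As `AO.Core.cent_inf_C`: the centraliser `Z` of `Γ` is finite and normalised by `L`; the
infinite group `A0 ∩ L` acts on it, so some `a' ≠ 1` in `A0 ∩ L` commutes with all elements of `Z`. For
`z ∈ Z ∩ C` all `t q z (t q)⁻¹` are in `Z`, so `z ≠ 1` would give `a' = 1` by `one_of_comm`. -/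
theorem cent_inf_C (Γ L : Subgroup H) (hL : L ≤ S.G) (hLi : L.relIndex S.G ≠ 0)
    (htL : ∀ q, S.t q ∈ L) (hD : ∀ d, S.j d ∈ Γ) (hn : ∀ g ∈ L, ∀ x ∈ Γ, g * x * g⁻¹ ∈ Γ)
    {z : H} (hz : z ∈ S.C) (h : ∀ x ∈ Γ, Commute z x) : z = 1 := by
  by_contra hz1
  have hfin := cent_finite S Γ L hL hLi htL hD hn
  have hnorm := Cent_norm_aux Γ L hn
  haveI : Finite ↥{z : H | ∀ x ∈ Γ, Commute z x} := hfin
  haveI : Infinite ↥((S.A0 ⊓ L : Subgroup H) : Set H) := (S.infA_of hL hLi).to_subtype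
  obtain ⟨a₁, a₂, hne, heq⟩ := Finite.exists_ne_map_eq_of_infinite
    (fun (a : ↥((S.A0 ⊓ L : Subgroup H) : Set H)) (z : ↥{z : H | ∀ x ∈ Γ, Commute z x}) =>
      (⟨(a : H) * z * (a : H)⁻¹, hnorm _ (Subgroup.mem_inf.1 a.2).2 _ z.2⟩ :
        ↥{z : H | ∀ x ∈ Γ, Commute z x}))
  have h1A : (a₁ : H) ∈ S.A0 := (Subgroup.mem_inf.1 a₁.2).1
  have h2A : (a₂ : H) ∈ S.A0 := (Subgroup.mem_inf.1 a₂.2).1
  have hcomm : ∀ y : H, (∀ x ∈ Γ, Commute y x) → Commute ((a₂ : H)⁻¹ * a₁) y := by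
    intro y hy
    have h3 := congrArg Subtype.val (congrFun heq ⟨y, hy⟩)
    have h4 : (a₁ : H) * y * (a₁ : H)⁻¹ = (a₂ : H) * y * (a₂ : H)⁻¹ := h3
    show (a₂ : H)⁻¹ * a₁ * y = y * ((a₂ : H)⁻¹ * a₁)
    calc (a₂ : H)⁻¹ * a₁ * y = (a₂ : H)⁻¹ * ((a₁ : H) * y * (a₁ : H)⁻¹) * a₁ := by group
      _ = (a₂ : H)⁻¹ * ((a₂ : H) * y * (a₂ : H)⁻¹) * a₁ := by rw [h4]
      _ = y * ((a₂ : H)⁻¹ * a₁) := by group
  have h5 : (a₂ : H)⁻¹ * a₁ = 1 := by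
    refine S.one_of_comm hz hz1 (mul_mem (inv_mem h2A) h1A) fun q => ?_
    exact hcomm _ (hnorm _ (htL q) z h)
  exact hne (Subtype.ext (inv_mul_eq_one.1 h5).symm)

/-- PROOF. `w ∈ W ∩ C` commutes with `V` (`W_V_comm`) and with all `j d` (`cC`, `jC`), so with `Gam`
(`mem_Gam`); `cent_inf_C` for `Γ = Gam`, `L = G` (`G_norm_Gam`, `j_mem_Gam`, `tG`). -/
theorem W_inf_C {w : H} (hw : w ∈ S.W) (hc : w ∈ S.C) : w = 1 := by
  refine cent_inf_C S S.Gam S.G le_rfl ?_ S.tG (fun d => j_mem_Gam S d) (G_norm_Gam S) hc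
    fun x hx => ?_
  · rw [Subgroup.relIndex_self]
    exact one_ne_zero
  · obtain ⟨v, hv, d, rfl⟩ := (mem_Gam S x).1 hx
    have h1 : Commute w v := W_V_comm S w hw v hv
    have h2 : Commute w (S.j d) := S.cC w hc _ (S.jC d)
    exact h1.mul_right h2

/-- PROOF. The elements form the subgroup `Y = W ⊓ CB (j d)`, and `Y ∩ C = 1` by `W_inf_C`;
`Pre.small_of_CB`. -/
theorem fix_small {d : 𝔻} (hd : d ≠ 1) :
    {v : H | v ∈ S.W ∧ ∀ q, Commute v (S.t q * S.j d * (S.t q)⁻¹)}.Finite ∧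
    {v : H | v ∈ S.W ∧ ∀ q, Commute v (S.t q * S.j d * (S.t q)⁻¹)}.ncard ≤
      Fintype.card K * Fintype.card Q := by
  have hjd : S.j d ≠ 1 := by
    intro h
    exact hd (S.jinj (by rw [h, map_one]))
  have hset : {v : H | v ∈ S.W ∧ ∀ q, Commute v (S.t q * S.j d * (S.t q)⁻¹)} =
      ((S.W ⊓ S.CB (S.j d) : Subgroup H) : Set H) := by
    ext v
    simp only [Set.mem_setOf_eq, SetLike.mem_coe, Subgroup.mem_inf]
    refine and_congr_right fun _ => ?_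
    unfold Pre.CB
    rw [Subgroup.mem_centralizer_iff]
    constructor
    · rintro h y ⟨q, rfl⟩
      exact (h q).symm.eq
    · intro h q
      exact (h _ ⟨q, rfl⟩).symm
  rw [hset]
  refine S.small_of_CB (S.jC d) hjd _ inf_le_right fun y hy hyC => ?_
  exact W_inf_C S (Subgroup.mem_inf.1 hy).1 hyC

end Core

end Pool.Agent.AP
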