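import Pool.Agent.AP.Defs
import Pool.Agent.AO.CorePOne

/-!
# Infinite abelian groups of bounded exponent; equivariant homomorphisms (module AP-CorePOne)
-/

set_option autoImplicit false

universe u

namespace Pool.Agent.AP

open Filter

/-- The `B`-equivariant homomorphisms `φ_y : (ZMod p)^(k × Q) → C` belonging to `k`-tuples `y` of
elements of `C` with `y^p = 1`:
`φ_y(ν) = ∏_{i < k} ∏_{r ∈ Q} ((t r) y_i (t r)⁻¹)^{ν i r}`.
PROOF. The subgroup `Cp = {c ∈ C | c^p = 1}` is commutative, normalised by `B`; regard its additive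
version as a module over `ZMod p` (`AddCommGroup.zmodModule`) and define `φ_y` by the displayed formula
`ν ↦ ∑_i ∑_r ν i r • ((t r) y_i (t r)⁻¹)`. Property (1) is clear. (2): for `b ∈ B` and
`b (t r) ∈ (t (π r)) C` we have `b (t r) y_i (t r)⁻¹ b⁻¹ = (t (π r)) y_i (t (π r))⁻¹`; reindex the sum
by `π`. (3) bilinearity. (4): take `ν i r = μ i` if `r = q1`, else `0`, where `q1` is the index of `1`,
`t q1 ∈ C`. -/
theorem exists_phi {H : Type*} [Group H] {K Q : Type*} [Fintype K] [Fintype Q] (S : Pre H K Q) (p k : ℕ)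
    (hp : p.Prime) :
    ∃ φ : (Fin k → H) → (Multiplicative (Fin k → Q → ZMod p) →* H),
      (∀ y, (∀ i, y i ∈ S.C ∧ y i ^ p = 1) → ∀ ν, φ y ν ∈ S.C) ∧
      (∀ y, (∀ i, y i ∈ S.C ∧ y i ^ p = 1) → ∀ b ∈ S.B, ∀ π : Q ≃ Q,
        (∀ r, (S.t (π r))⁻¹ * (b * S.t r) ∈ S.C) → ∀ ν : Fin k → Q → ZMod p,
        b * φ y (Multiplicative.ofAdd ν) * b⁻¹
          = φ y (Multiplicative.ofAdd fun i r => ν i (π.symm r))) ∧
      (∀ y y', (∀ i, y i ∈ S.C ∧ y i ^ p = 1) → (∀ i, y' i ∈ S.C ∧ y' i ^ p = 1) → ∀ ν,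
        φ (fun i => y i * y' i) ν = φ y ν * φ y' ν) ∧
      (∀ y, (∀ i, y i ∈ S.C ∧ y i ^ p = 1) → ∀ i : Fin k, ∃ ν, φ y ν = y i) := by
  classical
  have hconj : ∀ b ∈ S.B, ∀ c, c ∈ S.C ∧ c ^ p = 1 → b * c * b⁻¹ ∈ S.C ∧ (b * c * b⁻¹) ^ p = 1 := by
    rintro b hb c ⟨hc, hcp⟩
    refine ⟨S.nC b hb c hc, ?_⟩
    rw [conj_pow, hcp, mul_one, mul_inv_cancel]
  let Cp : Subgroup H :=
    { carrier := {c | c ∈ S.C ∧ c ^ p = 1}
      one_mem' := ⟨S.C.one_mem, one_pow p⟩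
      mul_mem' := by
        rintro x y ⟨hx, hxp⟩ ⟨hy, hyp⟩
        have hxy : Commute x y := S.cC x hx y hy
        exact ⟨S.C.mul_mem hx hy, by rw [hxy.mul_pow, hxp, hyp, one_mul]⟩
      inv_mem' := by
        rintro x ⟨hx, hxp⟩
        exact ⟨S.C.inv_mem hx, by rw [inv_pow, hxp, inv_one]⟩ }
  have hCp : ∀ c, c ∈ Cp ↔ c ∈ S.C ∧ c ^ p = 1 := fun c => Iff.rfl
  let _ : CommGroup Cp :=
    { (inferInstance : Group Cp) with
      mul_comm := fun x y => Subtype.ext (S.cC x.1 x.2.1 y.1 y.2.1) }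
  let _ : Module (ZMod p) (Additive Cp) := AddCommGroup.zmodModule (n := p) (by
    intro x
    have h1 : (Additive.toMul x : Cp) ^ p = 1 := Subtype.ext (Additive.toMul x : Cp).2.2
    exact h1)
  -- conjugation by `b`
  let cj : ∀ b : S.B, Additive Cp →+ Additive Cp := fun b =>
    MonoidHom.toAdditive
      { toFun := fun c => ⟨b * c * (b : H)⁻¹, hconj b b.2 c c.2⟩
        map_one' := Subtype.ext (by simp)
        map_mul' := fun x y => Subtype.ext (by simp) }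
  have hcj : ∀ (b : S.B) (x : Additive Cp),
      ((Additive.toMul (cj b x) : Cp) : H) = b * (Additive.toMul x : Cp) * (b : H)⁻¹ :=
    fun b x => rfl
  let w : ∀ y : Fin k → H, (∀ i, y i ∈ S.C ∧ y i ^ p = 1) → Fin k → Q → Additive Cp :=
    fun y hy i r => Additive.ofMul ⟨S.t r * y i * (S.t r)⁻¹, hconj _ (S.tB r) _ (hy i)⟩
  let L : (Fin k → Q → Additive Cp) → ((Fin k → Q → ZMod p) →+ Additive Cp) := fun w =>
    { toFun := fun ν => ∑ i, ∑ r, ν i r • w i r
      map_zero' := by simp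
      map_add' := fun ν μ => by simp [add_smul, Finset.sum_add_distrib] }
  have hL : ∀ w ν, L w ν = ∑ i, ∑ r, ν i r • w i r := fun w ν => rfl
  let φ : (Fin k → H) → (Multiplicative (Fin k → Q → ZMod p) →* H) := fun y =>
    if hy : ∀ i, y i ∈ S.C ∧ y i ^ p = 1 then
      Cp.subtype.comp (AddMonoidHom.toMultiplicativeLeft (L (w y hy)))
    else 1
  have hφ : ∀ y (hy : ∀ i, y i ∈ S.C ∧ y i ^ p = 1) (ν : Fin k → Q → ZMod p),
      φ y (Multiplicative.ofAdd ν) = ((Additive.toMul (L (w y hy) ν) : Cp) : H) := by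
    intro y hy ν
    simp only [φ, dif_pos hy]
    rfl
  refine ⟨φ, ?_, ?_, ?_, ?_⟩
  · intro y hy ν
    rw [← ofAdd_toAdd ν, hφ y hy]
    exact (Additive.toMul (L (w y hy) (Multiplicative.toAdd ν)) : Cp).2.1
  · intro y hy b hb π hπ ν
    rw [hφ y hy, hφ y hy, ← hcj ⟨b, hb⟩]
    congr 2
    rw [hL, hL, map_sum]
    refine Finset.sum_congr rfl fun i _ => ?_
    rw [map_sum, ← Equiv.sum_comp π (fun r => ν i (π.symm r) • w y hy i r)]
    refine Finset.sum_congr rfl fun r _ => ?_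
    rw [ZMod.map_smul, Equiv.symm_apply_apply]
    congr 1
    have h1 : b * (S.t r * y i * (S.t r)⁻¹) * b⁻¹ = S.t (π r) * y i * (S.t (π r))⁻¹ := by
      have h3 := S.cC _ (hπ r) _ (hy i).1
      calc b * (S.t r * y i * (S.t r)⁻¹) * b⁻¹ = (b * S.t r) * y i * (b * S.t r)⁻¹ := by group
        _ = S.t (π r) * (((S.t (π r))⁻¹ * (b * S.t r)) * y i) * ((S.t (π r))⁻¹ * (b * S.t r))⁻¹
            * (S.t (π r))⁻¹ := by group
        _ = S.t (π r) * y i * (S.t (π r))⁻¹ := by rw [h3]; group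
    exact congrArg Additive.ofMul (Subtype.ext h1)
  · intro y y' hy hy' ν
    have hyy : ∀ i, y i * y' i ∈ S.C ∧ (y i * y' i) ^ p = 1 := by
      intro i
      have hxy : Commute (y i) (y' i) := S.cC _ (hy i).1 _ (hy' i).1
      exact ⟨S.C.mul_mem (hy i).1 (hy' i).1, by rw [hxy.mul_pow, (hy i).2, (hy' i).2, one_mul]⟩
    rw [← ofAdd_toAdd ν, hφ _ hyy, hφ y hy, hφ y' hy']
    have h1 : w _ hyy = w y hy + w y' hy' := by
      funext i r
      refine congrArg Additive.ofMul (Subtype.ext ?_)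
      change S.t r * (y i * y' i) * (S.t r)⁻¹ = (S.t r * y i * (S.t r)⁻¹) * (S.t r * y' i * (S.t r)⁻¹)
      group
    have h2 : L (w _ hyy) (Multiplicative.toAdd ν) =
        L (w y hy) (Multiplicative.toAdd ν) + L (w y' hy') (Multiplicative.toAdd ν) := by
      rw [h1]
      simp only [hL, Pi.add_apply, smul_add, Finset.sum_add_distrib]
    rw [h2]
    rfl
  · intro y hy i
    obtain ⟨q1, hq1, -⟩ := S.hT 1 S.B.one_mem
    have hc : S.t q1 ∈ S.C := by
      have := S.C.inv_mem hq1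
      simpa using this
    refine ⟨Multiplicative.ofAdd (Pi.single i (Pi.single q1 1)), ?_⟩
    rw [hφ y hy, hL]
    have h1 : ∑ i', ∑ r, (Pi.single i (Pi.single q1 (1 : ZMod p)) : Fin k → Q → ZMod p) i' r • w y hy i' r
        = w y hy i q1 := by
      rw [Finset.sum_eq_single i, Finset.sum_eq_single q1]
      · simp
      · intro r _ hr
        simp [Pi.single_eq_of_ne hr]
      · simp
      · intro i' _ hi'
        simp [Pi.single_eq_of_ne hi']
      · simp
    rw [h1]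
    change S.t q1 * y i * (S.t q1)⁻¹ = y i
    rw [S.cC _ hc _ (hy i).1]
    group

end Pool.Agent.AP
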