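import Pool.Agent.AP.Defs

/-!
# The Hales-Jewett step for bounded exponent (module AP-CorePTwo)
-/

set_option autoImplicit false

universe u

namespace Pool.Agent.AP

open Filter

/-- The finite Hales-Jewett step for an arbitrary colouring `y : H → Λ` with finitely many colours.
PROOF. As `AO.hjP` in `Pool/Agent/AO/CorePTwo.lean` (copy the proof), with the colouring
`w ↦ (g ↦ y ((∏_l φ_{y_l}(w_l)) g))`, `g ∈ F`; take `ν = 1` to compare with `c0 g`
(`φ d 1 = 1`). -/
theorem hjP {H : Type*} [Group H] {K Q : Type*} [Fintype K] [Fintype Q] (S : Pre H K Q) {p : ℕ}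
    (k : ℕ) (hp : p.Prime) (hinf : {c | c ∈ S.C ∧ c ^ p = 1}.Infinite)
    {Λ : Type*} [Finite Λ] (y : H → Λ)
    (φ : (Fin k → H) → (Multiplicative (Fin k → Q → ZMod p) →* H))
    (h1 : ∀ y, (∀ i, y i ∈ S.C ∧ y i ^ p = 1) → ∀ ν, φ y ν ∈ S.C)
    (h3 : ∀ y y', (∀ i, y i ∈ S.C ∧ y i ^ p = 1) → (∀ i, y' i ∈ S.C ∧ y' i ^ p = 1) → ∀ ν,
        φ (fun i => y i * y' i) ν = φ y ν * φ y' ν)
    (F : Finset H) :
    ∃ d : Fin k → H, (∀ i, d i ∈ S.C ∧ d i ^ p = 1) ∧
      (∀ μ μ' : Fin k → Fin p, (List.ofFn fun i => d i ^ (μ i : ℕ)).prod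
        = (List.ofFn fun i => d i ^ (μ' i : ℕ)).prod → μ = μ') ∧
      ∃ c0 ∈ S.C, ∀ g ∈ F, ∀ ν, y (c0 * φ d ν * g) = y (c0 * g) := by
  classical
  have : Fact p.Prime := ⟨hp⟩
  letI : CommGroup S.C :=
    { (inferInstance : Group S.C) with
      mul_comm := fun a b => Subtype.ext (S.cC _ a.2 _ b.2) }
  -- the subgroup of elements of order dividing `p`
  obtain ⟨Cp, hCp⟩ : ∃ Cp : Subgroup H, ∀ c, c ∈ Cp ↔ (c ∈ S.C ∧ c ^ p = 1) :=
    ⟨{ carrier := {c | c ∈ S.C ∧ c ^ p = 1}
       mul_mem' := by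
         rintro a b ⟨ha, ha'⟩ ⟨hb, hb'⟩
         refine ⟨S.C.mul_mem ha hb, ?_⟩
         rw [(show Commute a b from S.cC a ha b hb).mul_pow, ha', hb', one_mul]
       one_mem' := ⟨S.C.one_mem, one_pow p⟩
       inv_mem' := by
         rintro a ⟨ha, ha'⟩
         refine ⟨S.C.inv_mem ha, ?_⟩
         rw [inv_pow, ha', inv_one] }, fun c => Iff.rfl⟩
  letI : CommGroup Cp :=
    { (inferInstance : Group Cp) with
      mul_comm := fun a b => Subtype.ext (S.cC _ ((hCp _).1 a.2).1 _ ((hCp _).1 b.2).1) }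
  have hCpinf : Infinite Cp := by
    have h0 : ((Cp : Set H)) = {c | c ∈ S.C ∧ c ^ p = 1} := by
      ext c
      exact hCp c
    have h0' : (Cp : Set H).Infinite := by rw [h0]; exact hinf
    exact h0'.to_subtype
  letI : Module (ZMod p) (Additive Cp) := AddCommGroup.zmodModule (n := p) (fun x => by
    apply Additive.toMul.injective
    apply Subtype.ext
    exact ((hCp _).1 (Additive.toMul x).2).2)
  -- a nontrivial word family
  obtain ⟨ι, hι, hHJ⟩ := Combinatorics.Line.exists_mono_in_high_dimension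
    (Multiplicative (Fin k → Q → ZMod p)) (F → Λ)
  -- linearly independent elements
  obtain ⟨v, hv⟩ : ∃ v : ι × Fin k → Additive Cp, LinearIndependent (ZMod p) v := by
    let b := Module.Basis.ofVectorSpace (ZMod p) (Additive Cp)
    haveI : Infinite (Module.Basis.ofVectorSpaceIndex (ZMod p) (Additive Cp)) := by
      by_contra hfin
      rw [not_infinite_iff_finite] at hfin
      haveI := Fintype.ofFinite (Module.Basis.ofVectorSpaceIndex (ZMod p) (Additive Cp))
      haveI : Finite (Additive Cp) := Finite.of_equiv _ b.equivFun.toEquiv.symm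
      exact not_finite (Additive Cp)
    let e : ι × Fin k ↪ Module.Basis.ofVectorSpaceIndex (ZMod p) (Additive Cp) :=
      ((Fintype.equivFin (ι × Fin k)).toEmbedding.trans Fin.valEmbedding).trans
        (Infinite.natEmbedding _)
    exact ⟨fun x => b (e x), b.linearIndependent.comp e e.injective⟩
  set Y : ι → Fin k → Cp := fun l i => Additive.toMul (v (l, i)) with hY
  have hmem : ∀ (y : Fin k → Cp) (i : Fin k), (y i : H) ∈ S.C ∧ (y i : H) ^ p = 1 :=
    fun y i => (hCp _).1 (y i).2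
  -- the homomorphisms `y ↦ φ y ν`
  let Ψ : Multiplicative (Fin k → Q → ZMod p) → ((Fin k → Cp) →* S.C) := fun ν =>
    MonoidHom.mk' (fun y => ⟨φ (fun i => (y i : H)) ν, h1 _ (hmem y) ν⟩) (fun y y' => by
      apply Subtype.ext
      exact h3 (fun i => (y i : H)) (fun i => (y' i : H)) (hmem y) (hmem y') ν)
  have hΨ : ∀ ν y, ((Ψ ν y : S.C) : H) = φ (fun i => (y i : H)) ν := fun ν y => rfl
  let P : (ι → Multiplicative (Fin k → Q → ZMod p)) → S.C := fun w => ∏ l, Ψ (w l) (Y l)
  obtain ⟨L, cc, hL⟩ := hHJ (fun w g => y ((P w : H) * (g : H)))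
  obtain ⟨l0, hl0⟩ := L.proper
  set W : Finset ι := Finset.univ.filter (fun l => L.idxFun l = none) with hW
  have hl0W : l0 ∈ W := by rw [hW, Finset.mem_filter]; exact ⟨Finset.mem_univ _, hl0⟩
  let D : Fin k → Cp := ∏ l ∈ W, Y l
  let c0 : S.C := ∏ l ∈ Finset.univ.filter (fun l => ¬ L.idxFun l = none),
    Ψ ((L.idxFun l).getD 1) (Y l)
  have hP : ∀ ν, P (L ν) = c0 * Ψ ν D := by
    intro ν
    show ∏ l, Ψ (L ν l) (Y l) = _
    rw [← Finset.prod_filter_mul_prod_filter_not Finset.univ (fun l => L.idxFun l = none)]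
    rw [mul_comm]
    congr 1
    · refine Finset.prod_congr rfl fun l hl => ?_
      rw [Finset.mem_filter] at hl
      obtain ⟨x, hx⟩ := Option.ne_none_iff_exists'.1 hl.2
      have h5 : L ν l = (L.idxFun l).getD ν := rfl
      rw [h5, hx]
      rfl
    · rw [map_prod]
      refine Finset.prod_congr rfl fun l hl => ?_
      rw [Finset.mem_filter] at hl
      have h5 : L ν l = (L.idxFun l).getD ν := rfl
      rw [h5, hl.2]
      rfl
  refine ⟨fun i => (D i : H), hmem D, ?_, (c0 : H), c0.2, ?_⟩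
  · -- independence
    intro μ μ' hμ
    have hD : LinearIndependent (ZMod p) (fun i => (Additive.ofMul (D i) : Additive Cp)) := by
      rw [Fintype.linearIndependent_iff]
      intro a ha i
      have hDi : ∀ i, (Additive.ofMul (D i) : Additive Cp) = ∑ l ∈ W, v (l, i) := by
        intro i
        show Additive.ofMul ((∏ l ∈ W, Y l) i) = _
        rw [Finset.prod_apply, ofMul_prod]
        rfl
      have h6 : ∑ x : ι × Fin k, (if x.1 ∈ W then a x.2 else 0) • v x = 0 := by
        rw [← ha, Fintype.sum_prod_type_right]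
        refine Finset.sum_congr rfl fun i _ => ?_
        rw [hDi i, Finset.smul_sum]
        simp only [ite_smul, zero_smul]
        rw [← Finset.sum_filter]
        refine Finset.sum_congr ?_ fun _ _ => rfl
        ext l
        simp
      have h7 := Fintype.linearIndependent_iff.1 hv _ h6 (l0, i)
      simpa [hl0W] using h7
    have hprod : ∀ ρ : Fin k → Fin p, (List.ofFn fun i => ((D i : H)) ^ (ρ i : ℕ)).prod =
        ((∏ i, (D i) ^ (ρ i : ℕ) : Cp) : H) := by
      intro ρ
      rw [← List.prod_ofFn]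
      have h8 := map_list_prod Cp.subtype (List.ofFn fun i => (D i) ^ (ρ i : ℕ))
      rw [List.map_ofFn] at h8
      exact h8.symm
    rw [hprod μ, hprod μ'] at hμ
    have h9 := Subtype.ext hμ
    have h10 : ∑ i, ((μ i : ℕ) : ZMod p) • (Additive.ofMul (D i) : Additive Cp) =
        ∑ i, ((μ' i : ℕ) : ZMod p) • (Additive.ofMul (D i) : Additive Cp) := by
      simp only [Nat.cast_smul_eq_nsmul, ← ofMul_pow]
      rw [← ofMul_prod, ← ofMul_prod]
      exact congrArg Additive.ofMul h9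
    have h11 : ∑ i, (((μ i : ℕ) : ZMod p) - ((μ' i : ℕ) : ZMod p)) •
        (Additive.ofMul (D i) : Additive Cp) = 0 := by
      simp only [sub_smul, Finset.sum_sub_distrib]
      rw [h10, sub_self]
    funext i
    have h12 := Fintype.linearIndependent_iff.1 hD _ h11 i
    have h13 : ((μ i : ℕ) : ZMod p) = ((μ' i : ℕ) : ZMod p) := sub_eq_zero.1 h12
    rw [ZMod.natCast_eq_natCast_iff', Nat.mod_eq_of_lt (μ i).2, Nat.mod_eq_of_lt (μ' i).2] at h13
    exact Fin.ext h13
  · intro g hg ν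
    have h14 : ∀ ν, y ((P (L ν) : H) * g) = cc ⟨g, hg⟩ := fun ν => congrFun (hL ν) ⟨g, hg⟩
    have h15 : ∀ ν, ((c0 * Ψ ν D : S.C) : H) = (c0 : H) * φ (fun i => (D i : H)) ν :=
      fun ν => rfl
    have h16 := h14 ν
    rw [hP ν, h15 ν] at h16
    have h17 := h14 1
    rw [hP 1, h15 1, map_one, mul_one] at h17
    rw [h16, h17]

end Pool.Agent.AP
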