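import Pool.Agent.AP.Build
import Pool.Agent.AP.CorePOne
import Pool.Agent.AP.CorePTwo
import Pool.Agent.AP.CaseP
import Pool.Agent.AO.CoreP

/-!
# The case of bounded exponent (module AP-CoreP)
-/

set_option autoImplicit false

universe u

namespace Pool.Agent.AP

open Filter

open Pool.Agent.AO (UP starSub cst exists_of_eventually_exists exists_prime_infinite corePHom)

/-- conjugation (left multiplication) by `b ∈ B` permutes the cosets `(t q) C` -/
private theorem CoreP_perm {H : Type*} [Group H] {K Q : Type*} [Fintype K] [Fintype Q]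
    (S : Pre H K Q) {b : H} (hb : b ∈ S.B) :
    ∃ π : Q ≃ Q, ∀ r, (S.t (π r))⁻¹ * (b * S.t r) ∈ S.C := by
  have h : ∀ r, ∃ q, (S.t q)⁻¹ * (b * S.t r) ∈ S.C := fun r =>
    (S.hT (b * S.t r) (mul_mem hb (S.tB r))).exists
  choose f hf using h
  have hinj : Function.Injective f := by
    intro r r' hrr
    have h1 := hf r
    have h2 := hf r'
    rw [← hrr] at h2
    have h3 : (S.t r')⁻¹ * S.t r ∈ S.C := by
      have h4 := mul_mem (inv_mem h2) h1
      have h5 : ((S.t (f r))⁻¹ * (b * S.t r'))⁻¹ * ((S.t (f r))⁻¹ * (b * S.t r))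
          = (S.t r')⁻¹ * S.t r := by group
      rwa [h5] at h4
    have h4 : (S.t r)⁻¹ * S.t r ∈ S.C := by
      rw [inv_mul_cancel]; exact one_mem _
    exact (S.hT (S.t r) (S.tB r)).unique h4 h3
  exact ⟨Equiv.ofBijective f (Finite.injective_iff_bijective.1 hinj), hf⟩

/-- PROOF. Follow `AO.no_bounded_exponent` (`Pool/Agent/AO/CoreP.lean`; `corePHom` and `coreP_perm` are
there, the latter has to be copied for the present `Pre`). Let `x0` be a minimal type
(`exists_minType`, `Pre.finite_lab`); use `hjP` for the colouring `x0`. `win F` = the set of all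
`c0 F * φ (d F) ν * u`, `u ∈ F`, `ν` in the finite group. `𝔻 = Multiplicative (Fin k → Q → ZMod p) ⧸ ψ.ker`,
`f x F = φ (d F) ν` for a representative `ν` of `x` (`Quotient.out`). `exists_core` gives the `Core`, and
`caseP` the contradiction (`k = |Q| + 1`). -/
theorem no_bounded_exponent {H : Type u} [Group H] {K Q : Type*} [Fintype K] [Fintype Q]
    (S : Pre H K Q) (hSG : S.G = ⊤) (hinf : (S.C : Set H).Infinite) {n : ℕ} (hn : 0 < n)
    (hexp : ∀ c ∈ S.C, c ^ n = 1) : False := by
  classical
  obtain ⟨p, hp, hpinf⟩ := exists_prime_infinite S.C S.cC hinf hn hexp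
  have : Fact p.Prime := ⟨hp⟩
  have hfl : Finite (Lab S.A0 S.C) := S.finite_lab
  obtain ⟨x0, hx0⟩ := exists_minType (A₀ := S.A0) (C := S.C)
  obtain ⟨φ, h1, h2, h3, h4⟩ := exists_phi S p (Fintype.card Q + 1) hp
  have hj := hjP S (Fintype.card Q + 1) hp hpinf x0 φ h1 h3
  choose d hd hind c0 hc0 hcol using hj
  let 𝒰 : Ultrafilter (Finset H) := Ultrafilter.of Filter.atTop
  have hU : (𝒰 : Filter (Finset H)) ≤ Filter.atTop := Ultrafilter.of_le _
  let ψ : Multiplicative (Fin (Fintype.card Q + 1) → Q → ZMod p) →* UP 𝒰 H :=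
    corePHom 𝒰 fun F => φ (d F)
  have hψ : ∀ ν, ψ ν = ((fun F => φ (d F) ν : Finset H → H) : (𝒰 : Filter (Finset H)).Germ H) :=
    fun ν => rfl
  have hfin : Finite (Multiplicative (Fin (Fintype.card Q + 1) → Q → ZMod p)) :=
    inferInstanceAs (Finite (Fin (Fintype.card Q + 1) → Q → ZMod p))
  have hfinD : Finite (Multiplicative (Fin (Fintype.card Q + 1) → Q → ZMod p) ⧸ ψ.ker) :=
    inferInstance
  -- the generators
  have hgen : ∀ i : Fin (Fintype.card Q + 1),
      ∃ ν, ∀ᶠ F in (𝒰 : Filter (Finset H)), φ (d F) ν = d F i := fun i =>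
    exists_of_eventually_exists 𝒰 (Eventually.of_forall fun F => h4 (d F) (hd F) i)
  choose ν hν using hgen
  have hν' : ∀ᶠ F in (𝒰 : Filter (Finset H)), ∀ i, φ (d F) (ν i) = d F i :=
    eventually_all.2 hν
  -- the elements `e μ`
  let e : (Fin (Fintype.card Q + 1) → Fin p) →
      Multiplicative (Fin (Fintype.card Q + 1) → Q → ZMod p) :=
    fun μ => (List.ofFn fun i => ν i ^ (μ i : ℕ)).prod
  have he : ∀ μ F, (∀ i, φ (d F) (ν i) = d F i) →
      φ (d F) (e μ) = (List.ofFn fun i => d F i ^ (μ i : ℕ)).prod := by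
    intro μ F hF
    change φ (d F) (List.ofFn fun i => ν i ^ (μ i : ℕ)).prod = _
    rw [map_list_prod, List.map_ofFn]
    congr 2
    funext i
    change φ (d F) (ν i ^ (μ i : ℕ)) = _
    rw [map_pow, hF i]
  have hinj : Function.Injective fun μ =>
      (QuotientGroup.mk (e μ) : Multiplicative (Fin (Fintype.card Q + 1) → Q → ZMod p) ⧸ ψ.ker) := by
    intro μ μ' hμ
    have h5 : ψ (e μ) = ψ (e μ') := by
      have := congrArg (QuotientGroup.kerLift ψ) hμ
      simpa using this
    rw [hψ, hψ] at h5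
    have h6 := Germ.coe_eq.1 h5
    obtain ⟨F, hF1, hF2⟩ := (h6.and hν').exists
    apply hind F
    rw [← he μ F hF2, ← he μ' F hF2]
    exact hF1
  have hcard : p ^ Fintype.card Q
      < Nat.card (Multiplicative (Fin (Fintype.card Q + 1) → Q → ZMod p) ⧸ ψ.ker) := by
    have h5 := Nat.card_le_card_of_injective _ hinj
    rw [Nat.card_fun, Nat.card_eq_fintype_card, Nat.card_eq_fintype_card, Fintype.card_fin,
      Fintype.card_fin] at h5
    exact lt_of_lt_of_le (Nat.pow_lt_pow_right hp.one_lt (Nat.lt_succ_self _)) h5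
  have hexpD : ∀ x : Multiplicative (Fin (Fintype.card Q + 1) → Q → ZMod p) ⧸ ψ.ker,
      x ^ p = 1 := by
    intro x
    obtain ⟨y, rfl⟩ := QuotientGroup.mk_surjective x
    have h5 : y ^ p = 1 := by
      apply Multiplicative.toAdd.injective
      rw [toAdd_pow, toAdd_one]
      funext i r
      simp
    rw [← QuotientGroup.mk_pow, h5]
    rfl
  have hnt : ∃ x : Multiplicative (Fin (Fintype.card Q + 1) → Q → ZMod p) ⧸ ψ.ker, x ≠ 1 := by
    have h5 : 1 < Nat.card (Multiplicative (Fin (Fintype.card Q + 1) → Q → ZMod p) ⧸ ψ.ker) :=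
      lt_of_le_of_lt (Nat.one_le_pow _ _ hp.pos) hcard
    have := Finite.one_lt_card_iff_nontrivial.1 h5
    exact exists_ne 1
  -- the representatives and the windows
  let f : Multiplicative (Fin (Fintype.card Q + 1) → Q → ZMod p) ⧸ ψ.ker → Finset H → H :=
    fun x F => φ (d F) (Quotient.out x)
  let _ : Fintype (Multiplicative (Fin (Fintype.card Q + 1) → Q → ZMod p)) := Fintype.ofFinite _
  let win : Finset H → Finset H := fun F =>
    (Finset.univ ×ˢ F).image fun z : Multiplicative (Fin (Fintype.card Q + 1) → Q → ZMod p) × H =>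
      c0 F * φ (d F) z.1 * z.2
  have hmem : ∀ u : H, ∀ᶠ F in (𝒰 : Filter (Finset H)), u ∈ F := by
    intro u
    apply hU
    filter_upwards [Filter.eventually_ge_atTop ({u} : Finset H)] with F hF
    exact hF (Finset.mem_singleton_self u)
  have hcore := exists_core S hSG hx0 𝒰 (QuotientGroup.kerLift ψ)
    (QuotientGroup.kerLift_injective ψ)
    (by
      intro x
      obtain ⟨y, rfl⟩ := QuotientGroup.mk_surjective x
      rw [QuotientGroup.kerLift_mk, hψ]
      exact Eventually.of_forall fun F => h1 (d F) (hd F) y)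
    (by
      intro b hb x
      obtain ⟨y, rfl⟩ := QuotientGroup.mk_surjective x
      induction b using Germ.inductionOn with | _ f
      have hb' : ∀ᶠ F in (𝒰 : Filter (Finset H)), f F ∈ S.B := hb
      obtain ⟨π, hπ⟩ := exists_of_eventually_exists 𝒰
        (P := fun F (π : Q ≃ Q) => ∀ r, (S.t (π r))⁻¹ * (f F * S.t r) ∈ S.C)
        (hb'.mono fun F hF => CoreP_perm S hF)
      refine ⟨QuotientGroup.mk (Multiplicative.ofAdd fun i r =>
        Multiplicative.toAdd y i (π.symm r)), ?_⟩
      rw [QuotientGroup.kerLift_mk, QuotientGroup.kerLift_mk, hψ, hψ]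
      refine Germ.coe_eq.2 ?_
      filter_upwards [hb', hπ] with F hF1 hF2
      exact h2 (d F) (hd F) (f F) hF1 π hF2 (Multiplicative.toAdd y))
    hnt c0 hc0 f
    (by
      intro x
      have h5 : QuotientGroup.kerLift ψ x = ψ (Quotient.out x) := by
        conv_lhs => rw [← QuotientGroup.out_eq' x]
        exact QuotientGroup.kerLift_mk ψ _
      rw [h5, hψ])
    win
    (by
      intro x u
      filter_upwards [hmem u] with F hF
      exact Finset.mem_image.2 ⟨(Quotient.out x, u),
        Finset.mem_product.2 ⟨Finset.mem_univ _, hF⟩, rfl⟩)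
    (by
      intro x u
      filter_upwards [hmem u] with F hF
      exact hcol F u hF (Quotient.out x))
  obtain ⟨T⟩ := hcore
  exact caseP T p hp hexpD hcard

end Pool.Agent.AP
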