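import Pool.Agent.AP.Zc

/-!
# The subgroup of finite index and the input of the final stage (module AP-GZero)

Author of the proofs: helper11.
-/

set_option autoImplicit false

namespace Pool.Agent.AP

namespace Core

variable {H : Type*} [Group H] {𝔻 : Type*} [CommGroup 𝔻] {K Q : Type*} [Fintype K] [Fintype Q]
variable (S : Core H 𝔻 K Q)

/-- `G1 = {g ∈ G | δ_g(d) ∈ Zc for all d}`.
PROOF of the subgroup axioms: `δ_{gh}(d) = g δ_h(d) g⁻¹ · δ_g(d)`, `δ_{g⁻¹}(d) = (g⁻¹ δ_g(d) g)⁻¹`, and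
`G_norm_Zc`. -/
def G1 : Subgroup H where
  carrier := {g | g ∈ S.G ∧ ∀ d, S.delta g d ∈ S.Zc}
  mul_mem' := by
    rintro g h ⟨hg, hg'⟩ ⟨hh, hh'⟩
    refine ⟨S.G.mul_mem hg hh, fun d => ?_⟩
    have h1 : S.delta (g * h) d = g * S.delta h d * g⁻¹ * S.delta g d := by
      unfold delta; group
    rw [h1]
    exact S.Zc.mul_mem (S.G_norm_Zc g hg _ (hh' d)) (hg' d)
  one_mem' := by
    refine ⟨S.G.one_mem, fun d => ?_⟩
    have h1 : S.delta 1 d = 1 := by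
      unfold delta; group
    rw [h1]
    exact S.Zc.one_mem
  inv_mem' := by
    rintro g ⟨hg, hg'⟩
    refine ⟨S.G.inv_mem hg, fun d => ?_⟩
    have h1 : S.delta g⁻¹ d = (g⁻¹ * S.delta g d * (g⁻¹)⁻¹)⁻¹ := by
      unfold delta; group
    rw [h1]
    exact S.Zc.inv_mem (S.G_norm_Zc _ (S.G.inv_mem hg) _ (hg' d))

theorem mem_G1 (g : H) : g ∈ S.G1 ↔ g ∈ S.G ∧ ∀ d, S.delta g d ∈ S.Zc := Iff.rfl

/-- PROOF. `U ⊆ G1` by `W_le_Zc`, `relIndex_of_U`. -/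
theorem G1_relIndex (htf : ∀ (d : 𝔻) (n : ℕ), n ≠ 0 → d ^ n = 1 → d = 1) :
    S.G1.relIndex S.G ≠ 0 := by
  refine S.relIndex_of_U S.G1 (fun g hg => hg.1) ?_
  intro u hu
  exact ⟨hu.1, fun d => S.W_le_Zc htf (S.delta_mem_W hu d)⟩

/-- `B ∩ G` normalises `G1`.
PROOF. `δ_{b g b⁻¹}(d) = b g b⁻¹ d b g⁻¹ b⁻¹ d⁻¹ = b (δ_g(d')) b⁻¹` where `j d' = b⁻¹ d b` (`jB`);
`G_norm_Zc`. -/
theorem B_norm_G1 : ∀ b ∈ S.B, b ∈ S.G → ∀ g ∈ S.G1, b * g * b⁻¹ ∈ S.G1 := by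
  intro b hb hbG g hg
  refine ⟨S.G.mul_mem (S.G.mul_mem hbG hg.1) (S.G.inv_mem hbG), fun d => ?_⟩
  obtain ⟨d', hd'⟩ := S.jB b⁻¹ (S.B.inv_mem hb) d
  have h1 : S.delta (b * g * b⁻¹) d = b * S.delta g d' * b⁻¹ := by
    unfold delta
    rw [← hd']
    group
  rw [h1]
  exact S.G_norm_Zc b hbG _ (hg.2 d')

/-- `V0` is generated by all `δ_g(d)`, `g ∈ G1`. -/
def V0 : Subgroup H := Subgroup.closure {x | ∃ g ∈ S.G1, ∃ d : 𝔻, x = S.delta g d}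

theorem V0_le_Zc : S.V0 ≤ S.Zc := by
  unfold V0
  rw [Subgroup.closure_le]
  rintro x ⟨g, hg, d, rfl⟩
  exact hg.2 d

/-- The group `G⁺ = G1 (B ∩ G)`: `x ∈ G⁺` iff `x = g b` with `g ∈ G1`, `b ∈ B ∩ G`. -/
def Gp : Subgroup H where
  carrier := {x | ∃ g ∈ S.G1, ∃ b ∈ S.B, b ∈ S.G ∧ x = g * b}
  mul_mem' := by
    rintro x y ⟨g, hg, b, hb, hbG, rfl⟩ ⟨g', hg', b', hb', hbG', rfl⟩
    refine ⟨g * (b * g' * b⁻¹), S.G1.mul_mem hg (S.B_norm_G1 b hb hbG g' hg'), b * b',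
      S.B.mul_mem hb hb', S.G.mul_mem hbG hbG', ?_⟩
    group
  one_mem' := ⟨1, S.G1.one_mem, 1, S.B.one_mem, S.G.one_mem, (mul_one 1).symm⟩
  inv_mem' := by
    rintro x ⟨g, hg, b, hb, hbG, rfl⟩
    refine ⟨b⁻¹ * g⁻¹ * (b⁻¹)⁻¹,
      S.B_norm_G1 b⁻¹ (S.B.inv_mem hb) (S.G.inv_mem hbG) _ (S.G1.inv_mem hg), b⁻¹,
      S.B.inv_mem hb, S.G.inv_mem hbG, ?_⟩
    group

theorem Gp_le : S.Gp ≤ S.G := by
  rintro x ⟨g, hg, b, hb, hbG, rfl⟩
  exact S.G.mul_mem hg.1 hbG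

private theorem GZero_B_le {b : H} (hb : b ∈ S.B) (hbG : b ∈ S.G) : b ∈ S.Gp :=
  ⟨1, S.G1.one_mem, b, hb, hbG, (one_mul b).symm⟩

theorem G1_le_Gp : S.G1 ≤ S.Gp := by
  intro g hg
  exact ⟨g, hg, 1, S.B.one_mem, S.G.one_mem, (mul_one g).symm⟩

/-- PROOF. `G1 ≤ Gp ≤ G` and `G1_relIndex`. -/
theorem Gp_relIndex (htf : ∀ (d : 𝔻) (n : ℕ), n ≠ 0 → d ^ n = 1 → d = 1) :
    S.Gp.relIndex S.G ≠ 0 := by
  intro h
  have h1 := Subgroup.relIndex_dvd_of_le_left (L := S.G) S.G1_le_Gp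
  rw [h] at h1
  exact S.G1_relIndex htf (Nat.eq_zero_of_zero_dvd h1)

private theorem GZero_delta_mem {g : H} (hg : g ∈ S.G1) (d : 𝔻) : S.delta g d ∈ S.V0 :=
  Subgroup.subset_closure ⟨g, hg, d, rfl⟩

private theorem GZero_norm {g : H}
    (h : ∀ k ∈ S.G1, ∀ d, g * S.delta k d * g⁻¹ ∈ S.V0) : ∀ x ∈ S.V0, g * x * g⁻¹ ∈ S.V0 := by
  have h1 : S.V0 ≤ S.V0.comap (MulAut.conj g).toMonoidHom := by
    conv_lhs => unfold V0
    rw [Subgroup.closure_le]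
    rintro x ⟨k, hk, d, rfl⟩
    exact h k hk d
  intro x hx
  exact h1 hx

/-- PROOF. Let `h ∈ G1`: `h δ_g(d) h⁻¹ = δ_{hg}(d) δ_h(d)⁻¹ ∈ V0`. Let `b ∈ B ∩ G`:
`b δ_g(d) b⁻¹ = δ_{b g b⁻¹}(d')` with `j d' = b d b⁻¹` and `b g b⁻¹ ∈ G1` (`B_norm_G1`). Closure
induction. -/
theorem Gp_norm_V0 : ∀ g ∈ S.Gp, ∀ x ∈ S.V0, g * x * g⁻¹ ∈ S.V0 := by
  rintro y ⟨h, hh, b, hb, hbG, rfl⟩ x hx
  have h1 : ∀ x ∈ S.V0, b * x * b⁻¹ ∈ S.V0 := by
    apply S.GZero_norm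
    intro k hk d
    obtain ⟨d', hd'⟩ := S.jB b hb d
    have h2 : b * S.delta k d * b⁻¹ = S.delta (b * k * b⁻¹) d' := by
      unfold delta
      rw [← hd']
      group
    rw [h2]
    exact S.GZero_delta_mem (S.B_norm_G1 b hb hbG k hk) d'
  have h2 : ∀ x ∈ S.V0, h * x * h⁻¹ ∈ S.V0 := by
    apply S.GZero_norm
    intro k hk d
    have h3 : h * S.delta k d * h⁻¹ = S.delta (h * k) d * (S.delta h d)⁻¹ := by
      unfold delta
      group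
    rw [h3]
    exact S.V0.mul_mem (S.GZero_delta_mem (S.G1.mul_mem hh hk) d)
      (S.V0.inv_mem (S.GZero_delta_mem hh d))
  have h3 : h * b * x * (h * b)⁻¹ = h * (b * x * b⁻¹) * h⁻¹ := by group
  rw [h3]
  exact h2 _ (h1 x hx)

/-- PROOF. `d δ_g(f) d⁻¹ = δ_g(d)⁻¹ δ_g(d f)`. -/
theorem D_norm_V0 (d : 𝔻) : ∀ x ∈ S.V0, S.j d * x * (S.j d)⁻¹ ∈ S.V0 := by
  apply S.GZero_norm
  intro k hk f
  have h1 : S.j d * S.delta k f * (S.j d)⁻¹ = (S.delta k d)⁻¹ * S.delta k (d * f) := by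
    unfold delta
    rw [map_mul]
    group
  rw [h1]
  exact S.V0.mul_mem (S.V0.inv_mem (S.GZero_delta_mem hk d)) (S.GZero_delta_mem hk (d * f))

private theorem GZero_norm_Gam : ∀ g ∈ S.Gp, ∀ x ∈ S.V0 ⊔ S.j.range,
    g * x * g⁻¹ ∈ S.V0 ⊔ S.j.range := by
  intro g hg
  have h1 : S.V0 ⊔ S.j.range ≤ (S.V0 ⊔ S.j.range).comap (MulAut.conj g).toMonoidHom := by
    rw [sup_le_iff]
    constructor
    · intro x hx
      rw [Subgroup.mem_comap]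
      exact Subgroup.mem_sup_left (S.Gp_norm_V0 g hg x hx)
    · rintro x ⟨d, rfl⟩
      rw [Subgroup.mem_comap]
      show g * S.j d * g⁻¹ ∈ _
      obtain ⟨k, hk, b, hb, hbG, rfl⟩ := hg
      obtain ⟨d', hd'⟩ := S.jB b hb d
      have h2 : k * b * S.j d * (k * b)⁻¹ = S.delta k d' * S.j d' := by
        unfold delta
        rw [← hd']
        group
      rw [h2]
      exact Subgroup.mul_mem _ (Subgroup.mem_sup_left (S.GZero_delta_mem hk d'))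
        (Subgroup.mem_sup_right ⟨d', rfl⟩)
  intro x hx
  exact h1 hx

private theorem GZero_commute {z : H} (h1 : ∀ v ∈ S.V0, Commute z v)
    (h2 : ∀ d, Commute z (S.j d)) : ∀ x ∈ S.V0 ⊔ S.j.range, Commute z x := by
  have h3 : S.V0 ⊔ S.j.range ≤ Subgroup.centralizer {z} := by
    rw [sup_le_iff]
    constructor
    · intro x hx
      rw [Subgroup.mem_centralizer_singleton_iff]
      exact (h1 x hx).eq.symm
    · rintro x ⟨d, rfl⟩
      rw [Subgroup.mem_centralizer_singleton_iff]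
      exact (h2 d).eq.symm
  intro x hx
  have h4 := h3 hx
  rw [Subgroup.mem_centralizer_singleton_iff] at h4
  exact h4.symm

include S in
/-- The input of the final stage.
PROOF. `G := Gp`, `V := V0`, `G1 := G1`, the other groups and data are those of `S`.
`hG`: for `x = g b ∈ Gp`, `g ∈ G1`, write `x = a b'` with `a ∈ A ∩ G`, `b' ∈ B ∩ G` (`S.hG`); `b' ∈ Gp`
(`b' = 1 * b'`), so `a = x b'⁻¹ ∈ Gp`. `tG`: `t q = 1 * t q`. `mem_G1`: if `g ∈ Gp` and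
`δ_g(d) ∈ V0 ≤ Zc` for all `d` then `g ∈ G1`; conversely by definition of `V0`.
`G1_normal`: for `x = g b`: `B_norm_G1`. `G_G1`: `x = g b` gives `x b⁻¹ ∈ G1`.
`V_inf_C`: let `Γ = V0 ⊔ range j`; `v ∈ V0 ∩ C` commutes with `V0` (`Zc_comm`, `V0_le_Zc`) and
with `j(𝔻)`, so `v = 1` by `cent_inf_C` for `Γ`, `L = Gp`: `Γ` is normalised by `Gp`: for
`x = g b`, `x d x⁻¹ = g d' g⁻¹ = δ_g(d') d' ∈ Γ`. `cent`: `cent_finite` for the same `Γ`.
`N0 = |K| |Q|`; `fix_small`: `Pre.small_of_CB` for `Y = V0 ⊓ CB (j d)`. `one_of_comm`: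
`Pre.one_of_comm`. `exA`: `infA_of` for `L = G1` (finite index) gives `a ≠ 1` in `A0 ∩ G1`.
`ntC`: `S.ntC`, `c ∈ C ∩ G ≤ B ∩ G ≤ Gp`. `abN`, `finN`: from `S.abN`, `S.finN` with `L = Gp`. -/
theorem exists_FS (htf : ∀ (d : 𝔻) (n : ℕ), n ≠ 0 → d ^ n = 1 → d = 1) :
    Nonempty (FS H 𝔻 K Q) := by
  have hGp := S.Gp_relIndex htf
  have htG : ∀ q, S.t q ∈ S.Gp := fun q => S.GZero_B_le (S.tB q) (S.tG q)
  have hVC : ∀ v ∈ S.V0, v ∈ S.C → v = 1 := by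
    intro v hv hvC
    refine S.cent_inf_C (S.V0 ⊔ S.j.range) S.Gp S.Gp_le hGp htG
      (fun d => Subgroup.mem_sup_right ⟨d, rfl⟩) S.GZero_norm_Gam hvC ?_
    exact S.GZero_commute (fun w hw => S.Zc_comm v (S.V0_le_Zc hv) w (S.V0_le_Zc hw))
      (fun d => S.cC v hvC _ (S.jC d))
  have hcent : {z : H | (∀ v ∈ S.V0, Commute z v) ∧ ∀ d, Commute z (S.j d)}.Finite := by
    refine (S.cent_finite (S.V0 ⊔ S.j.range) S.Gp S.Gp_le hGp htG
      (fun d => Subgroup.mem_sup_right ⟨d, rfl⟩) S.GZero_norm_Gam).subset ?_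
    rintro z ⟨h1, h2⟩
    exact S.GZero_commute h1 h2
  have hfix : ∀ d : 𝔻, d ≠ 1 →
      {v : H | v ∈ S.V0 ∧ ∀ q, Commute v (S.t q * S.j d * (S.t q)⁻¹)}.Finite ∧
      {v : H | v ∈ S.V0 ∧ ∀ q, Commute v (S.t q * S.j d * (S.t q)⁻¹)}.ncard ≤
        Fintype.card K * Fintype.card Q := by
    intro d hd
    have h0 : {v : H | v ∈ S.V0 ∧ ∀ q, Commute v (S.t q * S.j d * (S.t q)⁻¹)} =
        ((S.V0 ⊓ S.toPre.CB (S.j d) : Subgroup H) : Set H) := by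
      ext v
      constructor
      · rintro ⟨h1, h2⟩
        refine ⟨h1, ?_⟩
        show v ∈ S.toPre.CB (S.j d)
        unfold Pre.CB
        rw [Subgroup.mem_centralizer_iff]
        rintro y ⟨q, rfl⟩
        exact (h2 q).eq.symm
      · rintro ⟨h1, h2⟩
        refine ⟨h1, fun q => ?_⟩
        have h3 : v ∈ S.toPre.CB (S.j d) := h2
        unfold Pre.CB at h3
        rw [Subgroup.mem_centralizer_iff] at h3
        exact (h3 _ ⟨q, rfl⟩).symm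
    rw [h0]
    refine S.toPre.small_of_CB (S.jC d) ?_ _ inf_le_right ?_
    · intro h1
      apply hd
      apply S.jinj
      rw [h1, map_one]
    · intro y hy hyC
      exact hVC y hy.1 hyC
  obtain ⟨c, hcC, hcG, hc1⟩ := S.ntC
  obtain ⟨a, ⟨ha0, ha1⟩, hane⟩ : ∃ a ∈ ((S.A0 ⊓ S.G1 : Subgroup H) : Set H), a ≠ 1 := by
    have h1 := S.toPre.infA_of (L := S.G1) (fun g hg => hg.1) (S.G1_relIndex htf)
    obtain ⟨a, ha, ha'⟩ := (h1.sdiff (Set.finite_singleton (1 : H))).nonempty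
    exact ⟨a, ha, fun h => ha' (by rw [h]; exact rfl)⟩
  exact ⟨{
    A := S.A
    A0 := S.A0
    B := S.B
    C := S.C
    G := S.Gp
    hAA := S.hAA
    cen := S.cen
    cC := S.cC
    hCB := S.hCB
    nC := S.nC
    hAB := S.hAB
    hG := by
      intro g hg
      obtain ⟨a, ha, b, hb, haG, hbG, h⟩ := S.hG g (S.Gp_le hg)
      have hb' : b ∈ S.Gp := S.GZero_B_le hb hbG
      refine ⟨a, ha, b, hb, ?_, hb', h⟩
      have h1 : a = g * b⁻¹ := by rw [h]; group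
      rw [h1]
      exact S.Gp.mul_mem hg (S.Gp.inv_mem hb')
    s := S.s
    sA := S.sA
    hS := S.hS
    t := S.t
    tB := S.tB
    tG := htG
    hT := S.hT
    j := S.j
    jinj := S.jinj
    jC := S.jC
    jB := S.jB
    nt := S.nt
    V := S.V0
    V_comm := fun x hx y hy => S.Zc_comm x (S.V0_le_Zc hx) y (S.V0_le_Zc hy)
    D_norm_V := S.D_norm_V0
    V_norm := S.Gp_norm_V0
    G1 := S.G1
    mem_G1 := by
      intro g
      constructor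
      · intro hg
        exact ⟨S.G1_le_Gp hg, fun d => S.GZero_delta_mem hg d⟩
      · rintro ⟨hg, h⟩
        exact ⟨S.Gp_le hg, fun d => S.V0_le_Zc (h d)⟩
    G1_normal := by
      rintro x ⟨g, hg, b, hb, hbG, rfl⟩ h hh
      have h1 : g * b * h * (g * b)⁻¹ = g * (b * h * b⁻¹) * g⁻¹ := by group
      rw [h1]
      exact S.G1.mul_mem (S.G1.mul_mem hg (S.B_norm_G1 b hb hbG h hh)) (S.G1.inv_mem hg)
    G_G1 := by
      rintro x ⟨g, hg, b, hb, hbG, rfl⟩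
      refine ⟨b⁻¹, S.B.inv_mem hb, S.GZero_B_le (S.B.inv_mem hb) (S.G.inv_mem hbG), ?_⟩
      rw [mul_inv_cancel_right]
      exact hg
    V_gen := le_refl _
    V_inf_C := hVC
    cent := hcent
    N0 := Fintype.card K * Fintype.card Q
    fix_small := hfix
    one_of_comm := fun c hc hc1 a ha h => S.toPre.one_of_comm hc hc1 ha h
    exA := ⟨a, ha0, ha1, hane⟩
    ntC := ⟨c, hcC, S.GZero_B_le (S.hCB hcC) hcG, hc1⟩
    abN := fun N hN hn hab => S.abN S.Gp S.Gp_le hGp N hN hn hab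
    finN := fun N hN hn hf => S.finN S.Gp S.Gp_le hGp N hN hn hf }⟩

end Core

end Pool.Agent.AP
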