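import Pool.Agent.AP.Build
import Pool.Agent.AP.CoreTOne
import Pool.Agent.AP.GZero
import Pool.Agent.AP.TFive

/-!
# The case of an element of infinite order in `C` (module AP-CoreT)
-/

set_option autoImplicit false

universe u

namespace Pool.Agent.AP

open Filter

open Pool.Agent.AO (UP starSub cst exists_of_eventually_exists)

/-- PROOF. Follow `AO.no_infinite_order` (`Pool/Agent/AO/CoreT.lean`). Let `Y` be as in
`exists_torsionFree` (with the `CommGroup` structure from `cC`), `x0` a minimal type (`exists_minType`,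
`Pre.finite_lab`). `I = Finset H × Finset H`, `𝒰 ≤ atTop`; for `i = (E, F)` let `m i`, `c0 i` be as in
`hjT` for the colouring `x0` and the sets `E.filter (· ∈ S.C)`, `F`. `φ : Y →* UP 𝒰 H`,
`φ z` = the germ of `f z i = z ^ (m i)`. `win i` = the set of all `c0 i * s ^ (m i) * u`, `s ∈ E`,
`u ∈ F`. `hwin`, `hK`: for `i ≥ ({z}, {u})`. `exists_core` gives a `Core (UP 𝒰 H) Y K Q`,
`Core.exists_FS` a `FS (UP 𝒰 H) Y K Q` and `final` the contradiction. -/
theorem no_infinite_order {H : Type u} [Group H] {K Q : Type*} [Fintype K] [Fintype Q]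
    (S : Pre H K Q) (hSG : S.G = ⊤) {y : H} (hy : y ∈ S.C) (hy1 : ∀ m : ℕ, 0 < m → y ^ m ≠ 1) :
    False := by
  classical
  obtain ⟨Y, hYC, hYB, hYFG, hYtf, z0, hz0Y, hz0⟩ := exists_torsionFree S hy hy1
  have hYcomm : ∀ x y : Y, x * y = y * x := fun x y =>
    Subtype.ext (S.cC x.1 (hYC x.2) y.1 (hYC y.2))
  let _ : CommGroup Y := { (inferInstance : Group Y) with mul_comm := hYcomm }
  have hgrp : Group.FG Y := (Group.fg_iff_subgroup_fg Y).2 hYFG
  haveI : Finite (Lab S.A0 S.C) := S.finite_lab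
  obtain ⟨x0, hx0⟩ := exists_minType (A₀ := S.A0) (C := S.C)
  let 𝒰 : Ultrafilter (Finset H × Finset H) := Ultrafilter.of atTop
  have h𝒰 : (𝒰 : Filter (Finset H × Finset H)) ≤ atTop := Ultrafilter.of_le atTop
  choose m hm c0 hc0 hg using fun i : Finset H × Finset H =>
    hjT S x0 (i.1.filter (· ∈ S.C)) i.2 (fun s hs => (Finset.mem_filter.1 hs).2)
  -- the embedding
  let φ : Y →* UP 𝒰 H :=
    { toFun := fun z => ((fun i => (z : H) ^ m i : Finset H × Finset H → H) :
        (𝒰 : Filter (Finset H × Finset H)).Germ H)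
      map_one' := by
        refine Germ.coe_eq.2 (Eventually.of_forall fun i => ?_)
        change ((1 : Y) : H) ^ m i = 1
        rw [Subgroup.coe_one, one_pow]
      map_mul' := by
        intro z w
        refine Germ.coe_eq.2 (Eventually.of_forall fun i => ?_)
        change ((z * w : Y) : H) ^ m i = (z : H) ^ m i * (w : H) ^ m i
        rw [Subgroup.coe_mul]
        exact Commute.mul_pow (S.cC z.1 (hYC z.2) w.1 (hYC w.2)) _ }
  have hφ : ∀ z : Y, φ z = ((fun i => (z : H) ^ m i : Finset H × Finset H → H) :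
      (𝒰 : Filter (Finset H × Finset H)).Germ H) := fun _ => rfl
  have hinj : Function.Injective φ := by
    rw [injective_iff_map_eq_one]
    intro z hz
    have h1 : ∀ᶠ i in (𝒰 : Filter (Finset H × Finset H)), (z : H) ^ m i = 1 := Germ.coe_eq.1 hz
    obtain ⟨i, hi⟩ := h1.exists
    exact Subtype.ext (hYtf z.1 z.2 (m i) (hm i).ne' hi)
  have hφC : ∀ z, φ z ∈ (S.ultra 𝒰).C := fun z =>
    Eventually.of_forall fun i => S.C.pow_mem (hYC z.2) (m i)
  have hφB : ∀ b ∈ (S.ultra 𝒰).B, ∀ z, ∃ z', b * φ z * b⁻¹ = φ z' := by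
    intro b hb z
    induction b using Germ.inductionOn with | _ f
    have hf : ∀ᶠ i in (𝒰 : Filter (Finset H × Finset H)), f i ∈ S.B := hb
    obtain ⟨q, hq⟩ := AO.exists_of_eventually_exists 𝒰 (P := fun i q => (S.t q)⁻¹ * f i ∈ S.C)
      (hf.mono fun i hi => (S.hT (f i) hi).exists)
    refine ⟨⟨S.t q * z * (S.t q)⁻¹, hYB _ (S.tB q) z z.2⟩, ?_⟩
    refine Germ.coe_eq.2 ?_
    filter_upwards [hq] with i hi
    change f i * (z : H) ^ m i * (f i)⁻¹ = (S.t q * z * (S.t q)⁻¹) ^ m i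
    rw [conj_pow]
    have h1 := S.cC _ hi _ (S.C.pow_mem (hYC z.2) (m i))
    calc f i * (z : H) ^ m i * (f i)⁻¹
        = S.t q * (((S.t q)⁻¹ * f i) * (z : H) ^ m i) * (f i)⁻¹ := by group
      _ = S.t q * ((z : H) ^ m i * ((S.t q)⁻¹ * f i)) * (f i)⁻¹ := by rw [h1]
      _ = S.t q * (z : H) ^ m i * (S.t q)⁻¹ := by group
  obtain ⟨T⟩ := exists_core S hSG hx0 𝒰 φ hinj hφC hφB
    ⟨⟨z0, hz0Y⟩, fun h => hz0 (congrArg Subtype.val h)⟩ c0 hc0
    (fun z i => (z : H) ^ m i) hφ
    (fun i => (i.1 ×ˢ i.2).image fun p => c0 i * p.1 ^ m i * p.2)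
    (by
      intro d u
      refine h𝒰 ((eventually_ge_atTop (({(d : H)}, {u}) : Finset H × Finset H)).mono ?_)
      intro i hi
      exact Finset.mem_image.2 ⟨((d : H), u), Finset.mem_product.2
        ⟨hi.1 (Finset.mem_singleton_self _), hi.2 (Finset.mem_singleton_self _)⟩, rfl⟩)
    (by
      intro d u
      refine h𝒰 ((eventually_ge_atTop (({(d : H)}, {u}) : Finset H × Finset H)).mono ?_)
      intro i hi
      exact hg i u (hi.2 (Finset.mem_singleton_self _)) (d : H)
        (Finset.mem_filter.2 ⟨hi.1 (Finset.mem_singleton_self _), hYC d.2⟩))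
  have htf : ∀ (d : Y) (n : ℕ), n ≠ 0 → d ^ n = 1 → d = 1 := by
    intro d n hn hd
    have h1 : (d : H) ^ n = 1 := by
      have h2 := congrArg Subtype.val hd
      exact h2
    exact Subtype.ext (hYtf d.1 d.2 n hn h1)
  obtain ⟨F⟩ := Core.exists_FS T htf
  exact final F htf

end Pool.Agent.AP
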