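import Pool.Agent.AO.PrimeSol
import Pool.Agent.AO.Ultra

/-!
# Products of a central-by-finite and an almost abelian group (project AP, MP_00fcbb_al)

`PF` : an infinite prime group `G = A B`, `A0 ≤ Z(A)` of finite index in `A`, `C` abelian normal of
finite index in `B`. `Pre` : a factorised group `H = A B` with a small subgroup `G`. `Core` : `Pre`
with the outcome of the Hales-Jewett argument. `FS` : the input of the final stage.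
-/

set_option autoImplicit false

namespace Pool.Agent.AP

open Pool.Agent.AO (PrimeGrp VirtSol)

/-- An infinite prime group `G = A B` with `A₀ ≤ Z(A)` of finite index in `A` and `C` abelian,
normal and of finite index in `B`. -/
structure PF {G : Type*} [Group G] (A A₀ B C : Subgroup G) : Prop where
  prime : PrimeGrp G
  inf : Infinite G
  hAA : A₀ ≤ A
  cen : ∀ x ∈ A₀, ∀ y ∈ A, x * y = y * x
  finA : A₀.relIndex A ≠ 0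
  cC : ∀ x ∈ C, ∀ y ∈ C, x * y = y * x
  hCB : C ≤ B
  nC : ∀ b ∈ B, ∀ c ∈ C, b * c * b⁻¹ ∈ C
  fin : C.relIndex B ≠ 0
  hAB : ∀ g : G, ∃ a ∈ A, ∃ b ∈ B, g = a * b

/-- `H = A B`, `A0 ≤ Z(A)` with `A = ⋃ A0 (s k)`, `C` abelian and normal in `B`, `t : Q → H` a
transversal of `C` in `B` consisting of elements of the small subgroup `G`; `h3` is the fact F3 of the
paper proof. -/
structure Pre (H : Type*) [Group H] (K Q : Type*) [Fintype K] [Fintype Q] where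
  A : Subgroup H
  A0 : Subgroup H
  B : Subgroup H
  C : Subgroup H
  G : Subgroup H
  hAA : A0 ≤ A
  cen : ∀ x ∈ A0, ∀ y ∈ A, x * y = y * x
  cC : ∀ x ∈ C, ∀ y ∈ C, x * y = y * x
  hCB : C ≤ B
  nC : ∀ b ∈ B, ∀ c ∈ C, b * c * b⁻¹ ∈ C
  hAB : ∀ h : H, ∃ a ∈ A, ∃ b ∈ B, h = a * b
  hG : ∀ g ∈ G, ∃ a ∈ A, ∃ b ∈ B, a ∈ G ∧ b ∈ G ∧ g = a * b
  s : K → H
  sA : ∀ k, s k ∈ A
  hS : ∀ a ∈ A, ∃ k, a * (s k)⁻¹ ∈ A0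
  t : Q → H
  tB : ∀ q, t q ∈ B
  tG : ∀ q, t q ∈ G
  hT : ∀ b ∈ B, ∃! q, (t q)⁻¹ * b ∈ C
  h3 : ∀ c ∈ C, c ≠ 1 → ∀ a ∈ A0, (∀ q, a * (t q * c * (t q)⁻¹) * a⁻¹ ∈ C) → a = 1
  infA : ((A0 ⊓ G : Subgroup H) : Set H).Infinite
  idxC : C.relIndex G = 0
  ntC : ∃ c ∈ C, c ∈ G ∧ c ≠ 1
  abN : ∀ L : Subgroup H, L ≤ G → L.relIndex G ≠ 0 → ∀ N : Subgroup H, N ≤ L →
    (∀ g ∈ L, ∀ x ∈ N, g * x * g⁻¹ ∈ N) → (∀ x ∈ N, ∀ y ∈ N, x * y = y * x) → N = ⊥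
  finN : ∀ L : Subgroup H, L ≤ G → L.relIndex G ≠ 0 → ∀ N : Subgroup H, N ≤ L →
    (∀ g ∈ L, ∀ x ∈ N, g * x * g⁻¹ ∈ N) → (N : Set H).Finite → N = ⊥

/-- The configuration after the Hales-Jewett argument: `j : 𝔻 →* H` is an embedding of a
nontrivial abelian group into `C` with `B`-invariant image, `e ∈ B`, and for `u ∈ G` the double coset
`A0 (e u) C` does not change if `u` is replaced by `(j d) u`. The set `U` of all `u ∈ G` with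
`e u ∈ A0 e C` is syndetic in `G`. -/
structure Core (H : Type*) [Group H] (𝔻 : Type*) [CommGroup 𝔻] (K Q : Type*) [Fintype K]
    [Fintype Q] extends Pre H K Q where
  j : 𝔻 →* H
  jinj : Function.Injective j
  jC : ∀ d, j d ∈ C
  jB : ∀ b ∈ B, ∀ d, ∃ d', b * j d * b⁻¹ = j d'
  nt : ∃ d : 𝔻, d ≠ 1
  e : H
  eB : e ∈ B
  D1 : ∀ u ∈ G, ∀ d, ∃ a ∈ A0, ∃ c ∈ C, e * j d * u = a * (e * u) * c
  syn : ∃ F : Set H, F.Finite ∧ F ⊆ G ∧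
    ∀ g ∈ G, ∃ f ∈ F, ∃ a ∈ A0, ∃ c ∈ C, e * (g * f) = a * e * c

namespace Core

variable {H : Type*} [Group H] {𝔻 : Type*} [CommGroup 𝔻] {K Q : Type*} [Fintype K] [Fintype Q]
variable (S : Core H 𝔻 K Q)

/-- `delta u d = u d u⁻¹ d⁻¹` -/
def delta (u : H) (d : 𝔻) : H := u * S.j d * u⁻¹ * (S.j d)⁻¹

/-- The block `U = {u ∈ G | e u ∈ A0 e C}`. -/
def U : Set H := {u | u ∈ S.G ∧ ∃ a ∈ S.A0, ∃ c ∈ S.C, S.e * u = a * S.e * c}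

/-- The larger block `UV = {u ∈ G | e u ∈ A e C}`. -/
def UV : Set H := {u | u ∈ S.G ∧ ∃ a ∈ S.A, ∃ c ∈ S.C, S.e * u = a * S.e * c}

/-- The group generated by all `delta u d`, `u ∈ U`. -/
def W : Subgroup H := Subgroup.closure {x | ∃ u ∈ S.U, ∃ d : 𝔻, x = S.delta u d}

/-- The group generated by all `delta u d`, `u ∈ UV`. -/
def V : Subgroup H := Subgroup.closure {x | ∃ u ∈ S.UV, ∃ d : 𝔻, x = S.delta u d}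

/-- The group generated by all conjugates `g d g⁻¹`, `g ∈ G`. -/
def Gam : Subgroup H := Subgroup.closure {x | ∃ g ∈ S.G, ∃ d : 𝔻, x = g * S.j d * g⁻¹}

end Core

/-- The input of the final stage. The small group is again denoted by `G`; `G1` is the
subgroup of all `g ∈ G` with `g d g⁻¹ d⁻¹ ∈ V` for all `d`; `V` is abelian, normalised by `G`,
generated by these elements. -/
structure FS (H : Type*) [Group H] (𝔻 : Type*) [CommGroup 𝔻] (K Q : Type*) [Fintype K]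
    [Fintype Q] where
  A : Subgroup H
  A0 : Subgroup H
  B : Subgroup H
  C : Subgroup H
  G : Subgroup H
  hAA : A0 ≤ A
  cen : ∀ x ∈ A0, ∀ y ∈ A, x * y = y * x
  cC : ∀ x ∈ C, ∀ y ∈ C, x * y = y * x
  hCB : C ≤ B
  nC : ∀ b ∈ B, ∀ c ∈ C, b * c * b⁻¹ ∈ C
  hAB : ∀ h : H, ∃ a ∈ A, ∃ b ∈ B, h = a * b
  hG : ∀ g ∈ G, ∃ a ∈ A, ∃ b ∈ B, a ∈ G ∧ b ∈ G ∧ g = a * b
  s : K → H
  sA : ∀ k, s k ∈ A
  hS : ∀ a ∈ A, ∃ k, a * (s k)⁻¹ ∈ A0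
  t : Q → H
  tB : ∀ q, t q ∈ B
  tG : ∀ q, t q ∈ G
  hT : ∀ b ∈ B, ∃! q, (t q)⁻¹ * b ∈ C
  j : 𝔻 →* H
  jinj : Function.Injective j
  jC : ∀ d, j d ∈ C
  jB : ∀ b ∈ B, ∀ d, ∃ d', b * j d * b⁻¹ = j d'
  nt : ∃ d : 𝔻, d ≠ 1
  V : Subgroup H
  V_comm : ∀ x ∈ V, ∀ y ∈ V, x * y = y * x
  D_norm_V : ∀ d, ∀ x ∈ V, j d * x * (j d)⁻¹ ∈ V
  V_norm : ∀ g ∈ G, ∀ x ∈ V, g * x * g⁻¹ ∈ V
  G1 : Subgroup H
  mem_G1 : ∀ g, g ∈ G1 ↔ g ∈ G ∧ ∀ d, g * j d * g⁻¹ * (j d)⁻¹ ∈ V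
  G1_normal : ∀ g ∈ G, ∀ h ∈ G1, g * h * g⁻¹ ∈ G1
  G_G1 : ∀ g ∈ G, ∃ b ∈ B, b ∈ G ∧ g * b ∈ G1
  V_gen : V ≤ Subgroup.closure {x | ∃ g ∈ G1, ∃ d : 𝔻, x = g * j d * g⁻¹ * (j d)⁻¹}
  V_inf_C : ∀ v ∈ V, v ∈ C → v = 1
  cent : {z : H | (∀ v ∈ V, Commute z v) ∧ ∀ d, Commute z (j d)}.Finite
  N0 : ℕ
  fix_small : ∀ d : 𝔻, d ≠ 1 →
    {v : H | v ∈ V ∧ ∀ q, Commute v (t q * j d * (t q)⁻¹)}.Finite ∧
    {v : H | v ∈ V ∧ ∀ q, Commute v (t q * j d * (t q)⁻¹)}.ncard ≤ N0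
  one_of_comm : ∀ c ∈ C, c ≠ 1 → ∀ a ∈ A0, (∀ q, Commute a (t q * c * (t q)⁻¹)) → a = 1
  exA : ∃ a ∈ A0, a ∈ G1 ∧ a ≠ 1
  ntC : ∃ c ∈ C, c ∈ G ∧ c ≠ 1
  abN : ∀ N : Subgroup H, N ≤ G → (∀ g ∈ G, ∀ x ∈ N, g * x * g⁻¹ ∈ N) →
    (∀ x ∈ N, ∀ y ∈ N, x * y = y * x) → N = ⊥
  finN : ∀ N : Subgroup H, N ≤ G → (∀ g ∈ G, ∀ x ∈ N, g * x * g⁻¹ ∈ N) →
    (N : Set H).Finite → N = ⊥

end Pool.Agent.AP
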