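import Pool.Agent.AP.Defs

/-!
# First facts about factorised infinite prime groups (module AP-FactOne)
-/

set_option autoImplicit false

namespace Pool.Agent.AP

open Pool.Agent.AO (PrimeGrp VirtSol)

namespace PF

variable {G : Type*} [Group G] {A A₀ B C : Subgroup G}

/-- `G = B A` as well (apply `hAB` to `g⁻¹`). -/
theorem hBA (P : PF A A₀ B C) (g : G) : ∃ b ∈ B, ∃ a ∈ A, g = b * a := by
  obtain ⟨a, ha, b, hb, h⟩ := P.hAB g⁻¹
  exact ⟨b⁻¹, inv_mem hb, a⁻¹, inv_mem ha, by rw [← mul_inv_rev, ← h, inv_inv]⟩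

/-- F2. PROOF. Suppose `a ≠ 1`. By `prime` (with `x = c`, `y = a`) there is `g` such that `c` does not
commute with `g a g⁻¹`. Write `g = b a'` (`hBA`); `g a g⁻¹ = b a b⁻¹` and `a` commutes with
`b⁻¹ c b`, so `b a b⁻¹` commutes with `c`: contradiction. -/
theorem F2 (P : PF A A₀ B C) {c a : G} (hc1 : c ≠ 1) (ha : a ∈ A₀)
    (h : ∀ b ∈ B, Commute a (b * c * b⁻¹)) : a = 1 := by
  by_contra ha1
  obtain ⟨g, hg⟩ := P.prime c a hc1 ha1
  obtain ⟨b, hb, a', ha', rfl⟩ := P.hBA g
  apply hg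
  have h1 : b * a' * a * (b * a')⁻¹ = b * a * b⁻¹ := by
    have h2 : a' * a = a * a' := (P.cen _ ha _ ha').symm
    calc b * a' * a * (b * a')⁻¹ = b * (a' * a) * a'⁻¹ * b⁻¹ := by group
      _ = b * a * b⁻¹ := by rw [h2]; group
  rw [h1]
  have h3 : a * (b⁻¹ * c * b⁻¹⁻¹) = (b⁻¹ * c * b⁻¹⁻¹) * a := h b⁻¹ (B.inv_mem hb)
  show c * (b * a * b⁻¹) = (b * a * b⁻¹) * c
  calc c * (b * a * b⁻¹) = b * ((b⁻¹ * c * b⁻¹⁻¹) * a) * b⁻¹ := by group
    _ = b * (a * (b⁻¹ * c * b⁻¹⁻¹)) * b⁻¹ := by rw [h3]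
    _ = (b * a * b⁻¹) * c := by group

/-- If `K ≤ G` is abelian of finite index then the prime infinite group `G` does not exist. -/
private theorem factOne_absurd (P : PF A A₀ B C) (K : Subgroup G)
    (hK : ∀ x ∈ K, ∀ y ∈ K, x * y = y * x) (hfin : K.FiniteIndex) : False := by
  have hinf : Infinite G := P.inf
  have hsol : Group.IsSolvable K := by
    refine Group.isSolvable_of_comm ?_
    intro a b
    exact Subtype.ext (hK _ a.2 _ b.2)
  have h1 : VirtSol G := ⟨K, hfin, hsol⟩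
  have h2 : (⊤ : Subgroup G) = ⊥ := P.prime.virtSol ⊤ (h1.subgroup ⊤)
  exact top_ne_bot h2

/-- A group `X` with a finite subgroup of finite index is finite. -/
private theorem factOne_finite {X Y : Subgroup G} (hXY : X ≤ Y) (hX : (X : Set G).Finite)
    (h : X.relIndex Y ≠ 0) : Finite Y := by
  have hXf : Finite X := hX.to_subtype
  have h1 : Finite (X.subgroupOf Y) := by
    refine Finite.of_injective (fun x : X.subgroupOf Y => (⟨((x : Y) : G), x.2⟩ : X)) ?_
    intro x y hxy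
    have h2 : ((x : Y) : G) = ((y : Y) : G) := congrArg (fun z : X => (z : G)) hxy
    exact Subtype.ext (Subtype.ext h2)
  have h2 : Nat.card Y ≠ 0 := by
    rw [← Subgroup.card_mul_index (X.subgroupOf Y)]
    exact mul_ne_zero Nat.card_pos.ne' h
  exact Nat.finite_of_card_ne_zero h2

/-- `C` has infinite index in `G`. -/
theorem index_C (P : PF A A₀ B C) : C.index = 0 := by
  by_contra h
  exact factOne_absurd P C P.cC ⟨h⟩

/-- PROOF. If `A₀` is finite then so is `A` (`finA`), `G = A B` is a finite union of cosets `a B`, so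
`B` has finite index and so has `C`: contradiction to `index_C`. -/
theorem infinite_A (P : PF A A₀ B C) : (A₀ : Set G).Infinite := by
  intro hA
  have hAf : Finite A := factOne_finite P.hAA hA P.finA
  have h1 : Finite (G ⧸ B) := by
    refine Finite.of_surjective (fun a : A => (QuotientGroup.mk (a : G) : G ⧸ B)) ?_
    intro q
    obtain ⟨g, rfl⟩ := QuotientGroup.mk_surjective q
    obtain ⟨a, ha, b, hb, rfl⟩ := P.hAB g
    refine ⟨⟨a, ha⟩, ?_⟩
    show (QuotientGroup.mk a : G ⧸ B) = QuotientGroup.mk (a * b)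
    rw [QuotientGroup.eq]
    simpa using hb
  have h2 : B.index ≠ 0 := Subgroup.index_ne_zero_of_finite
  have h3 : C.index ≠ 0 := by
    rw [← Subgroup.relIndex_mul_index P.hCB]
    exact mul_ne_zero P.fin h2
  exact h3 P.index_C

/-- PROOF. If `C` is finite then `B` is finite (`fin`), and `G = B A` is a finite union of cosets
`b A`, so `A` has finite index, and so has `A₀`, which is abelian: `G` is virtually soluble. -/
theorem infinite_C (P : PF A A₀ B C) : (C : Set G).Infinite := by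
  intro hC
  have hBf : Finite B := factOne_finite P.hCB hC P.fin
  have h1 : Finite (G ⧸ A) := by
    refine Finite.of_surjective (fun b : B => (QuotientGroup.mk (b : G) : G ⧸ A)) ?_
    intro q
    obtain ⟨g, rfl⟩ := QuotientGroup.mk_surjective q
    obtain ⟨b, hb, a, ha, rfl⟩ := P.hBA g
    refine ⟨⟨b, hb⟩, ?_⟩
    show (QuotientGroup.mk b : G ⧸ A) = QuotientGroup.mk (b * a)
    rw [QuotientGroup.eq]
    simpa using ha
  have h2 : A.index ≠ 0 := Subgroup.index_ne_zero_of_finite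
  have h3 : A₀.index ≠ 0 := by
    rw [← Subgroup.relIndex_mul_index P.hAA]
    exact mul_ne_zero P.finA h2
  exact factOne_absurd P A₀ (fun x hx y hy => P.cen x hx y (P.hAA hy)) ⟨h3⟩

/-- If `X ≥ C` is a subgroup with `X ∩ A₀ = 1` then `C` has finite index in `X`.
PROOF. For `x ∈ X` write `x = a b` (`hAB`) and associate to `x` the pair of the right coset `A₀ a` of
`A₀` in `A` and the left coset `b C` of `C` in `B` (finite sets). If `x = a b`, `x' = a' b'` have the
same image then `a' = α a`, `α ∈ A₀`, `b' = b c`, `c ∈ C ≤ X`, so `x' c⁻¹ = α a b = α x`, so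
`α ∈ X ∩ A₀ = 1` and `x' = x c`. So the number of left cosets of `C` in `X` is finite. Compare with
`Pool/Agent/AO/FactOne.lean`. (For the cosets of `A₀` in `A` use `A ⧸ A₀.subgroupOf A`: as `A₀` is central
in `A`, left and right cosets agree: `a⁻¹ a' ∈ A₀` implies `a' a⁻¹ = a (a⁻¹ a') a⁻¹ = a⁻¹ a' ∈ A₀`.) -/
theorem relIndex_ne_zero (P : PF A A₀ B C) (X : Subgroup G) (hCX : C ≤ X)
    (hXA : ∀ a ∈ X, a ∈ A₀ → a = 1) : C.relIndex X ≠ 0 := by
  classical
  have hfB : (C.subgroupOf B).FiniteIndex := ⟨P.fin⟩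
  have hfA : (A₀.subgroupOf A).FiniteIndex := ⟨P.finA⟩
  have hfin : Finite (B ⧸ C.subgroupOf B) := inferInstance
  have hfinA : Finite (A ⧸ A₀.subgroupOf A) := inferInstance
  choose a ha b hb hab using P.hAB
  let f : X → (A ⧸ A₀.subgroupOf A) × (B ⧸ C.subgroupOf B) := fun x =>
    (QuotientGroup.mk (⟨a (x : G), ha _⟩ : A), QuotientGroup.mk (⟨b (x : G), hb _⟩ : B))
  have hf : ∀ x x' : X, f x = f x' → ((x : G)⁻¹ * (x' : G)) ∈ C := by
    intro x x' h
    have h1 : (⟨b (x : G), hb _⟩ : B)⁻¹ * (⟨b (x' : G), hb _⟩ : B) ∈ C.subgroupOf B :=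
      QuotientGroup.eq.1 (congrArg Prod.snd h)
    have h2 : (b (x : G))⁻¹ * b (x' : G) ∈ C := h1
    have k1 : (⟨a (x : G), ha _⟩ : A)⁻¹ * (⟨a (x' : G), ha _⟩ : A) ∈ A₀.subgroupOf A :=
      QuotientGroup.eq.1 (congrArg Prod.fst h)
    have k2 : (a (x : G))⁻¹ * a (x' : G) ∈ A₀ := k1
    have k3 : a (x' : G) * (a (x : G))⁻¹ ∈ A₀ := by
      have k4 : a (x' : G) * (a (x : G))⁻¹ = (a (x : G))⁻¹ * a (x' : G) := by
        have k5 := P.cen _ k2 _ (ha (x : G))
        calc a (x' : G) * (a (x : G))⁻¹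
            = a (x : G) * ((a (x : G))⁻¹ * a (x' : G)) * (a (x : G))⁻¹ := by group
          _ = (a (x : G))⁻¹ * a (x' : G) * a (x : G) * (a (x : G))⁻¹ := by rw [← k5]
          _ = (a (x : G))⁻¹ * a (x' : G) := by group
      rw [k4]
      exact k2
    have k6 : a (x : G) * (a (x' : G))⁻¹ ∈ A₀ := by
      have k7 := A₀.inv_mem k3
      rwa [mul_inv_rev, inv_inv] at k7
    -- `a' b ∈ X`
    have h3 : a (x' : G) * b (x : G) ∈ X := by
      have h4 : (x' : G) * ((b (x : G))⁻¹ * b (x' : G))⁻¹ ∈ X :=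
        X.mul_mem x'.2 (X.inv_mem (hCX h2))
      have h5 : (x' : G) * ((b (x : G))⁻¹ * b (x' : G))⁻¹ = a (x' : G) * b (x : G) := by
        nth_rw 1 [hab (x' : G)]
        group
      rwa [h5] at h4
    have h6 : a (x : G) * (a (x' : G))⁻¹ ∈ X := by
      have h7 : (x : G) * (a (x' : G) * b (x : G))⁻¹ ∈ X := X.mul_mem x.2 (X.inv_mem h3)
      have h8 : (x : G) * (a (x' : G) * b (x : G))⁻¹ = a (x : G) * (a (x' : G))⁻¹ := by
        nth_rw 1 [hab (x : G)]
        group
      rwa [h8] at h7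
    have h9 : a (x : G) * (a (x' : G))⁻¹ = 1 := hXA _ h6 k6
    have h10 : a (x : G) = a (x' : G) := mul_inv_eq_one.1 h9
    have h11 : (x : G)⁻¹ * (x' : G) = (b (x : G))⁻¹ * b (x' : G) := by
      nth_rw 1 [hab (x : G), hab (x' : G)]
      rw [h10]
      group
    rw [h11]
    exact h2
  have hX : Finite (X ⧸ C.subgroupOf X) := by
    refine Finite.of_injective (fun q : X ⧸ C.subgroupOf X => f q.out) ?_
    intro q q' h
    have h1 := hf _ _ h
    have h2 : (QuotientGroup.mk q.out : X ⧸ C.subgroupOf X) = QuotientGroup.mk q'.out := by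
      rw [QuotientGroup.eq]
      exact h1
    rwa [QuotientGroup.out_eq', QuotientGroup.out_eq'] at h2
  have : (C.subgroupOf X).index ≠ 0 := Subgroup.index_ne_zero_of_finite
  exact this

end PF

end Pool.Agent.AP
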