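import Pool.Agent.AP.FactOne
import Pool.Agent.AO.FactThree

/-!
# The fact F3 (module AP-FactThree)
-/

set_option autoImplicit false

namespace Pool.Agent.AP

open Pool.Agent.AO (PrimeGrp VirtSol VC)

namespace PF

variable {G : Type*} [Group G] {A A₀ B C : Subgroup G}

/-- Conjugation by an element of `B` fixes `C`. -/
private theorem FactThree_map_conj_eq (P : PF A A₀ B C) {b : G} (hb : b ∈ B) :
    C.map (MulAut.conj b).toMonoidHom = C := by
  apply le_antisymm
  · rintro _ ⟨x, hx, rfl⟩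
    exact P.nC b hb x hx
  · intro x hx
    refine ⟨b⁻¹ * x * b, ?_, ?_⟩
    · have := P.nC b⁻¹ (inv_mem hb) x hx
      simpa using this
    · simp [mul_assoc]

open scoped Pointwise in
/-- Membership in the commensurator with images instead of the conjugation action. -/
private theorem FactThree_mem_iff (g : G) (K : Subgroup G) :
    g ∈ Subgroup.Commensurable.commensurator K ↔
      Subgroup.Commensurable (K.map (MulAut.conj g).toMonoidHom) K := by
  have h : (ConjAct.toConjAct g • K : Subgroup G) = K.map (MulAut.conj g).toMonoidHom := by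
    ext x
    rw [Subgroup.mem_map]
    constructor
    · intro hx
      obtain ⟨y, hy, rfl⟩ := (Subgroup.mem_smul_pointwise_iff_exists _ _ _).1 hx
      exact ⟨y, hy, by simp [ConjAct.smul_def]⟩
    · rintro ⟨y, hy, rfl⟩
      exact (Subgroup.mem_smul_pointwise_iff_exists _ _ _).2 ⟨y, hy, by simp [ConjAct.smul_def]⟩
  rw [Subgroup.Commensurable.commensurator_mem_iff, h]

/-- `C ≤ VC`. PROOF. `C` is commutative. -/
theorem C_le_VC (P : PF A A₀ B C) : C ≤ VC C := by
  intro g hg
  change (C ⊓ Subgroup.centralizer {g}).relIndex C ≠ 0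
  have h : C ⊓ Subgroup.centralizer {g} = C := by
    rw [inf_eq_left]
    intro x hx
    rw [Subgroup.mem_centralizer_iff]
    rintro _ rfl
    exact P.cC _ hg _ hx
  rw [h]
  simp

/-- `VC ∩ A = 1`.
PROOF. Let `a ∈ A ∩ VC`, `E = C ⊓ centralizer {a}`, of finite index in `C`. The subgroup
`E' = {x ∈ C | ∀ b ∈ B, b x b⁻¹ ∈ E}` has finite index in `C`: as `C` is commutative, `b x b⁻¹`
depends only on the coset `b C`, so it is a finite intersection of subgroups
`{x ∈ C | b x b⁻¹ ∈ E}` of finite index in `C` (conjugation by `b` is an automorphism of `C`).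
`C` is infinite (`infinite_C`), so there is `c ∈ E'`, `c ≠ 1`, and `a` commutes with all
`b c b⁻¹`; `F2`. -/
theorem VC_inf_A (P : PF A A₀ B C) : ∀ a ∈ VC C, a ∈ A₀ → a = 1 := by
  intro a haV haA
  have hE : (C ⊓ Subgroup.centralizer {a}).relIndex C ≠ 0 := haV
  set E : Subgroup G := C ⊓ Subgroup.centralizer {a} with hEdef
  have hfin : Finite (B ⧸ C.subgroupOf B) := by
    have h1 : (C.subgroupOf B).index ≠ 0 := P.fin
    have : (C.subgroupOf B).FiniteIndex := ⟨h1⟩
    exact Subgroup.finite_quotient_of_finiteIndex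
  set E' : Subgroup G :=
    ⨅ q : B ⧸ C.subgroupOf B, E.comap (MulAut.conj ((q.out : B) : G)).toMonoidHom with hE'def
  have hE' : E'.relIndex C ≠ 0 := by
    refine Subgroup.relIndex_iInf_ne_zero ?_
    intro q
    rw [Subgroup.relIndex_comap]
    rw [FactThree_map_conj_eq P (q.out : B).2]
    exact hE
  have hne : E' ⊓ C ≠ ⊥ := by
    intro h0
    have h1 : (E' ⊓ C).relIndex C ≠ 0 := by
      rw [Subgroup.inf_relIndex_right]
      exact hE'
    rw [h0, Subgroup.relIndex_bot_left] at h1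
    apply h1
    have h2 := P.infinite_C
    rw [← Set.infinite_coe_iff] at h2
    exact @Nat.card_eq_zero_of_infinite _ h2
  obtain ⟨c, hc, hc1⟩ := (Subgroup.ne_bot_iff_exists_ne_one).1 hne |>.elim
    (fun x hx => (⟨x.1, x.2, fun h => hx (Subtype.ext h)⟩ : ∃ c ∈ E' ⊓ C, c ≠ 1))
  refine P.F2 (c := c) hc1 haA ?_
  intro b hb
  have hcC : c ∈ C := hc.2
  set q : B ⧸ C.subgroupOf B := QuotientGroup.mk (⟨b, hb⟩ : B) with hq
  have h1 : ((q.out : B) : G)⁻¹ * b ∈ C := by
    have h2 : (QuotientGroup.mk (q.out) : B ⧸ C.subgroupOf B) = QuotientGroup.mk (⟨b, hb⟩ : B) := by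
      rw [QuotientGroup.out_eq']
    have h3 := QuotientGroup.eq.1 h2
    rw [Subgroup.mem_subgroupOf] at h3
    simpa using h3
  have h4 : b * c * b⁻¹ = (MulAut.conj ((q.out : B) : G)) c := by
    have h5 : ((q.out : B) : G)⁻¹ * b * c = c * (((q.out : B) : G)⁻¹ * b) := P.cC _ h1 _ hcC
    rw [MulAut.conj_apply]
    have h6 : b * c = ((q.out : B) : G) * c * ((q.out : B) : G)⁻¹ * b := by
      have := congrArg (fun y => ((q.out : B) : G) * y) h5
      simpa [mul_assoc] using this
    rw [h6]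
    simp [mul_assoc]
  have h7 : (MulAut.conj ((q.out : B) : G)) c ∈ E := by
    have := (Subgroup.mem_iInf.1 hc.1) q
    exact this
  rw [h4]
  have h8 := (Subgroup.mem_centralizer_iff.1 (Subgroup.mem_inf.1 h7).2) a rfl
  exact h8

/-- If `a ≠ 1`, `c ≠ 1` violate F3 then `C` and `a C a⁻¹` are commensurable.
PROOF. Let `X` be the centraliser of the set `{b c b⁻¹ | b ∈ B}`; `C ≤ X`, `X ∩ A = 1` by `F2`, so
`C` has finite index in `X` (`relIndex_ne_zero`). So `a C a⁻¹` has finite index in
`X' = a X a⁻¹` (the centraliser of the elements `a (b c b⁻¹) a⁻¹`, which are in `C`). So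
`C ≤ X'`, and `X' ∩ A = a (X ∩ A) a⁻¹ = 1` (`A` abelian), so `C` has finite index in `X'`. Both have
finite index in `X'`, so they are commensurable. -/
theorem commensurable (P : PF A A₀ B C) {c a : G} (hc : c ∈ C) (hc1 : c ≠ 1) (ha : a ∈ A₀)
    (h : ∀ b ∈ B, a * (b * c * b⁻¹) * a⁻¹ ∈ C) :
    a ∈ Subgroup.Commensurable.commensurator C := by
  have hcC : ∀ b ∈ B, b * c * b⁻¹ ∈ C := fun b hb => P.nC b hb c hc
  set X : Subgroup G := Subgroup.centralizer {x | ∃ b ∈ B, x = b * c * b⁻¹} with hX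
  have memX : ∀ x : G, x ∈ X ↔ ∀ b ∈ B, b * c * b⁻¹ * x = x * (b * c * b⁻¹) := by
    intro x
    rw [hX, Subgroup.mem_centralizer_iff]
    constructor
    · intro h b hb
      exact h _ ⟨b, hb, rfl⟩
    · rintro h _ ⟨b, hb, rfl⟩
      exact h b hb
  have hCX : C ≤ X := by
    intro x hx
    rw [memX]
    intro b hb
    exact P.cC _ (hcC b hb) _ hx
  have hXA : ∀ a' ∈ X, a' ∈ A₀ → a' = 1 := by
    intro a' ha' ha'A
    refine P.F2 (c := c) hc1 ha'A ?_
    intro b hb
    exact ((memX a').1 ha' b hb).symm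
  have i1 : C.relIndex X ≠ 0 := P.relIndex_ne_zero X hCX hXA
  set X' : Subgroup G := X.map (MulAut.conj a).toMonoidHom with hX'
  have memX' : ∀ x : G, x ∈ X' ↔ a⁻¹ * x * a ∈ X := by
    intro x
    rw [hX', Subgroup.mem_map]
    constructor
    · rintro ⟨y, hy, rfl⟩
      have : a⁻¹ * (MulAut.conj a).toMonoidHom y * a = y := by
        simp [mul_assoc]
      rw [this]
      exact hy
    · intro h
      exact ⟨_, h, by simp [mul_assoc]⟩
  have hCX' : C ≤ X' := by
    intro x hx
    rw [memX', memX]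
    intro b hb
    have h1 : a * (b * c * b⁻¹) * a⁻¹ * x = x * (a * (b * c * b⁻¹) * a⁻¹) :=
      P.cC _ (h b hb) _ hx
    have h2 := congrArg (fun y => a⁻¹ * y * a) h1
    simp only [mul_assoc, inv_mul_cancel_left] at h2 ⊢
    simpa [mul_assoc] using h2
  have hX'A : ∀ a' ∈ X', a' ∈ A₀ → a' = 1 := by
    intro a' ha' ha'A
    rw [memX'] at ha'
    have h1 : a⁻¹ * a' * a = a' := by
      rw [mul_assoc, P.cen _ ha'A _ (P.hAA ha), inv_mul_cancel_left]
    rw [h1] at ha'
    exact hXA a' ha' ha'A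
  have i2 : C.relIndex X' ≠ 0 := P.relIndex_ne_zero X' hCX' hX'A
  have i3 : (C.map (MulAut.conj a).toMonoidHom).relIndex X' ≠ 0 := by
    rw [hX', Subgroup.relIndex_map_map_of_injective _ _ (MulAut.conj a).injective]
    exact i1
  have hle : C.map (MulAut.conj a).toMonoidHom ≤ X' := Subgroup.map_mono hCX
  rw [FactThree_mem_iff]
  exact ⟨fun h0 => i3 (Subgroup.relIndex_eq_zero_of_le_right hCX' h0),
    fun h0 => i2 (Subgroup.relIndex_eq_zero_of_le_right hle h0)⟩

/-- PROOF. `b C b⁻¹ = C` for `b ∈ B` (`nC`). -/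
theorem B_le_comm (P : PF A A₀ B C) : B ≤ Subgroup.Commensurable.commensurator C := by
  intro b hb
  rw [FactThree_mem_iff, FactThree_map_conj_eq P hb]

/-- The commensurator `X` of `C` normalises `VC`.
PROOF. If `g ∈ X` and `v` centralises a subgroup `E` of finite index of `C`, then `g v g⁻¹`
centralises `g E g⁻¹`, which has finite index in `g C g⁻¹`, so `g E g⁻¹ ⊓ C` has finite index in
`g C g⁻¹ ⊓ C`, which has finite index in `C`. -/
theorem conj_VC {g : G} (hg : g ∈ Subgroup.Commensurable.commensurator C) :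
    ∀ v ∈ VC C, g * v * g⁻¹ ∈ VC C := by
  intro v hv
  have hE : (C ⊓ Subgroup.centralizer {v}).relIndex C ≠ 0 := hv
  rw [FactThree_mem_iff] at hg
  change (C ⊓ Subgroup.centralizer {g * v * g⁻¹}).relIndex C ≠ 0
  rw [Subgroup.inf_relIndex_left]
  have h1 : ((C ⊓ Subgroup.centralizer {v}).map (MulAut.conj g).toMonoidHom).relIndex
      (C.map (MulAut.conj g).toMonoidHom) ≠ 0 := by
    rw [Subgroup.relIndex_map_map_of_injective _ _ (MulAut.conj g).injective]
    exact hE
  have h2 := Subgroup.relIndex_ne_zero_trans h1 hg.1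
  refine fun h0 => h2 (Subgroup.relIndex_eq_zero_of_le_left ?_ h0)
  rintro _ ⟨y, hy, rfl⟩
  have h3 := (Subgroup.mem_centralizer_iff.1 (Subgroup.mem_inf.1 hy).2) v rfl
  rw [Subgroup.mem_centralizer_iff]
  rintro _ rfl
  have h4 := congrArg (fun z => g * z * g⁻¹) h3
  simpa [mul_assoc] using h4

/-- The commensurator `X` of `C` is virtually soluble.
PROOF. As `AO.PF.comm_virtSol`. `N = VC ⊓ X` is normal in `X` (`conj_VC`), and it is virtually abelian: `C ≤ X`
(`B_le_comm`) has finite index in `VC` (`relIndex_ne_zero` with `VC_inf_A`). Every `x ∈ X` is `b a`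
with `b ∈ B ≤ X`, so `a ∈ A ⊓ X`; so the image `A'` of `A ⊓ X` in `X / N` has finite index in
`X / N` (`B / (B ∩ N)` is finite since `C ≤ N`), and the image `A'₀` of `A₀ ⊓ X` is
abelian and has finite index in `A'` (`A₀ ⊓ X` has finite index in `A ⊓ X` by `finA`), so `A'₀` has finite index in
`X / N`. Use `VirtSol.extension`. -/
theorem comm_virtSol (P : PF A A₀ B C) :
    VirtSol (Subgroup.Commensurable.commensurator C) := by
  set X : Subgroup G := Subgroup.Commensurable.commensurator C with hX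
  have hBX : B ≤ X := P.B_le_comm
  have hCX : C ≤ X := P.hCB.trans hBX
  have hCV : C ≤ VC C := P.C_le_VC
  have hVi : C.relIndex (VC C) ≠ 0 := P.relIndex_ne_zero (VC C) hCV P.VC_inf_A
  have hnorm : ((VC C).subgroupOf X).Normal := by
    constructor
    intro n hn g
    rw [Subgroup.mem_subgroupOf] at hn ⊢
    exact conj_VC g.2 _ hn
  refine VirtSol.extension ((VC C).subgroupOf X) ?_ ?_
  · refine VirtSol.of_abelian (C := C.subgroupOf X) ?_ ?_
    · intro x hx y hy
      exact Subtype.ext (P.cC _ (Subgroup.mem_subgroupOf.1 hx) _ (Subgroup.mem_subgroupOf.1 hy))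
    · rw [← Subgroup.inf_subgroupOf_right (VC C) X, Subgroup.relIndex_subgroupOf inf_le_right]
      exact fun h0 => hVi (Subgroup.relIndex_eq_zero_of_le_right inf_le_left h0)
  · set N : Subgroup X := (VC C).subgroupOf X with hN
    set A' : Subgroup (X ⧸ N) := (A.subgroupOf X).map (QuotientGroup.mk' N) with hA'
    set A₀' : Subgroup (X ⧸ N) := (A₀.subgroupOf X).map (QuotientGroup.mk' N) with hA₀'
    have hcomm : ∀ x ∈ A₀', ∀ y ∈ A₀', x * y = y * x := by
      rintro _ ⟨x, hx, rfl⟩ _ ⟨y, hy, rfl⟩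
      rw [← map_mul, ← map_mul]
      congr 1
      exact Subtype.ext (P.cen _ (Subgroup.mem_subgroupOf.1 hx) _
        (P.hAA (Subgroup.mem_subgroupOf.1 hy)))
    have hle : A₀' ≤ A' := by
      rw [hA₀', hA']
      apply Subgroup.map_mono
      intro x hx
      exact Subgroup.mem_subgroupOf.2 (P.hAA (Subgroup.mem_subgroupOf.1 hx))
    have hrel : A₀'.relIndex A' ≠ 0 := by
      have h1 : (A₀.subgroupOf X).relIndex (A.subgroupOf X) ≠ 0 := by
        rw [← Subgroup.inf_subgroupOf_right A X, Subgroup.relIndex_subgroupOf inf_le_right]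
        exact fun h0 => P.finA (Subgroup.relIndex_eq_zero_of_le_right inf_le_left h0)
      rw [hA₀', hA', ← Subgroup.relIndex_comap]
      exact fun h0 => h1 (Subgroup.relIndex_eq_zero_of_le_left (Subgroup.le_comap_map _ _) h0)
    have hfin : Finite (B ⧸ C.subgroupOf B) := by
      have h1 : (C.subgroupOf B).index ≠ 0 := P.fin
      have : (C.subgroupOf B).FiniteIndex := ⟨h1⟩
      exact Subgroup.finite_quotient_of_finiteIndex
    have hsurj : Function.Surjective (fun q : B ⧸ C.subgroupOf B =>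
        (QuotientGroup.mk (QuotientGroup.mk (⟨((q.out : B) : G), hBX (q.out : B).2⟩ : X) : X ⧸ N) :
          (X ⧸ N) ⧸ A')) := by
      intro z
      obtain ⟨z, rfl⟩ := QuotientGroup.mk_surjective z
      obtain ⟨x, rfl⟩ := QuotientGroup.mk_surjective z
      obtain ⟨b, hb, a, ha, hx⟩ := P.hBA (x : G)
      refine ⟨QuotientGroup.mk (⟨b, hb⟩ : B), ?_⟩
      set q : B ⧸ C.subgroupOf B := QuotientGroup.mk (⟨b, hb⟩ : B) with hq
      have h1 : ((q.out : B) : G)⁻¹ * b ∈ C := by
        have h2 : (QuotientGroup.mk (q.out) : B ⧸ C.subgroupOf B) =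
            QuotientGroup.mk (⟨b, hb⟩ : B) := by
          rw [QuotientGroup.out_eq']
        have h3 := QuotientGroup.eq.1 h2
        rw [Subgroup.mem_subgroupOf] at h3
        simpa using h3
      have hbX : b ∈ X := hBX hb
      have haX : a ∈ X := by
        have : a = b⁻¹ * (x : G) := by rw [hx]; simp
        rw [this]
        exact mul_mem (inv_mem hbX) x.2
      have e1 : (QuotientGroup.mk (⟨((q.out : B) : G), hBX (q.out : B).2⟩ : X) : X ⧸ N) =
          QuotientGroup.mk (⟨b, hbX⟩ : X) := by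
        rw [QuotientGroup.eq, hN, Subgroup.mem_subgroupOf]
        exact hCV h1
      have e2 : x = (⟨b, hbX⟩ : X) * (⟨a, haX⟩ : X) := Subtype.ext hx
      change (QuotientGroup.mk (QuotientGroup.mk (⟨((q.out : B) : G), hBX (q.out : B).2⟩ : X) :
        X ⧸ N) : (X ⧸ N) ⧸ A') = _
      rw [e1, e2, QuotientGroup.eq]
      refine ⟨⟨a, haX⟩, ?_, ?_⟩
      · exact Subgroup.mem_subgroupOf.2 ha
      · rw [QuotientGroup.mk_mul, inv_mul_cancel_left]
        rfl
    have hfin2 : Finite ((X ⧸ N) ⧸ A') := Finite.of_surjective _ hsurj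
    have hidx : A'.FiniteIndex := Subgroup.finiteIndex_of_finite_quotient
    have h9 : VirtSol (⊤ : Subgroup (X ⧸ N)) := by
      refine VirtSol.of_abelian (C := A₀') hcomm ?_
      rw [Subgroup.relIndex_top_right]
      rw [← Subgroup.relIndex_mul_index hle]
      exact mul_ne_zero hrel hidx.index_ne_zero
    exact h9.of_surjective (Subgroup.topEquiv : (⊤ : Subgroup (X ⧸ N)) ≃* (X ⧸ N)).toMonoidHom
      (Subgroup.topEquiv : (⊤ : Subgroup (X ⧸ N)) ≃* (X ⧸ N)).surjective

/-- F3. PROOF. By `commensurable` `a ∈ X`, the commensurator of `C`, and `B ≤ X`. Let `K` be the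
normal closure of `a` in `G`. For `g = b a'` (`hBA`): `g a g⁻¹ = b a b⁻¹ ∈ X`, so `K ≤ X`, and `K` is
virtually soluble (`comm_virtSol`, `VirtSol.subgroup`; note that for `K ≤ X` the group `K` is
isomorphic to the subgroup `K.subgroupOf X` of `X`), so `K = ⊥` by `PrimeGrp.virtSol`, and
`a = 1`. -/
theorem F3 (P : PF A A₀ B C) {c a : G} (hc : c ∈ C) (hc1 : c ≠ 1) (ha : a ∈ A₀)
    (h : ∀ b ∈ B, a * (b * c * b⁻¹) * a⁻¹ ∈ C) : a = 1 := by
  have haX := P.commensurable hc hc1 ha h
  set X : Subgroup G := Subgroup.Commensurable.commensurator C with hX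
  have hBX : B ≤ X := P.B_le_comm
  have hKX : Subgroup.normalClosure {a} ≤ X := by
    rw [Subgroup.normalClosure, Subgroup.closure_le]
    intro y hy
    rw [Group.mem_conjugatesOfSet_iff] at hy
    obtain ⟨z, hz, hzy⟩ := hy
    rw [Set.mem_singleton_iff] at hz
    subst hz
    obtain ⟨g, rfl⟩ := isConj_iff.1 hzy
    obtain ⟨b, hb, a', ha', rfl⟩ := P.hBA g
    have e1 : b * a' * z * (b * a')⁻¹ = b * z * b⁻¹ := by
      have : a' * z = z * a' := (P.cen _ ha _ ha').symm
      rw [mul_assoc b a' z, this]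
      group
    rw [e1]
    exact mul_mem (mul_mem (hBX hb) haX) (inv_mem (hBX hb))
  have hK : VirtSol (Subgroup.normalClosure {a} : Subgroup G) := by
    have h1 := (P.comm_virtSol).subgroup ((Subgroup.normalClosure {a}).subgroupOf X)
    exact h1.of_surjective (Subgroup.subgroupOfEquivOfLe hKX).toMonoidHom
      (Subgroup.subgroupOfEquivOfLe hKX).surjective
  have hinf : Infinite G := P.inf
  have h0 := PrimeGrp.virtSol P.prime (Subgroup.normalClosure {a}) hK
  have h2 : a ∈ (Subgroup.normalClosure {a} : Subgroup G) :=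
    Subgroup.subset_normalClosure rfl
  rw [h0, Subgroup.mem_bot] at h2
  exact h2

end PF

end Pool.Agent.AP
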