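import Pool.Agent.AP.Ito

/-!
# The groups `W`, `V` and `Gam` (module AP-Gam)

Notation: `d` stands for `S.j d`, `δ_u(d) = S.delta u d = u d u⁻¹ d⁻¹`, `A, A0, B, C, G, e` are
fields of the structure `S : Core H 𝔻 K Q`. Compare with `Pool/Agent/AO/Gam.lean`.
-/

set_option autoImplicit false

namespace Pool.Agent.AP

namespace Core

variable {H : Type*} [Group H] {𝔻 : Type*} [CommGroup 𝔻] {K Q : Type*} [Fintype K] [Fintype Q]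
variable (S : Core H 𝔻 K Q)

theorem U_sub_UV : S.U ⊆ S.UV := by
  rintro u ⟨hu, a, ha, c, hc, h⟩
  exact ⟨hu, a, S.hAA ha, c, hc, h⟩

theorem one_mem_U : (1 : H) ∈ S.U :=
  ⟨S.G.one_mem, 1, S.A0.one_mem, 1, S.C.one_mem, by group⟩

/-- PROOF. Write `e g = a b` (`hAB`) with `a ∈ A`, `b ∈ B`, and let `q` be the index with
`(t q)⁻¹ (e⁻¹ b) = c ∈ C` (`hT`). Then `b = e (t q) c`, so
`e g (t q)⁻¹ = a e ((t q) c (t q)⁻¹)` and `(t q) c (t q)⁻¹ ∈ C` (`nC`). -/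
theorem exists_UV {g : H} (hg : g ∈ S.G) : ∃ q, g * (S.t q)⁻¹ ∈ S.UV := by
  obtain ⟨a, ha, b, hb, h⟩ := S.hAB (S.e * g)
  obtain ⟨q, hq, -⟩ := S.hT (S.e⁻¹ * b) (mul_mem (inv_mem S.eB) hb)
  refine ⟨q, mul_mem hg (inv_mem (S.tG q)), a, ha,
    S.t q * ((S.t q)⁻¹ * (S.e⁻¹ * b)) * (S.t q)⁻¹, S.nC _ (S.tB q) _ hq, ?_⟩
  calc S.e * (g * (S.t q)⁻¹) = (S.e * g) * (S.t q)⁻¹ := by group
    _ = (a * b) * (S.t q)⁻¹ := by rw [h]
    _ = a * S.e * (S.t q * ((S.t q)⁻¹ * (S.e⁻¹ * b)) * (S.t q)⁻¹) := by group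

/-- For `u ∈ U`: `δ_u(d) = e⁻¹ [α, e d e⁻¹] e` with `α ∈ A0` and `(e d e⁻¹)⁻¹ α ∈ A0 C` for all `d`.
PROOF. `e u = α e c`, so `u = (e⁻¹ α e) c` and
`u d u⁻¹ = e⁻¹ α e d e⁻¹ α⁻¹ e` (`c` commutes with `d`), `d⁻¹ = e⁻¹ (e d e⁻¹)⁻¹ e`. By `D1` for `d⁻¹`:
`e d⁻¹ u = a (e u) c' = a α e c c'`, and `e d⁻¹ u = (e d e⁻¹)⁻¹ e u = (e d e⁻¹)⁻¹ α e c`. So
`(e d e⁻¹)⁻¹ α = a α (e c c' c⁻¹ e⁻¹)`, `e (..) e⁻¹ ∈ C` by `nC` and `eB`. -/
theorem U_form {u : H} (hu : u ∈ S.U) : ∃ α ∈ S.A0,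
    (∀ d, S.delta u d = S.e⁻¹ * (α * (S.e * S.j d * S.e⁻¹) * α⁻¹ * (S.e * S.j d * S.e⁻¹)⁻¹) * S.e) ∧
    ∀ d, ∃ z ∈ S.A0, ∃ w ∈ S.C, (S.e * S.j d * S.e⁻¹)⁻¹ * α = z * w := by
  obtain ⟨hG, α, hα, c, hc, h⟩ := hu
  have hcd : ∀ d, c * S.j d = S.j d * c := fun d => S.cC _ hc _ (S.jC d)
  have hu' : u = S.e⁻¹ * (α * S.e * c) := by rw [← h]; group
  refine ⟨α, hα, fun d => ?_, fun d => ?_⟩
  · unfold delta
    calc u * S.j d * u⁻¹ * (S.j d)⁻¹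
        = S.e⁻¹ * (α * S.e * c) * S.j d * (S.e⁻¹ * (α * S.e * c))⁻¹ * (S.j d)⁻¹ := by rw [← hu']
      _ = S.e⁻¹ * α * S.e * (c * S.j d) * c⁻¹ * S.e⁻¹ * α⁻¹ * S.e * (S.j d)⁻¹ := by group
      _ = S.e⁻¹ * (α * (S.e * S.j d * S.e⁻¹) * α⁻¹ * (S.e * S.j d * S.e⁻¹)⁻¹) * S.e := by
        rw [hcd d]; group
  · obtain ⟨a, ha, c', hc', h'⟩ := S.D1 u hG d⁻¹
    refine ⟨a * α, mul_mem ha hα, S.e * (c * c' * c⁻¹) * S.e⁻¹,
      S.nC _ S.eB _ (mul_mem (mul_mem hc hc') (inv_mem hc)), ?_⟩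
    calc (S.e * S.j d * S.e⁻¹)⁻¹ * α
        = S.e * S.j d⁻¹ * (S.e⁻¹ * (α * S.e * c)) * c⁻¹ * S.e⁻¹ := by rw [map_inv]; group
      _ = (S.e * S.j d⁻¹ * u) * c⁻¹ * S.e⁻¹ := by rw [← hu']
      _ = (a * (α * S.e * c) * c') * c⁻¹ * S.e⁻¹ := by rw [h', h]
      _ = a * α * (S.e * (c * c' * c⁻¹) * S.e⁻¹) := by group

/-- For `u ∈ UV`: `δ_u(d) = e⁻¹ [β, e d e⁻¹] e` with `β ∈ A` and `(e d e⁻¹)⁻¹ β ∈ A C` for all `d`.
PROOF. As `U_form`. -/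
theorem UV_form {u : H} (hu : u ∈ S.UV) : ∃ β ∈ S.A,
    (∀ d, S.delta u d = S.e⁻¹ * (β * (S.e * S.j d * S.e⁻¹) * β⁻¹ * (S.e * S.j d * S.e⁻¹)⁻¹) * S.e) ∧
    ∀ d, ∃ x ∈ S.A, ∃ y ∈ S.C, (S.e * S.j d * S.e⁻¹)⁻¹ * β = x * y := by
  obtain ⟨hG, α, hα, c, hc, h⟩ := hu
  have hcd : ∀ d, c * S.j d = S.j d * c := fun d => S.cC _ hc _ (S.jC d)
  have hu' : u = S.e⁻¹ * (α * S.e * c) := by rw [← h]; group
  refine ⟨α, hα, fun d => ?_, fun d => ?_⟩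
  · unfold delta
    calc u * S.j d * u⁻¹ * (S.j d)⁻¹
        = S.e⁻¹ * (α * S.e * c) * S.j d * (S.e⁻¹ * (α * S.e * c))⁻¹ * (S.j d)⁻¹ := by rw [← hu']
      _ = S.e⁻¹ * α * S.e * (c * S.j d) * c⁻¹ * S.e⁻¹ * α⁻¹ * S.e * (S.j d)⁻¹ := by group
      _ = S.e⁻¹ * (α * (S.e * S.j d * S.e⁻¹) * α⁻¹ * (S.e * S.j d * S.e⁻¹)⁻¹) * S.e := by
        rw [hcd d]; group
  · obtain ⟨a, ha, c', hc', h'⟩ := S.D1 u hG d⁻¹
    refine ⟨a * α, mul_mem (S.hAA ha) hα, S.e * (c * c' * c⁻¹) * S.e⁻¹,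
      S.nC _ S.eB _ (mul_mem (mul_mem hc hc') (inv_mem hc)), ?_⟩
    calc (S.e * S.j d * S.e⁻¹)⁻¹ * α
        = S.e * S.j d⁻¹ * (S.e⁻¹ * (α * S.e * c)) * c⁻¹ * S.e⁻¹ := by rw [map_inv]; group
      _ = (S.e * S.j d⁻¹ * u) * c⁻¹ * S.e⁻¹ := by rw [← hu']
      _ = (a * (α * S.e * c) * c') * c⁻¹ * S.e⁻¹ := by rw [h', h]
      _ = a * α * (S.e * (c * c' * c⁻¹) * S.e⁻¹) := by group

/-- PROOF. `U_form`, `UV_form`, `ito` (for the elements `e d e⁻¹`, `e d' e⁻¹` of `C`), and conjugation by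
`e⁻¹` (`Commute.conj_iff`). -/
theorem delta_comm {u v : H} (hu : u ∈ S.U) (hv : v ∈ S.UV) (d e : 𝔻) :
    Commute (S.delta u d) (S.delta v e) := by
  obtain ⟨α, hα, h1, h2⟩ := U_form S hu
  obtain ⟨β, hβ, h3, h4⟩ := UV_form S hv
  have key := ito S.cen S.cC (S.nC _ S.eB _ (S.jC d)) (S.nC _ S.eB _ (S.jC e)) hα hβ (h4 d) (h2 e)
  rw [h1 d, h3 e]
  have := (Commute.conj_iff (S.e)⁻¹).2 key
  simpa only [inv_inv] using this

/-- PROOF. The generators commute by `delta_comm`; closure induction twice. -/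
theorem W_V_comm : ∀ x ∈ S.W, ∀ y ∈ S.V, Commute x y := by
  have h1 : S.V ≤ Subgroup.centralizer {x | ∃ u ∈ S.U, ∃ d : 𝔻, x = S.delta u d} := by
    unfold V
    rw [Subgroup.closure_le]
    rintro x ⟨u, hu, d, rfl⟩
    rw [SetLike.mem_coe, Subgroup.mem_centralizer_iff]
    rintro y ⟨v, hv, e, rfl⟩
    exact delta_comm S hv hu e d
  have h2 : S.W ≤ Subgroup.centralizer (S.V : Set H) := by
    unfold W
    rw [Subgroup.closure_le]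
    intro x hx
    rw [SetLike.mem_coe, Subgroup.mem_centralizer_iff]
    intro y hy
    exact ((Subgroup.mem_centralizer_iff.1 (h1 hy)) x hx).symm
  intro x hx y hy
  exact ((Subgroup.mem_centralizer_iff.1 (h2 hx)) y hy).symm

theorem delta_mem_W {u : H} (hu : u ∈ S.U) (d : 𝔻) : S.delta u d ∈ S.W :=
  Subgroup.subset_closure ⟨u, hu, d, rfl⟩

theorem delta_mem_V {u : H} (hu : u ∈ S.UV) (d : 𝔻) : S.delta u d ∈ S.V :=
  Subgroup.subset_closure ⟨u, hu, d, rfl⟩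

/-- PROOF. `U_sub_UV`, `Subgroup.closure_mono`. -/
theorem W_le_V : S.W ≤ S.V := by
  unfold W V
  apply Subgroup.closure_mono
  rintro x ⟨u, hu, d, rfl⟩
  exact ⟨u, U_sub_UV S hu, d, rfl⟩

/-- PROOF. `W_V_comm`, `W_le_V`. -/
theorem W_comm : ∀ x ∈ S.W, ∀ y ∈ S.W, x * y = y * x := by
  intro x hx y hy
  exact (W_V_comm S x hx y (W_le_V S hy)).eq

/-- PROOF. `d δ_u(e) d⁻¹ = δ_u(d)⁻¹ δ_u(d e)`; closure induction. -/
theorem D_norm_W (d : 𝔻) : ∀ x ∈ S.W, S.j d * x * (S.j d)⁻¹ ∈ S.W := by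
  have h : S.W ≤ S.W.comap (MulAut.conj (S.j d)).toMonoidHom := by
    conv_lhs => unfold W
    rw [Subgroup.closure_le]
    rintro x ⟨u, hu, e, rfl⟩
    change S.j d * S.delta u e * (S.j d)⁻¹ ∈ S.W
    have h1 : S.j d * S.delta u e * (S.j d)⁻¹ = (S.delta u d)⁻¹ * S.delta u (d * e) := by
      unfold delta
      rw [map_mul]
      group
    rw [h1]
    exact mul_mem (inv_mem (delta_mem_W S hu d)) (delta_mem_W S hu (d * e))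
  intro x hx
  exact h hx

/-- PROOF. As `D_norm_W`. -/
theorem D_norm_V (d : 𝔻) : ∀ x ∈ S.V, S.j d * x * (S.j d)⁻¹ ∈ S.V := by
  have h : S.V ≤ S.V.comap (MulAut.conj (S.j d)).toMonoidHom := by
    conv_lhs => unfold V
    rw [Subgroup.closure_le]
    rintro x ⟨u, hu, e, rfl⟩
    change S.j d * S.delta u e * (S.j d)⁻¹ ∈ S.V
    have h1 : S.j d * S.delta u e * (S.j d)⁻¹ = (S.delta u d)⁻¹ * S.delta u (d * e) := by
      unfold delta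
      rw [map_mul]
      group
    rw [h1]
    exact mul_mem (inv_mem (delta_mem_V S hu d)) (delta_mem_V S hu (d * e))
  intro x hx
  exact h hx

/-- PROOF. Take `g = 1` in the generators of `Gam`. -/
theorem j_mem_Gam (d : 𝔻) : S.j d ∈ S.Gam := by
  apply Subgroup.subset_closure
  exact ⟨1, S.G.one_mem, d, by group⟩

/-- PROOF. `δ_u(d) = (u d u⁻¹) (1 d 1⁻¹)⁻¹`. -/
theorem V_le_Gam : S.V ≤ S.Gam := by
  unfold V
  rw [Subgroup.closure_le]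
  rintro x ⟨u, hu, d, rfl⟩
  unfold delta
  exact mul_mem (Subgroup.subset_closure ⟨u, hu.1, d, rfl⟩) (inv_mem (j_mem_Gam S d))

/-- PROOF. `V * j(𝔻)` is a subgroup since `D_norm_V`; it contains the generators of `Gam`: for `g ∈ G`
let `q` be as in `exists_UV`, `u = g (t q)⁻¹ ∈ UV`; then
`g d g⁻¹ = u ((t q) d (t q)⁻¹) u⁻¹ = u (j d') u⁻¹ = δ_u(d') d'` (`jB`). Conversely use `V_le_Gam`,
`j_mem_Gam`. -/
theorem mem_Gam (x : H) : x ∈ S.Gam ↔ ∃ v ∈ S.V, ∃ d : 𝔻, x = v * S.j d := by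
  constructor
  · intro hx
    unfold Gam at hx
    induction hx using Subgroup.closure_induction with
    | mem x hx =>
      obtain ⟨g, hg, d, rfl⟩ := hx
      obtain ⟨q, hq⟩ := exists_UV S hg
      obtain ⟨d', hd'⟩ := S.jB (S.t q) (S.tB q) d
      refine ⟨S.delta (g * (S.t q)⁻¹) d', delta_mem_V S hq d', d', ?_⟩
      unfold delta
      rw [← hd']
      group
    | one => exact ⟨1, one_mem _, 1, by rw [map_one, mul_one]⟩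
    | mul x y _ _ hx hy =>
      obtain ⟨v, hv, d, rfl⟩ := hx
      obtain ⟨w, hw, e, rfl⟩ := hy
      refine ⟨v * (S.j d * w * (S.j d)⁻¹), mul_mem hv (D_norm_V S d w hw), d * e, ?_⟩
      rw [map_mul]
      group
    | inv x _ hx =>
      obtain ⟨v, hv, d, rfl⟩ := hx
      refine ⟨S.j d⁻¹ * v⁻¹ * (S.j d⁻¹)⁻¹, D_norm_V S d⁻¹ _ (inv_mem hv), d⁻¹, ?_⟩
      rw [map_inv]
      group
  · rintro ⟨v, hv, d, rfl⟩
    exact mul_mem (V_le_Gam S hv) (j_mem_Gam S d)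

/-- PROOF. `h (g d g⁻¹) h⁻¹ = (h g) d (h g)⁻¹`; closure induction. -/
theorem G_norm_Gam : ∀ g ∈ S.G, ∀ x ∈ S.Gam, g * x * g⁻¹ ∈ S.Gam := by
  intro g hg
  have h : S.Gam ≤ S.Gam.comap (MulAut.conj g).toMonoidHom := by
    conv_lhs => unfold Gam
    rw [Subgroup.closure_le]
    rintro x ⟨u, hu, d, rfl⟩
    change g * (u * S.j d * u⁻¹) * g⁻¹ ∈ S.Gam
    have h1 : g * (u * S.j d * u⁻¹) * g⁻¹ = (g * u) * S.j d * (g * u)⁻¹ := by group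
    rw [h1]
    exact Subgroup.subset_closure ⟨g * u, mul_mem hg hu, d, rfl⟩
  intro x hx
  exact h hx

/-- A subgroup of `G` containing `U` has finite index in `G`.
PROOF. By `syn` there is a finite set `F ⊆ G` such that for `g ∈ G` there is `f ∈ F` with `g f ∈ U ⊆ L`
(`g f ∈ G` as `f ∈ G`), so `g ∈ L f⁻¹`. So the elements `f⁻¹`, `f ∈ F`, represent all right cosets
`L g` of `L` in `G`. -/
theorem relIndex_of_U (L : Subgroup H) (hL : L ≤ S.G) (hU : S.U ⊆ L) : L.relIndex S.G ≠ 0 := by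
  obtain ⟨F, hF, hFG, hsyn⟩ := S.syn
  haveI : Finite F := hF
  have hsurj : Function.Surjective
      (fun f : F => (QuotientGroup.mk (⟨f.1, hFG f.2⟩ : S.G) : S.G ⧸ L.subgroupOf S.G)) := by
    intro x
    obtain ⟨g, rfl⟩ := QuotientGroup.mk_surjective x
    obtain ⟨f, hf, a, ha, c, hc, h⟩ := hsyn (g : H)⁻¹ (inv_mem g.2)
    refine ⟨⟨f, hf⟩, ?_⟩
    rw [QuotientGroup.eq]
    rw [Subgroup.mem_subgroupOf]
    have h1 : (g : H)⁻¹ * f ∈ L :=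
      hU ⟨mul_mem (inv_mem g.2) (hFG hf), a, ha, c, hc, h⟩
    have h2 : f⁻¹ * (g : H) ∈ L := by
      have := inv_mem h1
      simpa only [mul_inv_rev, inv_inv] using this
    exact h2
  haveI : Finite (S.G ⧸ L.subgroupOf S.G) := Finite.of_surjective _ hsurj
  unfold Subgroup.relIndex
  exact Subgroup.index_ne_zero_of_finite

end Core

end Pool.Agent.AP
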