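import Pool.Agent.AP.Defs

/-!
# A one-sided version of Ito's argument (module AP-Ito)
-/

set_option autoImplicit false

namespace Pool.Agent.AP

/-- `[α, d]` and `[β, e]` commute if `α ∈ A0`, `β ∈ A`, `d⁻¹ β ∈ A C`, `e⁻¹ α ∈ A0 C` and `A0` commutes
with `A`.
PROOF. `β = d x y`, so `β⁻¹ d β = y⁻¹ x⁻¹ d⁻¹ d β = y⁻¹ r` with `r = x⁻¹ β ∈ A`; `e⁻¹ α e = z (w e)`,
`w e ∈ C`. Write `κ = α d α⁻¹ d⁻¹`. Conjugating by `e⁻¹`: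
`e⁻¹ κ e = z (w e) d (w e)⁻¹ z⁻¹ d⁻¹ = z d z⁻¹ d⁻¹`; then by `β⁻¹` (`z` commutes with `β` and `r`):
`β⁻¹ (z d z⁻¹ d⁻¹) β = z (y⁻¹ r) z⁻¹ (y⁻¹ r)⁻¹ = z y⁻¹ z⁻¹ y`. In the other order:
`β⁻¹ κ β = α (y⁻¹ r) α⁻¹ (y⁻¹ r)⁻¹ = α y⁻¹ α⁻¹ y`, and `e⁻¹ (α y⁻¹ α⁻¹ y) e = z y⁻¹ z⁻¹ y` (`e` and `w`
commute with `y`). So `β e β⁻¹ e⁻¹` commutes with `κ`. -/
theorem ito {H : Type*} [Group H] {A A0 C : Subgroup H}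
    (cen : ∀ x ∈ A0, ∀ y ∈ A, x * y = y * x) (cC : ∀ x ∈ C, ∀ y ∈ C, x * y = y * x)
    {α β d e : H} (hd : d ∈ C) (he : e ∈ C) (hα : α ∈ A0) (hβ : β ∈ A)
    (h1 : ∃ x ∈ A, ∃ y ∈ C, d⁻¹ * β = x * y) (h2 : ∃ z ∈ A0, ∃ w ∈ C, e⁻¹ * α = z * w) :
    Commute (α * d * α⁻¹ * d⁻¹) (β * e * β⁻¹ * e⁻¹) := by
  obtain ⟨x, hx, y, hy, h1⟩ := h1
  obtain ⟨z, hz, w, hw, h2⟩ := h2
  -- Y X Y⁻¹ = X with X = [α,d], Y = [β,e] = β * (e β⁻¹ e⁻¹)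
  have e1 : β⁻¹ * e⁻¹ * (α * d * α⁻¹ * d⁻¹) * e * β = z * y⁻¹ * z⁻¹ * y := by
    have c1 : d⁻¹ * e = e * d⁻¹ := cC _ (inv_mem hd) _ he
    have c3 : β⁻¹ * z = z * β⁻¹ := (cen _ hz _ (inv_mem hβ)).symm
    have c2 : w * d = d * w := cC _ hw _ hd
    calc β⁻¹ * e⁻¹ * (α * d * α⁻¹ * d⁻¹) * e * β
        = β⁻¹ * (e⁻¹ * α) * d * α⁻¹ * (d⁻¹ * e) * β := by group
      _ = β⁻¹ * (e⁻¹ * α) * d * (e⁻¹ * α)⁻¹ * (d⁻¹ * β) := by rw [c1]; group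
      _ = β⁻¹ * (z * w) * d * (z * w)⁻¹ * (x * y) := by rw [h1, h2]
      _ = β⁻¹ * z * (w * d) * w⁻¹ * z⁻¹ * (x * y) := by group
      _ = z * β⁻¹ * d * z⁻¹ * (x * y) := by rw [c2, c3]; group
      _ = z * (d⁻¹ * β)⁻¹ * (z⁻¹ * x) * y := by group
      _ = z * (x * y)⁻¹ * (x * z⁻¹) * y := by rw [h1, cen _ (inv_mem hz) _ hx]
      _ = z * y⁻¹ * z⁻¹ * y := by group
  have e2 : e⁻¹ * β⁻¹ * (α * d * α⁻¹ * d⁻¹) * β * e = z * y⁻¹ * z⁻¹ * y := by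
    have c1 : β⁻¹ * α = α * β⁻¹ := (cen _ hα _ (inv_mem hβ)).symm
    have c4 : α⁻¹ * x = x * α⁻¹ := cen _ (inv_mem hα) _ hx
    have c5 : y * e = e * y := cC _ hy _ he
    have c6 : w * y⁻¹ = y⁻¹ * w := cC _ hw _ (inv_mem hy)
    calc e⁻¹ * β⁻¹ * (α * d * α⁻¹ * d⁻¹) * β * e
        = e⁻¹ * (β⁻¹ * α) * d * α⁻¹ * (d⁻¹ * β) * e := by group
      _ = e⁻¹ * (α * β⁻¹) * d * α⁻¹ * (x * y) * e := by rw [c1, h1]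
      _ = e⁻¹ * α * (d⁻¹ * β)⁻¹ * (α⁻¹ * x) * y * e := by group
      _ = e⁻¹ * α * (x * y)⁻¹ * (x * α⁻¹) * y * e := by rw [h1, c4]
      _ = (e⁻¹ * α) * y⁻¹ * α⁻¹ * (y * e) := by group
      _ = (e⁻¹ * α) * y⁻¹ * (e⁻¹ * α)⁻¹ * y := by rw [c5]; group
      _ = (z * w) * y⁻¹ * (z * w)⁻¹ * y := by rw [h2]
      _ = z * (w * y⁻¹) * w⁻¹ * z⁻¹ * y := by group
      _ = z * y⁻¹ * z⁻¹ * y := by rw [c6]; group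
  have e3 : β⁻¹ * e⁻¹ * (α * d * α⁻¹ * d⁻¹) * e * β
      = e⁻¹ * β⁻¹ * (α * d * α⁻¹ * d⁻¹) * β * e := e1.trans e2.symm
  -- so X commutes with (e β e⁻¹ β⁻¹) and conjugates
  have e4 : (α * d * α⁻¹ * d⁻¹) * (e * β * e⁻¹ * β⁻¹)
      = (e * β * e⁻¹ * β⁻¹) * (α * d * α⁻¹ * d⁻¹) := by
    have := congrArg (fun t => e * β * t * e⁻¹ * β⁻¹) e3
    calc (α * d * α⁻¹ * d⁻¹) * (e * β * e⁻¹ * β⁻¹)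
        = e * β * (β⁻¹ * e⁻¹ * (α * d * α⁻¹ * d⁻¹) * e * β) * e⁻¹ * β⁻¹ := by group
      _ = e * β * (e⁻¹ * β⁻¹ * (α * d * α⁻¹ * d⁻¹) * β * e) * e⁻¹ * β⁻¹ := this
      _ = (e * β * e⁻¹ * β⁻¹) * (α * d * α⁻¹ * d⁻¹) := by group
  have e5 : Commute (α * d * α⁻¹ * d⁻¹) (e * β * e⁻¹ * β⁻¹) := e4
  have e6 : β * e * β⁻¹ * e⁻¹ = (e * β * e⁻¹ * β⁻¹)⁻¹ := by group
  rw [e6]
  exact e5.inv_right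

end Pool.Agent.AP
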