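import Pool.Agent.AP.Rel

/-!
# `(r_e - r_f) [a0, c] = 0` (module AP-LinA)
-/

set_option autoImplicit false

namespace Pool.Agent.AP

open MonoidAlgebra

open Pool.Agent.AO (rR)

variable {H : Type*} [Group H] {𝔻 : Type*} [CommGroup 𝔻] {K Q : Type*} [Fintype K] [Fintype Q]

namespace TData

variable {S : FS H 𝔻 K Q} {M : Type*} [AddCommGroup M] (T : TData S M)

section LinAAux

private theorem linA_sub {γ : H} {v v' w w' : M} (h1 : γ * T.ι v * γ⁻¹ = T.ι v')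
    (h2 : γ * T.ι w * γ⁻¹ = T.ι w') : γ * T.ι (v - w) * γ⁻¹ = T.ι (v' - w') := by
  rw [T.ι_sub, T.ι_sub, ← h1, ← h2]
  group

/-- the subgroup of all `v` fixed by the conjugation by `γ` -/
private def linAFix (γ : H) : AddSubgroup M where
  carrier := {v | γ * T.ι v * γ⁻¹ = T.ι v}
  zero_mem' := by
    show γ * T.ι 0 * γ⁻¹ = T.ι 0
    rw [T.ι_zero]; group
  add_mem' := by
    intro v w hv hw
    show γ * T.ι (v + w) * γ⁻¹ = T.ι (v + w)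
    have hv' : γ * T.ι v * γ⁻¹ = T.ι v := hv
    have hw' : γ * T.ι w * γ⁻¹ = T.ι w := hw
    calc γ * T.ι (v + w) * γ⁻¹ = (γ * T.ι v * γ⁻¹) * (γ * T.ι w * γ⁻¹) := by
          rw [T.ι_add]; group
      _ = T.ι (v + w) := by rw [hv', hw', T.ι_add]
  neg_mem' := by
    intro v hv
    show γ * T.ι (-v) * γ⁻¹ = T.ι (-v)
    have hv' : γ * T.ι v * γ⁻¹ = T.ι v := hv
    calc γ * T.ι (-v) * γ⁻¹ = (γ * T.ι v * γ⁻¹)⁻¹ := by
          rw [T.ι_neg]; group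
      _ = T.ι (-v) := by rw [hv', T.ι_neg]

private theorem linA_fix_ρ {γ : H} (hγ : γ ∈ S.C) (d : 𝔻) {v : M} (hv : v ∈ linAFix T γ) :
    T.ρ d v ∈ linAFix T γ := by
  show γ * T.ι (T.ρ d v) * γ⁻¹ = T.ι (T.ρ d v)
  have hv' : γ * T.ι v * γ⁻¹ = T.ι v := hv
  have hc : γ * S.j d = S.j d * γ := S.cC _ hγ _ (S.jC d)
  have hc' : (S.j d)⁻¹ * γ⁻¹ = γ⁻¹ * (S.j d)⁻¹ := by
    rw [← mul_inv_rev, ← mul_inv_rev, hc]
  calc γ * T.ι (T.ρ d v) * γ⁻¹ = (γ * S.j d) * T.ι v * ((S.j d)⁻¹ * γ⁻¹) := by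
        rw [T.ρ_spec]; group
    _ = S.j d * (γ * T.ι v * γ⁻¹) * (S.j d)⁻¹ := by rw [hc, hc']; group
    _ = T.ι (T.ρ d v) := by rw [hv', T.ρ_spec]

private theorem linA_fix_Φ {γ : H} (hγ : γ ∈ S.C) (x : MonoidAlgebra ℤ 𝔻) {v : M}
    (hv : v ∈ linAFix T γ) : T.Φ x v ∈ linAFix T γ := by
  induction x using MonoidAlgebra.induction_on with
  | of g =>
    rw [T.Φ_of]
    exact linA_fix_ρ T hγ g hv
  | add f g hf hg =>
    rw [map_add, LinearMap.add_apply]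
    exact add_mem hf hg
  | smul r f hf =>
    rw [map_smul, LinearMap.smul_apply]
    exact zsmul_mem hf r

end LinAAux

/-- PROOF. Write `γ = β β'⁻¹`, `γ·v` for the conjugation by `γ` (a partial action on `V`; all
statements `γ·v = v'` mean `γ * ι v * γ⁻¹ = ι v'`), `c v = act c v`, `N v = a0 v - v`, and
`w = a0 (c v) - c (a0 v) = N (c v) - c (N v)`. Note that `c ∈ G1` (`C_G1`), `c` commutes with
`rr e`, `rr f` (`act_Φ_G1`), and `γ c = c γ` in `H`.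
(1) `γ·(P_f v) = P_e v` (`gamma_one`), so conjugating with `c`:
`γ·(c (P_f v)) = c (P_e v)`. Also `γ·(P_f (c v)) = P_e (c v)`. Subtract (additivity):
`γ·(r_f w) = r_e w`, since `P_f (c v) - c (P_f v) = r_f (N (c v)) - c (r_f (N v)) = r_f w`.
(2) By `gamma_three` with `a = a0`: `γ·(a0 (r_f w)) = a0 (r_e w)`, i.e. (`act_rr_A`)
`γ·(r_f (a0 w)) = r_e (a0 w)`. Subtract (1): `γ·(r_f (N w)) = r_e (N w)`.
(3) `gamma_one` for `w`: `γ·(w + r_f (N w)) = w + r_e (N w)`. Subtract (2): `γ·w = w`.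
(4) `γ ∈ C` commutes with `j 𝔻`, so the set of `v` with `γ·v = v` is invariant under `ρ`, hence
under `Φ` (an additive subgroup invariant under all `ρ d` is invariant under `Φ x`; induction on
`x`), so `γ·(r_f w) = r_f w`. Compare with (1): `r_e w = r_f w` (`ι_inj`). -/
theorem lin {a0 : H} (ha0A : a0 ∈ S.A0) (ha0 : a0 ∈ T.G1) {e f : 𝔻} {x y : M}
    (hX : T.XId a0 e x) (hY : T.XId a0 f y)
    {α β α' β' : H} (hα : α * α'⁻¹ ∈ S.A0)
    (hx : T.ι x = α * β⁻¹) (hy : T.ι y = α' * β'⁻¹) (hγ : β * β'⁻¹ ∈ S.C)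
    {c : H} (hc : c ∈ S.C) (hcG : c ∈ S.G) (v : M) :
    T.rr e (T.act a0 (T.act c v) - T.act c (T.act a0 v))
      = T.rr f (T.act a0 (T.act c v) - T.act c (T.act a0 v)) := by
  have ha0G : a0 ∈ S.G := T.G1_le ha0
  have hcG1 : c ∈ T.G1 := T.C_G1 c hc hcG
  set γ : H := β * β'⁻¹ with hγdef
  have hg1 : ∀ v : M, γ * T.ι (T.PP a0 f v) * γ⁻¹ = T.ι (T.PP a0 e v) := fun v =>
    T.gamma_one hX hY hα hx hy hγ v
  set w : M := T.act a0 (T.act c v) - T.act c (T.act a0 v) with hw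
  -- conjugation by `c`
  have hconj : ∀ {u u' : M}, γ * T.ι u * γ⁻¹ = T.ι u' →
      γ * T.ι (T.act c u) * γ⁻¹ = T.ι (T.act c u') := by
    intro u u' h
    have hcc : γ * c = c * γ := S.cC _ hγ _ hc
    have hcc' : c⁻¹ * γ⁻¹ = γ⁻¹ * c⁻¹ := by
      rw [← mul_inv_rev, ← mul_inv_rev, hcc]
    calc γ * T.ι (T.act c u) * γ⁻¹ = (γ * c) * T.ι u * (c⁻¹ * γ⁻¹) := by
          rw [T.act_spec c hcG]; group
      _ = c * (γ * T.ι u * γ⁻¹) * c⁻¹ := by rw [hcc, hcc']; group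
      _ = T.ι (T.act c u') := by rw [h, T.act_spec c hcG]
  have hdiff : ∀ k : 𝔻, T.PP a0 k (T.act c v) - T.act c (T.PP a0 k v) = T.rr k w := by
    intro k
    have h1 : T.act c (T.rr k (T.act a0 v - v)) = T.rr k (T.act c (T.act a0 v - v)) :=
      T.act_Φ_G1 hcG1 _ _
    rw [PP, PP, map_add, h1, hw]
    have h2 : T.act a0 (T.act c v) - T.act c (T.act a0 v)
        = (T.act a0 (T.act c v) - T.act c v) - T.act c (T.act a0 v - v) := by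
      rw [map_sub]; abel
    rw [h2, map_sub (T.rr k) (T.act a0 (T.act c v) - T.act c v)]
    abel
  have e1 : γ * T.ι (T.rr f w) * γ⁻¹ = T.ι (T.rr e w) := by
    rw [← hdiff f, ← hdiff e]
    exact linA_sub T (hg1 (T.act c v)) (hconj (hg1 v))
  have e2 : γ * T.ι (T.rr f (T.act a0 w)) * γ⁻¹ = T.ι (T.rr e (T.act a0 w)) := by
    rw [← T.act_rr_A (S.hAA ha0A) ha0G f w, ← T.act_rr_A (S.hAA ha0A) ha0G e w]
    exact T.gamma_three hα hx hy e1 (S.hAA ha0A) ha0G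
  have e3 : γ * T.ι (T.rr f (T.act a0 w - w)) * γ⁻¹ = T.ι (T.rr e (T.act a0 w - w)) := by
    rw [map_sub (T.rr f) (T.act a0 w) w, map_sub (T.rr e) (T.act a0 w) w]
    exact linA_sub T e2 e1
  have e4 : γ * T.ι w * γ⁻¹ = T.ι w := by
    have h := linA_sub T (hg1 w) e3
    have h1 : T.PP a0 f w - T.rr f (T.act a0 w - w) = w := by rw [PP]; abel
    have h2 : T.PP a0 e w - T.rr e (T.act a0 w - w) = w := by rw [PP]; abel
    rwa [h1, h2] at h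
  have e5 : γ * T.ι (T.rr f w) * γ⁻¹ = T.ι (T.rr f w) :=
    linA_fix_Φ T hγ (rR T.σ f) (v := w) e4
  exact T.ι_inj (e1.symm.trans e5)

/-- PROOF. For every `e : 𝔻` choose `x e` with `XId a0 e (x e)` (`exists_xe`), write
`ι (x e) = α e * b' e` (`hAB`), `b' e ∈ B`, put `β e = (b' e)⁻¹`, and let `κ e` be the `q` with
`(t q)⁻¹ * b' e ∈ C` (`hT`). If `κ e = κ f = q` then `b' e = t q c`, `b' f = t q c'`, so
`β e * (β f)⁻¹ = (b' e)⁻¹ * b' f = c⁻¹ * c' ∈ C`. Use `lin`. -/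
theorem exists_kappa {a0 : H} (ha0A : a0 ∈ S.A0) (ha0 : a0 ∈ T.G1) :
    ∃ κ : 𝔻 → K × Q, ∀ e f, κ e = κ f → ∀ c ∈ S.C, c ∈ S.G → ∀ v : M,
      T.rr e (T.act a0 (T.act c v) - T.act c (T.act a0 v))
        = T.rr f (T.act a0 (T.act c v) - T.act c (T.act a0 v)) := by
  choose x hx using fun e : 𝔻 => T.exists_xe ha0A ha0 e
  have h1 : ∀ e : 𝔻, ∃ a ∈ S.A, ∃ b ∈ S.B, T.ι (x e) = a * b := fun e => S.hAB _
  choose α hα b hb hab using h1
  have h2 : ∀ e : 𝔻, ∃ q, (S.t q)⁻¹ * b e ∈ S.C := fun e => (S.hT (b e) (hb e)).exists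
  choose κ hκ using h2
  have h3 : ∀ e : 𝔻, ∃ k, α e * (S.s k)⁻¹ ∈ S.A0 := fun e => S.hS (α e) (hα e)
  choose κ' hκ' using h3
  refine ⟨fun e => (κ' e, κ e), fun e f hef c hc hcG v => ?_⟩
  have hef1 : κ' e = κ' f := (Prod.ext_iff.1 hef).1
  have hef2 : κ e = κ f := (Prod.ext_iff.1 hef).2
  have hγ : (b e)⁻¹ * ((b f)⁻¹)⁻¹ ∈ S.C := by
    have h3 := S.C.mul_mem (S.C.inv_mem (hκ e)) (hκ f)
    rw [← hef2] at h3
    have h4 : ((S.t (κ e))⁻¹ * b e)⁻¹ * ((S.t (κ e))⁻¹ * b f) = (b e)⁻¹ * ((b f)⁻¹)⁻¹ := by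
      group
    rwa [h4] at h3
  have hα0 : α e * (α f)⁻¹ ∈ S.A0 := by
    have h3 := S.A0.mul_mem (hκ' e) (S.A0.inv_mem (hκ' f))
    rw [← hef1] at h3
    have h4 : α e * (S.s (κ' e))⁻¹ * (α f * (S.s (κ' e))⁻¹)⁻¹ = α e * (α f)⁻¹ := by
      group
    rwa [h4] at h3
  refine T.lin ha0A ha0 (hx e) (hx f) hα0
    ?_ ?_ hγ hc hcG v
  · rw [inv_inv]; exact hab e
  · rw [inv_inv]; exact hab f

end TData

end Pool.Agent.AP
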