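import Pool.Agent.AP.Defs

/-!
# The ultrapower of an infinite prime factorised group (module AP-Los)
-/

set_option autoImplicit false

namespace Pool.Agent.AP

open Filter

open Pool.Agent.AO (UP starSub cst)

/-- Finite relative index passes to ultrapowers. -/
private theorem losRelIndex {I : Type*} (𝒰 : Ultrafilter I) {G : Type*} [Group G]
    {A₀ A : Subgroup G} (h : A₀.relIndex A ≠ 0) :
    (starSub 𝒰 A₀).relIndex (starSub 𝒰 A) ≠ 0 := by
  have hfin : Finite (A ⧸ A₀.subgroupOf A) := by
    refine Nat.finite_of_card_ne_zero ?_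
    exact h
  let F : (A ⧸ A₀.subgroupOf A) → (starSub 𝒰 A ⧸ (starSub 𝒰 A₀).subgroupOf (starSub 𝒰 A)) :=
    fun q => QuotientGroup.mk
      ⟨cst 𝒰 G (q.out : G), Eventually.of_forall fun _ => (Quotient.out q).2⟩
  have hF : Function.Surjective F := by
    intro y
    induction y using QuotientGroup.induction_on with | _ y
    obtain ⟨x, hx⟩ := y
    induction x using Germ.inductionOn with | _ f
    have hf : ∀ᶠ i in (𝒰 : Filter I), f i ∈ A := hx
    obtain ⟨q, hq⟩ := Pool.Agent.AO.exists_of_eventually_exists 𝒰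
      (Q := A ⧸ A₀.subgroupOf A) (P := fun i q => ((Quotient.out q : A) : G)⁻¹ * f i ∈ A₀) (by
        filter_upwards [hf] with i hi
        refine ⟨QuotientGroup.mk ⟨f i, hi⟩, ?_⟩
        have h1 : (QuotientGroup.mk (s := A₀.subgroupOf A)
            (Quotient.out (QuotientGroup.mk (s := A₀.subgroupOf A) ⟨f i, hi⟩)))
            = QuotientGroup.mk (s := A₀.subgroupOf A) ⟨f i, hi⟩ := Quotient.out_eq' _
        have h2 := QuotientGroup.eq.1 h1
        exact Subgroup.mem_subgroupOf.1 h2)
    refine ⟨q, ?_⟩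
    refine QuotientGroup.eq.2 (Subgroup.mem_subgroupOf.2 ?_)
    exact hq
  have hfin2 : Finite (starSub 𝒰 A ⧸ (starSub 𝒰 A₀).subgroupOf (starSub 𝒰 A)) :=
    Finite.of_surjective F hF
  have h3 : Nat.card (starSub 𝒰 A ⧸ (starSub 𝒰 A₀).subgroupOf (starSub 𝒰 A)) ≠ 0 :=
    Nat.card_pos.ne'
  exact h3

/-- The properties collected in `PF` pass to ultrapowers.
PROOF. All fields are checked on representatives (`Germ.inductionOn`, `filter_upwards`, see the
proof of `Pre.ultra` in `Pool/Agent/AO/Ultra.lean`). `prime`: if `x, y ≠ 1` are germs of `f, g` then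
for almost all `i`: `f i ≠ 1`, `g i ≠ 1` (`Ultrafilter.eventually_not`), so there is `k i` such that
`f i` and `k i g i (k i)⁻¹` do not commute. `inf`: `AO.cst_injective`. `finA`, `fin`: if
`T` is a finite set of representatives of the left cosets of `A₀` in `A` then the `cst` of its elements
represent all left cosets of `starSub A₀` in `starSub A` (`AO.exists_of_eventually_exists`). -/
theorem PF.ultra {I : Type*} (𝒰 : Ultrafilter I) {G : Type*} [Group G] {A A₀ B C : Subgroup G}
    (P : PF A A₀ B C) : PF (starSub 𝒰 A) (starSub 𝒰 A₀) (starSub 𝒰 B) (starSub 𝒰 C) := by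
  refine
    { prime := ?_
      inf := ?_
      hAA := ?_
      cen := ?_
      finA := losRelIndex 𝒰 P.finA
      cC := ?_
      hCB := ?_
      nC := ?_
      fin := losRelIndex 𝒰 P.fin
      hAB := ?_ }
  · intro x y hx hy
    induction x using Germ.inductionOn with | _ f
    induction y using Germ.inductionOn with | _ g
    have h1 : ∀ᶠ i in (𝒰 : Filter I), ¬ f i = 1 :=
      Ultrafilter.eventually_not.2 fun h => hx (Germ.coe_eq.2 h)
    have h2 : ∀ᶠ i in (𝒰 : Filter I), ¬ g i = 1 :=
      Ultrafilter.eventually_not.2 fun h => hy (Germ.coe_eq.2 h)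
    classical
    let k : I → G := fun i =>
      if h : ¬ f i = 1 ∧ ¬ g i = 1 then Classical.choose (P.prime (f i) (g i) h.1 h.2) else 1
    refine ⟨((k : I → G) : (𝒰 : Filter I).Germ G), fun hc => ?_⟩
    have hc' : ∀ᶠ i in (𝒰 : Filter I),
        f i * (k i * g i * (k i)⁻¹) = (k i * g i * (k i)⁻¹) * f i := Germ.coe_eq.1 hc
    obtain ⟨i, ⟨h3, h4⟩, h5⟩ := ((h1.and h2).and hc').exists
    have hk : k i = Classical.choose (P.prime (f i) (g i) h3 h4) := dif_pos ⟨h3, h4⟩
    have h6 := Classical.choose_spec (P.prime (f i) (g i) h3 h4)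
    rw [← hk] at h6
    exact h6 h5
  · have := P.inf
    exact Infinite.of_injective _ (Pool.Agent.AO.cst_injective 𝒰)
  · intro x hx
    induction x using Germ.inductionOn with | _ f
    have hf : ∀ᶠ i in (𝒰 : Filter I), f i ∈ A₀ := hx
    exact hf.mono fun i hi => P.hAA hi
  · intro x hx y hy
    induction x using Germ.inductionOn with | _ f
    induction y using Germ.inductionOn with | _ g
    have hf : ∀ᶠ i in (𝒰 : Filter I), f i ∈ A₀ := hx
    have hg : ∀ᶠ i in (𝒰 : Filter I), g i ∈ A := hy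
    exact Germ.coe_eq.2 (by
      filter_upwards [hf, hg] with i h1 h2 using P.cen _ h1 _ h2)
  · intro x hx y hy
    induction x using Germ.inductionOn with | _ f
    induction y using Germ.inductionOn with | _ g
    have hf : ∀ᶠ i in (𝒰 : Filter I), f i ∈ C := hx
    have hg : ∀ᶠ i in (𝒰 : Filter I), g i ∈ C := hy
    exact Germ.coe_eq.2 (by
      filter_upwards [hf, hg] with i h1 h2 using P.cC _ h1 _ h2)
  · intro x hx
    induction x using Germ.inductionOn with | _ f
    have hf : ∀ᶠ i in (𝒰 : Filter I), f i ∈ C := hx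
    exact hf.mono fun i hi => P.hCB hi
  · intro b hb c hc
    induction b using Germ.inductionOn with | _ f
    induction c using Germ.inductionOn with | _ g
    have hf : ∀ᶠ i in (𝒰 : Filter I), f i ∈ B := hb
    have hg : ∀ᶠ i in (𝒰 : Filter I), g i ∈ C := hc
    change ∀ᶠ i in (𝒰 : Filter I), f i * g i * (f i)⁻¹ ∈ C
    filter_upwards [hf, hg] with i h1 h2 using P.nC _ h1 _ h2
  · intro h
    induction h using Germ.inductionOn with | _ f
    have h1 : ∀ i, ∃ a ∈ A, ∃ b ∈ B, f i = a * b := fun i => P.hAB (f i)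
    choose a ha b hb hab using h1
    exact ⟨((a : I → G) : (𝒰 : Filter I).Germ G), Eventually.of_forall ha,
      ((b : I → G) : (𝒰 : Filter I).Germ G), Eventually.of_forall hb,
      Germ.coe_eq.2 (Eventually.of_forall hab)⟩

/-- If `C` does not have bounded exponent then the ultrapower over a hyperfilter on `ℕ` has an
element of infinite order in its `C`.
PROOF. Copy `AO.exists_infinite_order` (`Pool/Agent/AO/UltraTwo.lean`). -/
theorem exists_infinite_order {G : Type*} [Group G] {C : Subgroup G}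
    (h : ∀ n : ℕ, 0 < n → ∃ c ∈ C, c ^ n ≠ 1) :
    ∃ y ∈ starSub (hyperfilter ℕ) C, ∀ m : ℕ, 0 < m → y ^ m ≠ 1 := by
  choose y hyC hy using fun n : ℕ => h n.factorial n.factorial_pos
  refine ⟨((y : ℕ → G) : ((hyperfilter ℕ : Ultrafilter ℕ) : Filter ℕ).Germ G), ?_, ?_⟩
  · change ∀ᶠ i in ((hyperfilter ℕ : Ultrafilter ℕ) : Filter ℕ), y i ∈ C
    exact Eventually.of_forall hyC
  · intro m hm heq
    have h1 : ∀ᶠ i in ((hyperfilter ℕ : Ultrafilter ℕ) : Filter ℕ), (y i) ^ m = 1 :=
      Germ.coe_eq.1 heq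
    have h2 : ∀ᶠ i in ((hyperfilter ℕ : Ultrafilter ℕ) : Filter ℕ), m ≤ i :=
      Nat.hyperfilter_le_atTop (eventually_ge_atTop m)
    obtain ⟨i, hi1, hi2⟩ := (h1.and h2).exists
    apply hy i
    obtain ⟨k, hk⟩ := Nat.dvd_factorial hm hi2
    rw [hk, pow_mul, hi1, one_pow]

end Pool.Agent.AP
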