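import Pool.Agent.AP.NoPrime
import Pool.Agent.AO.Reduction

/-!
# The theorem (module AP-Main)
-/

set_option autoImplicit false

universe u

namespace Pool.Agent.AP

open Pool.Agent.AO (PrimeGrp VirtSol reduction)

/-- The class of groups used in `main`: `C` commutative and of finite index in some `B`, and `A₀` central
and of finite index in some `A`, with `G = A B`. -/
private def MainClass (G : Type u) [Group G] (A₀ C : Subgroup G) : Prop :=
  (∀ x ∈ C, ∀ y ∈ C, x * y = y * x) ∧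
    ∃ A B : Subgroup G, A₀ ≤ A ∧ A₀.relIndex A ≠ 0 ∧ (∀ x ∈ A₀, ∀ y ∈ A, x * y = y * x) ∧
      C ≤ B ∧ C.relIndex B ≠ 0 ∧ ∀ g : G, ∃ a ∈ A, ∃ b ∈ B, g = a * b

private theorem relIndex_map_ne {G : Type u} [Group G] (N : Subgroup G) [N.Normal]
    (C B : Subgroup G) (hfin : C.relIndex B ≠ 0) :
    (C.map (QuotientGroup.mk' N)).relIndex (B.map (QuotientGroup.mk' N)) ≠ 0 := by
  have h1 : (C.map (QuotientGroup.mk' N)).relIndex (B.map (QuotientGroup.mk' N)) ∣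
      C.relIndex B := by
    refine dvd_trans (Subgroup.index_dvd_of_le (H := (C.subgroupOf B).map
      ((QuotientGroup.mk' N).subgroupMap B)) ?_)
      ((C.subgroupOf B).index_map_dvd ((QuotientGroup.mk' N).subgroupMap_surjective B))
    rintro _ ⟨x, hx, rfl⟩
    exact Subgroup.mem_subgroupOf.mpr ⟨x, Subgroup.mem_subgroupOf.mp hx, rfl⟩
  exact fun h0 => hfin (by simpa [h0] using h1)

private theorem mainClass_quot (G : Type u) [Group G] (A₀ C : Subgroup G)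
    (h : MainClass G A₀ C) (N : Subgroup G) [N.Normal] :
    MainClass (G ⧸ N) (A₀.map (QuotientGroup.mk' N)) (C.map (QuotientGroup.mk' N)) := by
  obtain ⟨hC, A, B, hAA, hfinA, cen, hCB, hfin, hAB⟩ := h
  refine ⟨?_, A.map (QuotientGroup.mk' N), B.map (QuotientGroup.mk' N), Subgroup.map_mono hAA,
    relIndex_map_ne N A₀ A hfinA, ?_, Subgroup.map_mono hCB, relIndex_map_ne N C B hfin, ?_⟩
  · rintro _ ⟨x, hx, rfl⟩ _ ⟨y, hy, rfl⟩
    rw [← map_mul, ← map_mul, hC x hx y hy]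
  · rintro _ ⟨x, hx, rfl⟩ _ ⟨y, hy, rfl⟩
    rw [← map_mul, ← map_mul, cen x hx y hy]
  · intro g
    obtain ⟨g, rfl⟩ := QuotientGroup.mk'_surjective N g
    obtain ⟨a, ha, b, hb, rfl⟩ := hAB g
    exact ⟨_, ⟨a, ha, rfl⟩, _, ⟨b, hb, rfl⟩, map_mul _ _ _⟩

/-- Finitely many right representatives: every `b ∈ B` is `t * c` with `t ∈ T`, `c ∈ C`. -/
private theorem exists_reps {G : Type u} [Group G] {C B : Subgroup G} (hfin : C.relIndex B ≠ 0) :
    ∃ T : Finset G, ∀ b ∈ B, ∃ t ∈ T, t⁻¹ * b ∈ C := by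
  classical
  have : (C.subgroupOf B).FiniteIndex := ⟨hfin⟩
  have : Finite (B ⧸ C.subgroupOf B) := Subgroup.finite_quotient_of_finiteIndex
  have : Fintype (B ⧸ C.subgroupOf B) := Fintype.ofFinite _
  refine ⟨Finset.univ.image (fun q : B ⧸ C.subgroupOf B => (q.out : G)), fun b hb => ?_⟩
  have h1 : ((QuotientGroup.mk (s := C.subgroupOf B) (⟨b, hb⟩ : B)).out)⁻¹ * (⟨b, hb⟩ : B) ∈
      C.subgroupOf B := by
    rw [← QuotientGroup.eq, QuotientGroup.out_eq']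
  exact ⟨_, Finset.mem_image_of_mem _ (Finset.mem_univ
    (QuotientGroup.mk (s := C.subgroupOf B) (⟨b, hb⟩ : B))), Subgroup.mem_subgroupOf.mp h1⟩

private theorem mainClass_fin (G : Type u) [Group G] (A₀ C : Subgroup G) (h : MainClass G A₀ C) :
    ∃ T : Finset G, ∀ g : G, ∃ a ∈ A₀, ∃ t ∈ T, ∃ c ∈ C, g = a * t * c := by
  classical
  obtain ⟨hC, A, B, hAA, hfinA, cen, hCB, hfin, hAB⟩ := h
  obtain ⟨T, hT⟩ := exists_reps hfin
  obtain ⟨S, hS⟩ := exists_reps hfinA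
  refine ⟨(S ×ˢ T).image (fun p => p.1⁻¹ * p.2), fun g => ?_⟩
  obtain ⟨a, ha, b, hb, rfl⟩ := hAB g
  obtain ⟨t, ht, htc⟩ := hT b hb
  obtain ⟨s, hs, hsa⟩ := hS a⁻¹ (inv_mem ha)
  have h2 : a * s ∈ A₀ := by
    have h3 := inv_mem hsa
    rwa [mul_inv_rev, inv_inv, inv_inv] at h3
  refine ⟨a * s, h2, s⁻¹ * t, Finset.mem_image.mpr ⟨(s, t), Finset.mem_product.mpr ⟨hs, ht⟩, rfl⟩,
    t⁻¹ * b, htc, ?_⟩
  group

/-- PROOF. As `AO.main` (`Pool/Agent/AO/Main.lean`): apply `reduction` to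
`K G A₀ C := C commutative ∧ ∃ A B, A₀ ≤ A ∧ A₀.relIndex A ≠ 0 ∧ A₀ commutes with A ∧
C ≤ B ∧ C.relIndex B ≠ 0 ∧ ∀ g, ∃ a ∈ A, ∃ b ∈ B, g = a * b`.
`hfin`: products of representatives of the right cosets of `A₀` in `A` and of the left cosets of `C` in
`B`. `hprime`: `no_prime`. -/
theorem main (G : Type u) [Group G] (A B : Subgroup G)
    (hAB : ∀ g : G, ∃ a ∈ A, ∃ b ∈ B, g = a * b)
    (hA : ∃ Z : Subgroup G, Z ≤ A ∧ (Z.subgroupOf A).FiniteIndex ∧
      ∀ x ∈ Z, ∀ y ∈ A, x * y = y * x)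
    (hB : ∃ K : Subgroup G, K ≤ B ∧ (K.subgroupOf B).FiniteIndex ∧
      ∀ x ∈ K, ∀ y ∈ K, x * y = y * x) :
    ∃ S : Subgroup G, S.FiniteIndex ∧ IsSolvable S := by
  obtain ⟨A₀, hAA, hfinA, cen⟩ := hA
  obtain ⟨C, hCB, hfin, hC⟩ := hB
  have hcl : MainClass G A₀ C :=
    ⟨hC, A, B, hAA, hfinA.index_ne_zero, cen, hCB, hfin.index_ne_zero, hAB⟩
  exact reduction (fun G [Group G] A C => MainClass G A C)
    (fun G _ A C h N _ => mainClass_quot G A C h N)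
    (fun G _ A₀ C h => by
      obtain ⟨_, A, B, hAA, _, cen, _⟩ := h
      exact fun x hx y hy => cen x hx y (hAA hy))
    (fun G _ A C h => h.1) (fun G _ A C h => mainClass_fin G A C h)
    (fun G _ A₀ C h hp hi => by
      obtain ⟨hC, A, B, hAA, hfinA, cen, hCB, hfin, hAB⟩ := h
      exact no_prime hp hi hAA cen hfinA hC hCB hfin hAB) G A₀ C hcl

end Pool.Agent.AP
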