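import Pool.Agent.AO.PrimeSol

/-!
# Normal subgroups of finite-index subgroups of prime groups (module AP-Small)
-/

set_option autoImplicit false

namespace Pool.Agent.AP

open Pool.Agent.AO (PrimeGrp VirtSol)

/-- PROOF. Let `x ∈ N`. The conjugates `g x g⁻¹`, `g ∈ G`, form a finite set: `L` normalises the finite set
`N` and has finite index in `G` (`G = ⋃ g_i L`, so every conjugate of `x` is in the finite set
`⋃ g_i N g_i⁻¹`). So `x` has a centraliser of finite index in `G` and so has the centraliser `E` of the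
finite set of all conjugates of `x`; `E` is normal in `G` and infinite; let `y ≠ 1` in `E`. Then `x` commutes
with all conjugates of `y` (they are in `E`), so `x = 1` by `h`. -/
theorem finite_of_finiteIndex {G : Type*} [Group G] [Infinite G] (h : PrimeGrp G)
    (L : Subgroup G) (hL : L.index ≠ 0) (N : Subgroup G) (hNL : N ≤ L)
    (hn : ∀ g ∈ L, ∀ x ∈ N, g * x * g⁻¹ ∈ N) (hN : (N : Set G).Finite) : N = ⊥ := by
  have hfN : Finite N := hN.to_subtype
  rw [Subgroup.eq_bot_iff_forall]
  intro x hx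
  by_contra hx1
  set Z : Subgroup G := Subgroup.centralizer {x} with hZ
  have hZmem : ∀ g : G, g ∈ Z ↔ x * g = g * x := fun g => by
    rw [hZ, Subgroup.mem_centralizer_singleton_iff]
    exact eq_comm
  -- the centraliser has finite index
  have h1 : Z.relIndex L ≠ 0 := by
    let f : (↥L ⧸ Z.subgroupOf L) → N := fun q =>
      Quotient.liftOn' q (fun l : ↥L => (⟨(l : G) * x * (l : G)⁻¹, hn _ l.2 x hx⟩ : N)) (by
        intro a b hab
        rw [QuotientGroup.leftRel_apply] at hab
        have h2 : ((a⁻¹ * b : ↥L) : G) ∈ Z := hab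
        rw [hZmem] at h2
        apply Subtype.ext
        show (a : G) * x * (a : G)⁻¹ = (b : G) * x * (b : G)⁻¹
        have h3 : x * ((a : G)⁻¹ * (b : G)) = ((a : G)⁻¹ * (b : G)) * x := h2
        calc (a : G) * x * (a : G)⁻¹ = (a : G) * (x * ((a : G)⁻¹ * (b : G))) * (b : G)⁻¹ := by group
          _ = (a : G) * (((a : G)⁻¹ * (b : G)) * x) * (b : G)⁻¹ := by rw [h3]
          _ = (b : G) * x * (b : G)⁻¹ := by group)
    have hf : Function.Injective f := by
      intro q r
      induction q using QuotientGroup.induction_on with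
      | H a =>
        induction r using QuotientGroup.induction_on with
        | H b =>
          intro hab
          have h2 : (a : G) * x * (a : G)⁻¹ = (b : G) * x * (b : G)⁻¹ := congrArg Subtype.val hab
          apply (QuotientGroup.eq).2
          show ((a⁻¹ * b : ↥L) : G) ∈ Z
          rw [hZmem]
          show x * ((a : G)⁻¹ * (b : G)) = ((a : G)⁻¹ * (b : G)) * x
          calc x * ((a : G)⁻¹ * (b : G)) = (a : G)⁻¹ * ((a : G) * x * (a : G)⁻¹) * (b : G) := by
                group
            _ = (a : G)⁻¹ * ((b : G) * x * (b : G)⁻¹) * (b : G) := by rw [h2]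
            _ = ((a : G)⁻¹ * (b : G)) * x := by group
    have : Finite (↥L ⧸ Z.subgroupOf L) := Finite.of_injective f hf
    have h4 : (Z.subgroupOf L).FiniteIndex := Subgroup.finiteIndex_of_finite_quotient
    exact h4.index_ne_zero
  have h2 : Z.FiniteIndex := by
    constructor
    intro h0
    have h3 : (Z ⊓ L).index ≠ 0 := by
      rw [← Subgroup.relIndex_mul_index (inf_le_right : Z ⊓ L ≤ L), Subgroup.inf_relIndex_right]
      exact Nat.mul_ne_zero h1 hL
    have h4 : Z.index ∣ (Z ⊓ L).index := Subgroup.index_dvd_of_le inf_le_left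
    rw [h0] at h4
    exact h3 (zero_dvd_iff.mp h4)
  have hE : Z.normalCore ≠ ⊥ := by
    intro h3
    have h4 : Z.normalCore.FiniteIndex := inferInstance
    rw [h3] at h4
    have h5 : Nat.card G ≠ 0 := by
      rw [← Subgroup.index_bot]
      exact h4.index_ne_zero
    have : Finite G := Nat.finite_of_card_ne_zero h5
    exact not_finite G
  obtain ⟨⟨y, hy⟩, hy1'⟩ := (Subgroup.ne_bot_iff_exists_ne_one).1 hE
  have hy1 : y ≠ 1 := fun h0 => hy1' (Subtype.ext h0)
  obtain ⟨g, hg⟩ := h x y hx1 hy1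
  apply hg
  have h3 : g * y * g⁻¹ ∈ Z := hy g
  exact (hZmem _).1 h3

/-- PROOF. Let `L0` be the normal core of `L` in `G`, of finite index. `N0 = N ⊓ L0` is abelian and
normalised by `L`. The conjugates `g N0 g⁻¹` are abelian normal subgroups of `L0` (`L0` is normal in
`G`), there are finitely many (they depend on the coset `g L`). Their join `J` is normal in `G`, and it
is soluble (`AO.isSolvable_sup` in the group `↥L0`, induction over the finite set of conjugates). So
`J = ⊥` by `PrimeGrp.solvable` and `N0 = ⊥`. So `N` is finite (`N` embeds into `G ⧸ L0`), so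
`N = ⊥` by `finite_of_finiteIndex`. -/
theorem abelian_of_finiteIndex {G : Type*} [Group G] [Infinite G] (h : PrimeGrp G)
    (L : Subgroup G) (hL : L.index ≠ 0) (N : Subgroup G) (hNL : N ≤ L)
    (hn : ∀ g ∈ L, ∀ x ∈ N, g * x * g⁻¹ ∈ N) (hab : ∀ x ∈ N, ∀ y ∈ N, x * y = y * x) :
    N = ⊥ := by
  have hLf : L.FiniteIndex := ⟨hL⟩
  have hfin : Finite (G ⧸ L) := Subgroup.finite_quotient_of_finiteIndex
  have hL0f : L.normalCore.FiniteIndex := inferInstance
  have hfin0 : Finite (G ⧸ L.normalCore) := Subgroup.finite_quotient_of_finiteIndex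
  have hL0L : L.normalCore ≤ L := L.normalCore_le
  have hnor : ∀ g : G, ∀ x ∈ L.normalCore, g * x * g⁻¹ ∈ L.normalCore := fun g x hx =>
    Subgroup.Normal.conj_mem inferInstance x hx g
  have hn0 : ∀ g ∈ L, ∀ x ∈ N ⊓ L.normalCore, g * x * g⁻¹ ∈ N ⊓ L.normalCore := fun g hg x hx =>
    ⟨hn g hg x hx.1, hnor g x hx.2⟩
  -- the set of all cosets `g L` with `x ∈ g N0 g⁻¹`
  let I : G → Set (G ⧸ L) := fun x => {q | ∃ g : G, (g : G ⧸ L) = q ∧
    g⁻¹ * x * g ∈ N ⊓ L.normalCore}
  have hI : ∀ x g : G, (g : G ⧸ L) ∈ I x ↔ g⁻¹ * x * g ∈ N ⊓ L.normalCore := by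
    intro x g
    constructor
    · rintro ⟨g', hg', hx'⟩
      have h1 : g'⁻¹ * g ∈ L := (QuotientGroup.eq).1 hg'
      have h2 := hn0 _ (L.inv_mem h1) _ hx'
      have h3 : (g'⁻¹ * g)⁻¹ * (g'⁻¹ * x * g') * ((g'⁻¹ * g)⁻¹)⁻¹ = g⁻¹ * x * g := by group
      rwa [h3] at h2
    · intro hx
      exact ⟨g, rfl, hx⟩
  have hIfin : ∀ x, (I x).Finite := fun x => Set.toFinite _
  have hIle : ∀ x, (I x).ncard ≤ Nat.card (G ⧸ L) := fun x => Set.ncard_le_card _
  have hL0 : ∀ x, (I x).Nonempty → x ∈ L.normalCore := by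
    rintro x ⟨q, g, hg, hx⟩
    have h1 := hnor g _ hx.2
    have h2 : g * (g⁻¹ * x * g) * g⁻¹ = x := by group
    rwa [h2] at h1
  have hconj : ∀ k x : G, I (k * x * k⁻¹) = (fun q : G ⧸ L => k • q) '' I x := by
    intro k x
    ext q
    constructor
    · rintro ⟨g, hg, hx⟩
      refine ⟨((k⁻¹ * g : G) : G ⧸ L), (hI _ _).2 ?_, ?_⟩
      · have h1 : (k⁻¹ * g)⁻¹ * x * (k⁻¹ * g) = g⁻¹ * (k * x * k⁻¹) * g := by group
        rwa [h1]
      · rw [← hg]
        show ((k * (k⁻¹ * g) : G) : G ⧸ L) = (g : G ⧸ L)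
        rw [mul_inv_cancel_left]
    · rintro ⟨r, ⟨g, hg, hx⟩, hr⟩
      refine ⟨k * g, ?_, ?_⟩
      · rw [← hr, ← hg]
        rfl
      · have h1 : (k * g)⁻¹ * (k * x * k⁻¹) * (k * g) = g⁻¹ * x * g := by group
        rwa [h1]
  have hcard : ∀ k x : G, (I (k * x * k⁻¹)).ncard = (I x).ncard := by
    intro k x
    rw [hconj]
    exact Set.ncard_image_of_injective _ (MulAction.injective k)
  have hstep : ∀ n : ℕ, ∀ x : G, x ≠ 1 → (I x).Nonempty →
      Nat.card (G ⧸ L) < (I x).ncard + n → False := by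
    intro n
    induction n with
    | zero =>
      intro x _ _ hlt
      have := hIle x
      omega
    | succ n ih =>
      intro x hx1 hne hlt
      obtain ⟨k, hk⟩ := h x x hx1 hx1
      set y : G := k * x * k⁻¹ with hy
      have hney : (I y).Nonempty := by
        rw [hy, hconj]
        exact hne.image _
      have hx0 : x ∈ L.normalCore := hL0 x hne
      have hy0 : y ∈ L.normalCore := hL0 y hney
      have hdis : Disjoint (I x) (I y) := by
        rw [Set.disjoint_left]
        rintro q ⟨g, hg, hgx⟩ hqy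
        rw [← hg, hI] at hqy
        apply hk
        have h1 := hab _ hgx.1 _ hqy.1
        have h2 : g⁻¹ * x * g * (g⁻¹ * y * g) = g⁻¹ * (x * y) * g := by group
        have h3 : g⁻¹ * y * g * (g⁻¹ * x * g) = g⁻¹ * (y * x) * g := by group
        rw [h2, h3] at h1
        exact mul_left_cancel (mul_right_cancel h1)
      set z : G := x * y * x⁻¹ * y⁻¹ with hz
      have hz1 : z ≠ 1 := by
        intro h0
        apply hk
        have h1 : x * y = z * (y * x) := by rw [hz]; group
        rw [h0, one_mul] at h1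
        exact h1
      have hsub : I x ∪ I y ⊆ I z := by
        intro q hq
        rcases hq with hq | hq
        · obtain ⟨g, hg, hgx⟩ := hq
          refine ⟨g, hg, ?_⟩
          have hyg : g⁻¹ * y * g ∈ L := by
            have h1 := hnor g⁻¹ y hy0
            rw [inv_inv] at h1
            exact hL0L h1
          have h1 := hn0 _ hyg _ ((N ⊓ L.normalCore).inv_mem hgx)
          have h2 := (N ⊓ L.normalCore).mul_mem hgx h1
          have h3 : g⁻¹ * x * g * (g⁻¹ * y * g * (g⁻¹ * x * g)⁻¹ * (g⁻¹ * y * g)⁻¹) =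
              g⁻¹ * z * g := by
            rw [hz]; group
          rwa [h3] at h2
        · obtain ⟨g, hg, hgy⟩ := hq
          refine ⟨g, hg, ?_⟩
          have hxg : g⁻¹ * x * g ∈ L := by
            have h1 := hnor g⁻¹ x hx0
            rw [inv_inv] at h1
            exact hL0L h1
          have h1 := hn0 _ hxg _ hgy
          have h2 := (N ⊓ L.normalCore).mul_mem h1 ((N ⊓ L.normalCore).inv_mem hgy)
          have h3 : g⁻¹ * x * g * (g⁻¹ * y * g) * (g⁻¹ * x * g)⁻¹ * (g⁻¹ * y * g)⁻¹ =
              g⁻¹ * z * g := by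
            rw [hz]; group
          rwa [h3] at h2
      have hle : (I x ∪ I y).ncard ≤ (I z).ncard := Set.ncard_le_ncard hsub (hIfin z)
      rw [Set.ncard_union_eq hdis (hIfin x) (hIfin y)] at hle
      have hpos : 0 < (I y).ncard := (Set.ncard_pos (hIfin y)).2 hney
      exact ih z hz1 (hney.mono (Set.subset_union_right.trans hsub)) (by omega)
  have hN0 : N ⊓ L.normalCore = ⊥ := by
    rw [Subgroup.eq_bot_iff_forall]
    intro x hx
    by_contra hx1
    refine hstep (Nat.card (G ⧸ L) + 1) x hx1 ⟨((1 : G) : G ⧸ L), (hI _ _).2 ?_⟩ (by omega)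
    rw [inv_one, one_mul, mul_one]
    exact hx
  have hNf : (N : Set G).Finite := by
    let f : N → G ⧸ L.normalCore := fun x => ((x : G) : G ⧸ L.normalCore)
    have hf : Function.Injective f := by
      intro x y hxy
      have h1 : (x : G)⁻¹ * (y : G) ∈ L.normalCore := (QuotientGroup.eq).1 hxy
      have h2 : (x : G)⁻¹ * (y : G) ∈ N ⊓ L.normalCore := ⟨N.mul_mem (N.inv_mem x.2) y.2, h1⟩
      rw [hN0, Subgroup.mem_bot] at h2
      exact Subtype.ext (inv_mul_eq_one.1 h2)
    have : Finite N := Finite.of_injective f hf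
    exact Set.toFinite _
  exact finite_of_finiteIndex h L hL N hNL hn hNf

end Pool.Agent.AP
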