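import Pool.Agent.AP.CoreT
import Pool.Agent.AP.CoreP
import Pool.Agent.AP.FactThree
import Pool.Agent.AP.Small
import Pool.Agent.AP.Los

/-!
# There is no infinite prime factorised group (module AP-NoPrime)

Proofs: helper59.
-/

set_option autoImplicit false

universe u

namespace Pool.Agent.AP

open Filter

open Pool.Agent.AO (PrimeGrp VirtSol UP starSub cst)

namespace PF

variable {G : Type u} [Group G] {A A₀ B C : Subgroup G}

/-- PROOF. As `AO.PF.exists_pre` (`Pool/Agent/AO/NoPrime.lean`): `Q = B ⧸ C.subgroupOf B`,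
`t q = (q.out : G)`, `K = A ⧸ A₀.subgroupOf A`, `s k = (k.out : G)` (`a⁻¹ (s k) ∈ A₀`, and
`A₀` is central in `A`, so `a (s k)⁻¹ ∈ A₀`), the small group `⊤`. `h3` is `F3`, `idxC` is `index_C`
(`Subgroup.relIndex_top_right`), `abN`, `finN`: `abelian_of_finiteIndex`, `finite_of_finiteIndex`. -/
theorem exists_pre (P : PF A A₀ B C) :
    ∃ (K Q : Type u) (_ : Fintype K) (_ : Fintype Q) (S : Pre G K Q), S.C = C ∧ S.G = ⊤ := by

  have hfin : Finite (B ⧸ C.subgroupOf B) := by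
    have h1 : (C.subgroupOf B).index ≠ 0 := P.fin
    have : (C.subgroupOf B).FiniteIndex := ⟨h1⟩
    exact Subgroup.finite_quotient_of_finiteIndex
  have hfinA : Finite (A ⧸ A₀.subgroupOf A) := by
    have h1 : (A₀.subgroupOf A).index ≠ 0 := P.finA
    have : (A₀.subgroupOf A).FiniteIndex := ⟨h1⟩
    exact Subgroup.finite_quotient_of_finiteIndex
  have key : ∀ (b : G) (hb : b ∈ B) (q : B ⧸ C.subgroupOf B), ((q.out : B) : G)⁻¹ * b ∈ C ↔
      q = QuotientGroup.mk (⟨b, hb⟩ : B) := by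
    intro b hb q
    have h1 : ((q.out : B) : G)⁻¹ * b ∈ C ↔
        (QuotientGroup.mk (q.out) : B ⧸ C.subgroupOf B) = QuotientGroup.mk (⟨b, hb⟩ : B) := by
      rw [QuotientGroup.eq, Subgroup.mem_subgroupOf]
      rfl
    rw [h1, QuotientGroup.out_eq']
  have keyA : ∀ (a : G) (ha : a ∈ A),
      a * (((QuotientGroup.mk (⟨a, ha⟩ : A) : A ⧸ A₀.subgroupOf A).out : A) : G)⁻¹ ∈ A₀ := by
    intro a ha
    have h1 : (QuotientGroup.mk ((QuotientGroup.mk (⟨a, ha⟩ : A) : A ⧸ A₀.subgroupOf A).out) :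
        A ⧸ A₀.subgroupOf A) = QuotientGroup.mk (⟨a, ha⟩ : A) := QuotientGroup.out_eq' _
    rw [QuotientGroup.eq, Subgroup.mem_subgroupOf] at h1
    have h2 : (((QuotientGroup.mk (⟨a, ha⟩ : A) : A ⧸ A₀.subgroupOf A).out : A) : G)⁻¹ * a ∈ A₀ := h1
    have h3 := P.cen _ h2 _
      (((QuotientGroup.mk (⟨a, ha⟩ : A) : A ⧸ A₀.subgroupOf A).out : A)).2
    set x : G := (((QuotientGroup.mk (⟨a, ha⟩ : A) : A ⧸ A₀.subgroupOf A).out : A) : G) with hx
    have h4 : a * x⁻¹ = x⁻¹ * a := by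
      calc a * x⁻¹ = x * (x⁻¹ * a) * x⁻¹ := by group
        _ = (x⁻¹ * a * x) * x⁻¹ := by rw [h3]
        _ = x⁻¹ * a := by group
    rw [h4]
    exact h2
  have hinf := P.inf
  refine ⟨A ⧸ A₀.subgroupOf A, B ⧸ C.subgroupOf B, Fintype.ofFinite _, Fintype.ofFinite _,
    @Pre.mk G _ (A ⧸ A₀.subgroupOf A) (B ⧸ C.subgroupOf B) (Fintype.ofFinite _)
      (Fintype.ofFinite _) A A₀ B C ⊤ P.hAA P.cen P.cC P.hCB P.nC P.hAB
      (fun g _ => ?_) (fun k => ((k.out : A) : G)) (fun k => (k.out : A).2)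
      (fun a ha => ⟨QuotientGroup.mk (⟨a, ha⟩ : A), keyA a ha⟩)
      (fun q => ((q.out : B) : G)) (fun q => (q.out : B).2)
      (fun q => Subgroup.mem_top _) (fun b hb => ?_) (fun c hc hc1 a ha h => ?_)
      ?_ ?_ ?_ ?_ ?_, rfl, rfl⟩
  · obtain ⟨a, ha, b, hb, h⟩ := P.hAB g
    exact ⟨a, ha, b, hb, Subgroup.mem_top _, Subgroup.mem_top _, h⟩
  · exact ⟨QuotientGroup.mk (⟨b, hb⟩ : B), (key b hb _).2 rfl, fun q hq => (key b hb q).1 hq⟩
  · refine P.F3 hc hc1 ha fun b hb => ?_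
    have h1 := (key b hb _).2 rfl
    have h2 := h (QuotientGroup.mk (⟨b, hb⟩ : B))
    set x : G := (((QuotientGroup.mk (⟨b, hb⟩ : B) : B ⧸ C.subgroupOf B).out : B) : G) with hx
    have h3 : x⁻¹ * b * c = c * (x⁻¹ * b) := P.cC _ h1 _ hc
    have h4 : b * c * b⁻¹ = x * c * x⁻¹ := by
      have h5 : b * c = x * c * x⁻¹ * b := by
        calc b * c = x * (x⁻¹ * b * c) := by group
          _ = x * (c * (x⁻¹ * b)) := by rw [h3]
          _ = x * c * x⁻¹ * b := by group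
      rw [h5]
      group
    rw [h4]
    exact h2
  · rw [inf_top_eq]
    exact P.infinite_A
  · rw [Subgroup.relIndex_top_right]
    exact P.index_C
  · obtain ⟨c, hc, hc1⟩ := P.infinite_C.exists_notMem_finset {1}
    refine ⟨c, hc, Subgroup.mem_top _, ?_⟩
    rintro rfl
    exact hc1 (Finset.mem_singleton_self _)
  · intro L _ hL N hNL hN hab
    rw [Subgroup.relIndex_top_right] at hL
    exact abelian_of_finiteIndex P.prime L hL N hNL hN hab
  · intro L _ hL N hNL hN hf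
    rw [Subgroup.relIndex_top_right] at hL
    exact finite_of_finiteIndex P.prime L hL N hNL hN hf

/-- PROOF. If there is `n > 0` with `c^n = 1` for all `c ∈ C` then `no_bounded_exponent` for the `Pre` of
`P` (`infinite_C`). Otherwise `exists_infinite_order` gives an element `y` of infinite order in
`starSub (hyperfilter ℕ) C`, and `no_infinite_order` applies to the `Pre` of `P.ultra (hyperfilter ℕ)`. -/
theorem false (P : PF A A₀ B C) : False := by

  by_cases h : ∃ n : ℕ, 0 < n ∧ ∀ c ∈ C, c ^ n = 1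
  · obtain ⟨K, Q, hK, hQ, S, hS, hSG⟩ := P.exists_pre
    obtain ⟨n, hn, hexp⟩ := h
    refine no_bounded_exponent S hSG ?_ hn ?_
    · rw [hS]
      exact P.infinite_C
    · rw [hS]
      exact hexp
  · push Not at h
    obtain ⟨y, hy, hy1⟩ := exists_infinite_order h
    obtain ⟨K, Q, hK, hQ, S, hS, hSG⟩ := (P.ultra (hyperfilter ℕ)).exists_pre
    refine no_infinite_order S hSG (y := y) ?_ hy1
    rw [hS]
    exact hy

end PF

/-- There is no infinite prime group `G = A B` with `A₀ ≤ Z(A)` of finite index in `A` and `B` with an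
abelian subgroup `C` of finite index.
PROOF. Replace `C` by its core in `B` as in `AO.no_prime` and apply `PF.false`. -/
theorem no_prime {G : Type u} [Group G] {A A₀ B C : Subgroup G} (hG : PrimeGrp G)
    (hinf : Infinite G) (hAA : A₀ ≤ A) (cen : ∀ x ∈ A₀, ∀ y ∈ A, x * y = y * x)
    (hfinA : A₀.relIndex A ≠ 0) (cC : ∀ x ∈ C, ∀ y ∈ C, x * y = y * x)
    (hCB : C ≤ B) (hfin : C.relIndex B ≠ 0) (hAB : ∀ g : G, ∃ a ∈ A, ∃ b ∈ B, g = a * b) :
    False := by

  have hfi : (C.subgroupOf B).FiniteIndex := ⟨hfin⟩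
  set N : Subgroup B := (C.subgroupOf B).normalCore with hN
  have hNfi : N.FiniteIndex := Subgroup.finiteIndex_normalCore _
  have hNC : N ≤ C.subgroupOf B := Subgroup.normalCore_le _
  have hNn : N.Normal := Subgroup.normalCore_normal _
  set C' : Subgroup G := N.map B.subtype with hC'
  have hC'C : C' ≤ C := by
    rintro _ ⟨x, hx, rfl⟩
    exact Subgroup.mem_subgroupOf.1 (hNC hx)
  refine PF.false (G := G) (A := A) (A₀ := A₀) (B := B) (C := C')
    ⟨hG, hinf, hAA, cen, hfinA, fun x hx y hy => cC x (hC'C hx) y (hC'C hy), ?_, ?_, ?_, hAB⟩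
  · rintro _ ⟨x, hx, rfl⟩
    exact x.2
  · rintro b hb _ ⟨x, hx, rfl⟩
    exact ⟨⟨b, hb⟩ * x * ⟨b, hb⟩⁻¹, hNn.conj_mem x hx ⟨b, hb⟩, rfl⟩
  · have h1 : C'.subgroupOf B = N := by
      rw [hC', Subgroup.subgroupOf, Subgroup.comap_map_eq_self_of_injective B.subtype_injective]
    rw [Subgroup.relIndex, h1]
    exact hNfi.index_ne_zero

end Pool.Agent.AP
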