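import Pool.Agent.AP.Defs

/-!
# Ultrapowers of `Pre` (module AP-Ultra)
-/

set_option autoImplicit false

namespace Pool.Agent.AP

open Filter

open Pool.Agent.AO (UP starSub cst)

variable {I : Type*} {H : Type*} [Group H]

/-- The ultrapower of `S : Pre H K Q`; the small group is the diagonal copy of the small group of `S`.
PROOF of the fields: see `AO.Pre.ultra` in `Pool/Agent/AO/Ultra.lean`. New fields: `cen` as `cC`;
`hS`: if `a` is the germ of `f` with `f i ∈ A` almost everywhere then there is `k` with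
`f i (s k)⁻¹ ∈ A0` for almost all `i` (`AO.exists_of_eventually_exists`); `idxC`: a subgroup `M` of
`G.map cst`... the intersection of `starSub C` with `G.map cst` is `(C ⊓ G).map cst`, and `cst` is
injective, so the relative index is the same (`Subgroup.relIndex_map_map_of_injective`).
`abN`, `finN`: for `L ≤ G.map cst` of finite index let `L' = L.comap cst`, so `L = (L' ⊓ G).map cst`,
`N = (N.comap cst).map cst`, and apply `S.abN`, `S.finN` for `L' ⊓ G`. -/
def Pre.ultra {K Q : Type*} [Fintype K] [Fintype Q] (S : Pre H K Q) (𝒰 : Ultrafilter I) :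
    Pre (UP 𝒰 H) K Q where
  A := starSub 𝒰 S.A
  A0 := starSub 𝒰 S.A0
  B := starSub 𝒰 S.B
  C := starSub 𝒰 S.C
  G := S.G.map (cst 𝒰 H)
  hAA := by
    intro x hx
    induction x using Germ.inductionOn with | _ f
    have hf : ∀ᶠ i in (𝒰 : Filter I), f i ∈ S.A0 := hx
    exact hf.mono fun i hi => S.hAA hi
  cen := by
    intro x hx y hy
    induction x using Germ.inductionOn with | _ f
    induction y using Germ.inductionOn with | _ g
    have hf : ∀ᶠ i in (𝒰 : Filter I), f i ∈ S.A0 := hx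
    have hg : ∀ᶠ i in (𝒰 : Filter I), g i ∈ S.A := hy
    exact Germ.coe_eq.2 (by
      filter_upwards [hf, hg] with i h1 h2 using S.cen _ h1 _ h2)
  cC := by
    intro x hx y hy
    induction x using Germ.inductionOn with | _ f
    induction y using Germ.inductionOn with | _ g
    have hf : ∀ᶠ i in (𝒰 : Filter I), f i ∈ S.C := hx
    have hg : ∀ᶠ i in (𝒰 : Filter I), g i ∈ S.C := hy
    exact Germ.coe_eq.2 (by
      filter_upwards [hf, hg] with i h1 h2 using S.cC _ h1 _ h2)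
  hCB := by
    intro x hx
    induction x using Germ.inductionOn with | _ f
    have hf : ∀ᶠ i in (𝒰 : Filter I), f i ∈ S.C := hx
    exact hf.mono fun i hi => S.hCB hi
  nC := by
    intro b hb c hc
    induction b using Germ.inductionOn with | _ f
    induction c using Germ.inductionOn with | _ g
    have hf : ∀ᶠ i in (𝒰 : Filter I), f i ∈ S.B := hb
    have hg : ∀ᶠ i in (𝒰 : Filter I), g i ∈ S.C := hc
    change ∀ᶠ i in (𝒰 : Filter I), f i * g i * (f i)⁻¹ ∈ S.C
    filter_upwards [hf, hg] with i h1 h2 using S.nC _ h1 _ h2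
  hAB := by
    intro h
    induction h using Germ.inductionOn with | _ f
    have h1 : ∀ i, ∃ a ∈ S.A, ∃ b ∈ S.B, f i = a * b := fun i => S.hAB (f i)
    choose a ha b hb hab using h1
    exact ⟨((a : I → H) : (𝒰 : Filter I).Germ H), Eventually.of_forall ha,
      ((b : I → H) : (𝒰 : Filter I).Germ H), Eventually.of_forall hb,
      Germ.coe_eq.2 (Eventually.of_forall hab)⟩
  hG := by
    rintro g ⟨g0, hg0, rfl⟩
    obtain ⟨a, ha, b, hb, haG, hbG, hab⟩ := S.hG g0 hg0
    exact ⟨cst 𝒰 H a, Eventually.of_forall fun _ => ha, cst 𝒰 H b,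
      Eventually.of_forall fun _ => hb, ⟨a, haG, rfl⟩, ⟨b, hbG, rfl⟩, by rw [hab, map_mul]⟩
  s k := cst 𝒰 H (S.s k)
  sA := by
    intro k
    exact Eventually.of_forall fun _ => S.sA k
  hS := by
    intro a ha
    induction a using Germ.inductionOn with | _ f
    have hf : ∀ᶠ i in (𝒰 : Filter I), f i ∈ S.A := ha
    obtain ⟨k, hk⟩ := AO.exists_of_eventually_exists 𝒰 (P := fun i k => f i * (S.s k)⁻¹ ∈ S.A0)
      (hf.mono fun i hi => S.hS (f i) hi)
    exact ⟨k, hk⟩
  t q := cst 𝒰 H (S.t q)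
  tB := by
    intro q
    exact Eventually.of_forall fun _ => S.tB q
  tG := by
    intro q
    exact ⟨S.t q, S.tG q, rfl⟩
  hT := by
    intro b hb
    induction b using Germ.inductionOn with | _ f
    have hf : ∀ᶠ i in (𝒰 : Filter I), f i ∈ S.B := hb
    obtain ⟨q, hq⟩ := AO.exists_of_eventually_exists 𝒰 (P := fun i q => (S.t q)⁻¹ * f i ∈ S.C)
      (hf.mono fun i hi => (S.hT (f i) hi).exists)
    refine ⟨q, hq, fun q' hq' => ?_⟩
    have hq2 : ∀ᶠ i in (𝒰 : Filter I), (S.t q')⁻¹ * f i ∈ S.C := hq'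
    obtain ⟨i, ⟨h1, h2⟩, h3⟩ := ((hf.and hq).and hq2).exists
    exact (S.hT (f i) h1).unique h3 h2
  h3 := by
    intro c hc hc1 a ha hq
    induction c using Germ.inductionOn with | _ f
    induction a using Germ.inductionOn with | _ g
    have hf : ∀ᶠ i in (𝒰 : Filter I), f i ∈ S.C := hc
    have hg : ∀ᶠ i in (𝒰 : Filter I), g i ∈ S.A0 := ha
    have hne : ∀ᶠ i in (𝒰 : Filter I), ¬ f i = 1 :=
      Ultrafilter.eventually_not.2 fun h => hc1 (Germ.coe_eq.2 h)
    have hq' : ∀ᶠ i in (𝒰 : Filter I), ∀ q, g i * (S.t q * f i * (S.t q)⁻¹) * (g i)⁻¹ ∈ S.C :=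
      eventually_all.2 fun q => hq q
    refine Germ.coe_eq.2 ?_
    filter_upwards [hf, hg, hne, hq'] with i h1 h2 h3 h4
    exact S.h3 (f i) h1 h3 (g i) h2 h4
  infA := by
    refine (S.infA.image ((AO.cst_injective 𝒰).injOn)).mono ?_
    rintro _ ⟨x, hx, rfl⟩
    exact ⟨Eventually.of_forall fun _ => hx.1, ⟨x, hx.2, rfl⟩⟩
  idxC := by
    rw [← Subgroup.relIndex_comap]
    have h : (starSub 𝒰 S.C).comap (cst 𝒰 H) = S.C := by
      ext x
      constructor
      · intro hx
        have h1 : ∀ᶠ _ in (𝒰 : Filter I), x ∈ S.C := hx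
        exact h1.exists.choose_spec
      · intro hx
        exact Eventually.of_forall fun _ => hx
    rw [h]
    exact S.idxC
  ntC := by
    obtain ⟨c, hc, hcG, hc1⟩ := S.ntC
    refine ⟨cst 𝒰 H c, Eventually.of_forall fun _ => hc, ⟨c, hcG, rfl⟩, fun h => hc1 ?_⟩
    exact AO.cst_injective 𝒰 (h.trans (map_one _).symm)
  abN := by
    intro L hLG hL N hNL hnorm hab
    rw [Subgroup.eq_bot_iff_forall]
    intro x hx
    have hL' : (L.comap (cst 𝒰 H) ⊓ S.G).relIndex S.G ≠ 0 := by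
      rw [Subgroup.inf_relIndex_right, Subgroup.relIndex_comap]
      exact hL
    have h0 := S.abN (L.comap (cst 𝒰 H) ⊓ S.G) inf_le_right hL' (N.comap (cst 𝒰 H) ⊓ S.G)
      (fun y hy => ⟨hNL hy.1, hy.2⟩)
      (fun g hg y hy => ⟨by
        change cst 𝒰 H (g * y * g⁻¹) ∈ N
        rw [map_mul, map_mul, map_inv]
        exact hnorm _ hg.1 _ hy.1, S.G.mul_mem (S.G.mul_mem hg.2 hy.2) (S.G.inv_mem hg.2)⟩)
      (fun y hy z hz => AO.cst_injective 𝒰 (by
        rw [map_mul, map_mul]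
        exact hab _ hy.1 _ hz.1))
    obtain ⟨x0, hx0, rfl⟩ := hLG (hNL hx)
    have h1 : x0 ∈ N.comap (cst 𝒰 H) ⊓ S.G := ⟨hx, hx0⟩
    rw [h0] at h1
    rw [Subgroup.mem_bot.1 h1, map_one]
  finN := by
    intro L hLG hL N hNL hnorm hfin
    rw [Subgroup.eq_bot_iff_forall]
    intro x hx
    have hL' : (L.comap (cst 𝒰 H) ⊓ S.G).relIndex S.G ≠ 0 := by
      rw [Subgroup.inf_relIndex_right, Subgroup.relIndex_comap]
      exact hL
    have h0 := S.finN (L.comap (cst 𝒰 H) ⊓ S.G) inf_le_right hL' (N.comap (cst 𝒰 H) ⊓ S.G)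
      (fun y hy => ⟨hNL hy.1, hy.2⟩)
      (fun g hg y hy => ⟨by
        change cst 𝒰 H (g * y * g⁻¹) ∈ N
        rw [map_mul, map_mul, map_inv]
        exact hnorm _ hg.1 _ hy.1, S.G.mul_mem (S.G.mul_mem hg.2 hy.2) (S.G.inv_mem hg.2)⟩)
      ((hfin.preimage (AO.cst_injective 𝒰).injOn).subset fun y hy => hy.1)
    obtain ⟨x0, hx0, rfl⟩ := hLG (hNL hx)
    have h1 : x0 ∈ N.comap (cst 𝒰 H) ⊓ S.G := ⟨hx, hx0⟩
    rw [h0] at h1
    rw [Subgroup.mem_bot.1 h1, map_one]

end Pool.Agent.AP
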