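import Pool.Agent.AP.Cent

/-!
# The canonical abelian group `Zc` (module AP-Zc), torsion-free case

Notation: `d` stands for `S.j d`; compare with `Pool/Agent/AO/TOne.lean`.
-/

set_option autoImplicit false

namespace Pool.Agent.AP

namespace Core

variable {H : Type*} [Group H] {𝔻 : Type*} [CommGroup 𝔻] {K Q : Type*} [Fintype K] [Fintype Q]
variable (S : Core H 𝔻 K Q)

/-- The set of elements of `Gam` commuting with all commutators of `Gam`. -/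
def Yc : Subgroup H where
  carrier := {w | w ∈ S.Gam ∧ ∀ x ∈ S.Gam, ∀ y ∈ S.Gam, Commute w (x * y * x⁻¹ * y⁻¹)}
  mul_mem' := fun ha hb => ⟨S.Gam.mul_mem ha.1 hb.1, fun x hx y hy =>
    (ha.2 x hx y hy).mul_left (hb.2 x hx y hy)⟩
  one_mem' := ⟨S.Gam.one_mem, fun _ _ _ _ => Commute.one_left _⟩
  inv_mem' := fun ha => ⟨S.Gam.inv_mem ha.1, fun x hx y hy => (ha.2 x hx y hy).inv_left⟩

/-- The centre of `Yc`. -/
def Zc : Subgroup H where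
  carrier := {w | w ∈ S.Yc ∧ ∀ y ∈ S.Yc, Commute w y}
  mul_mem' := fun ha hb => ⟨S.Yc.mul_mem ha.1 hb.1, fun y hy => (ha.2 y hy).mul_left (hb.2 y hy)⟩
  one_mem' := ⟨S.Yc.one_mem, fun _ _ => Commute.one_left _⟩
  inv_mem' := fun ha => ⟨S.Yc.inv_mem ha.1, fun y hy => (ha.2 y hy).inv_left⟩

/-- PROOF. `x = v d`, `y = w e` (`mem_Gam`) with `v, w ∈ V`, `d, e ∈ 𝔻`. Then
`x y x⁻¹ y⁻¹ = v (d w d⁻¹) (e v⁻¹ e⁻¹) w⁻¹` ... Here `V` is not abelian: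
`x y x⁻¹ y⁻¹ = v (d w d⁻¹) (d e) d⁻¹ v⁻¹ e⁻¹ w⁻¹ = v (d w d⁻¹) (e v⁻¹ e⁻¹) w⁻¹` (since `d e = e d`) lies
in `V` by `D_norm_V`. -/
theorem comm_mem_V : ∀ x ∈ S.Gam, ∀ y ∈ S.Gam, x * y * x⁻¹ * y⁻¹ ∈ S.V := by
  intro x hx y hy
  obtain ⟨v, hv, d, rfl⟩ := (mem_Gam S x).1 hx
  obtain ⟨w, hw, e, rfl⟩ := (mem_Gam S y).1 hy
  have h1 : S.j d * S.j e * (S.j d)⁻¹ = S.j e := by
    rw [← map_mul, mul_comm d e, map_mul]; group
  have h2 : v * S.j d * (w * S.j e) * (v * S.j d)⁻¹ * (w * S.j e)⁻¹ =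
      v * (S.j d * w * (S.j d)⁻¹) * (S.j e * v⁻¹ * (S.j e)⁻¹) * w⁻¹ := by
    calc v * S.j d * (w * S.j e) * (v * S.j d)⁻¹ * (w * S.j e)⁻¹
        = v * (S.j d * w * (S.j d)⁻¹) * ((S.j d * S.j e * (S.j d)⁻¹) * v⁻¹ * (S.j e)⁻¹) * w⁻¹ := by
          group
      _ = v * (S.j d * w * (S.j d)⁻¹) * (S.j e * v⁻¹ * (S.j e)⁻¹) * w⁻¹ := by rw [h1]
  rw [h2]
  exact mul_mem (mul_mem (mul_mem hv (D_norm_V S d w hw)) (D_norm_V S e _ (inv_mem hv)))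
    (inv_mem hw)

/-- auxiliary: an exponent for the elements of `W` commuting with `j(𝔻)` -/
private theorem Zc_exp {d : 𝔻} (hd : d ≠ 1) :
    ∃ m : ℕ, m ≠ 0 ∧ ∀ u ∈ S.W, (∀ e : 𝔻, S.j e * u = u * S.j e) → u ^ m = 1 := by
  let Y : Subgroup H := S.W ⊓ Subgroup.centralizer (Set.range S.j)
  have hYfin : (Y : Set H).Finite := by
    refine (fix_small S hd).1.subset ?_
    intro v hv
    have hv' := Subgroup.mem_inf.1 hv
    refine ⟨hv'.1, fun q => ?_⟩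
    obtain ⟨d', hd'⟩ := S.jB (S.t q) (S.tB q) d
    rw [hd']
    exact ((Subgroup.mem_centralizer_iff.1 hv'.2) _ ⟨d', rfl⟩).symm
  have : Finite Y := hYfin
  refine ⟨Nat.card Y, Nat.card_pos.ne', fun u hu hue => ?_⟩
  have huY : u ∈ Y := by
    refine Subgroup.mem_inf.2 ⟨hu, ?_⟩
    rw [Subgroup.mem_centralizer_iff]
    rintro y ⟨e, rfl⟩
    exact hue e
  have h8 : (⟨_, huY⟩ : Y) ^ Nat.card Y = 1 := pow_card_eq_one'
  have h9 := congrArg (fun z : Y => (z : H)) h8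
  rw [Subgroup.coe_pow] at h9
  exact h9

/-- auxiliary: see the proof of `AO.Core.good_j` -/
private theorem Zc_pow {d : 𝔻} {m : ℕ}
    (hm : ∀ u ∈ S.W, (∀ e : 𝔻, S.j e * u = u * S.j e) → u ^ m = 1)
    (hc : ∀ w ∈ S.W, ∀ e : 𝔻, Commute (S.j d) (S.j e * w * (S.j e)⁻¹ * w⁻¹)) :
    ∀ w ∈ S.W, Commute (S.j (d ^ m)) w := by
  intro w hw
  have hWd : S.j d * w * (S.j d)⁻¹ ∈ S.W := D_norm_W S d w hw
  have huV : S.j d * w * (S.j d)⁻¹ * w⁻¹ ∈ S.W := mul_mem hWd (inv_mem hw)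
  have hue : ∀ e : 𝔻, S.j e * (S.j d * w * (S.j d)⁻¹ * w⁻¹) =
      (S.j d * w * (S.j d)⁻¹ * w⁻¹) * S.j e := by
    intro e
    have hWe : S.j e * w * (S.j e)⁻¹ ∈ S.W := D_norm_W S e w hw
    have h1 := (hc w hw e).eq
    have h2 : S.j e * S.j d = S.j d * S.j e := by
      rw [← map_mul, mul_comm e d, map_mul]
    have h3 : (S.j e * w * (S.j e)⁻¹) * w⁻¹ = w⁻¹ * (S.j e * w * (S.j e)⁻¹) :=
      W_comm S _ hWe _ (inv_mem hw)
    have h4 : (S.j e * w * (S.j e)⁻¹) * (w⁻¹ * (S.j d * w * (S.j d)⁻¹)) =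
        (w⁻¹ * (S.j d * w * (S.j d)⁻¹)) * (S.j e * w * (S.j e)⁻¹) :=
      W_comm S _ hWe _ (mul_mem (inv_mem hw) hWd)
    have h5 : (S.j d * w * (S.j d)⁻¹) * w⁻¹ = w⁻¹ * (S.j d * w * (S.j d)⁻¹) :=
      W_comm S _ hWd _ (inv_mem hw)
    have h6 : S.j d * (S.j e * w * (S.j e)⁻¹) * (S.j d)⁻¹ =
        (S.j e * w * (S.j e)⁻¹) * (w⁻¹ * (S.j d * w * (S.j d)⁻¹)) := by
      calc S.j d * (S.j e * w * (S.j e)⁻¹) * (S.j d)⁻¹
          = (S.j d * (S.j e * w * (S.j e)⁻¹ * w⁻¹)) * w * (S.j d)⁻¹ := by group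
        _ = ((S.j e * w * (S.j e)⁻¹ * w⁻¹) * S.j d) * w * (S.j d)⁻¹ := by rw [h1]
        _ = (S.j e * w * (S.j e)⁻¹) * (w⁻¹ * (S.j d * w * (S.j d)⁻¹)) := by group
    have h7 : S.j e * (S.j d * w * (S.j d)⁻¹ * w⁻¹) * (S.j e)⁻¹ =
        S.j d * w * (S.j d)⁻¹ * w⁻¹ := by
      calc S.j e * (S.j d * w * (S.j d)⁻¹ * w⁻¹) * (S.j e)⁻¹
          = (S.j e * S.j d) * w * (S.j e * S.j d)⁻¹ * (S.j e * w * (S.j e)⁻¹)⁻¹ := by group
        _ = (S.j d * S.j e) * w * (S.j d * S.j e)⁻¹ * (S.j e * w * (S.j e)⁻¹)⁻¹ := by rw [h2]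
        _ = (S.j d * (S.j e * w * (S.j e)⁻¹) * (S.j d)⁻¹) * (S.j e * w * (S.j e)⁻¹)⁻¹ := by group
        _ = (w⁻¹ * (S.j d * w * (S.j d)⁻¹)) * (S.j e * w * (S.j e)⁻¹) *
              (S.j e * w * (S.j e)⁻¹)⁻¹ := by rw [h6, h4]
        _ = w⁻¹ * (S.j d * w * (S.j d)⁻¹) := by group
        _ = S.j d * w * (S.j d)⁻¹ * w⁻¹ := h5.symm
    calc S.j e * (S.j d * w * (S.j d)⁻¹ * w⁻¹)
        = (S.j e * (S.j d * w * (S.j d)⁻¹ * w⁻¹) * (S.j e)⁻¹) * S.j e := by group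
      _ = (S.j d * w * (S.j d)⁻¹ * w⁻¹) * S.j e := by rw [h7]
  have hum : (S.j d * w * (S.j d)⁻¹ * w⁻¹) ^ m = 1 := hm _ huV hue
  have hpow : ∀ k : ℕ, (S.j d) ^ k * w =
      (S.j d * w * (S.j d)⁻¹ * w⁻¹) ^ k * w * (S.j d) ^ k := by
    intro k
    induction k with
    | zero => simp
    | succ k ih =>
      have hc : Commute (S.j d) ((S.j d * w * (S.j d)⁻¹ * w⁻¹) ^ k) :=
        Commute.pow_right (hue d) k
      calc (S.j d) ^ (k + 1) * w = S.j d * ((S.j d) ^ k * w) := by rw [pow_succ']; group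
        _ = S.j d * ((S.j d * w * (S.j d)⁻¹ * w⁻¹) ^ k * w * (S.j d) ^ k) := by rw [ih]
        _ = (S.j d * (S.j d * w * (S.j d)⁻¹ * w⁻¹) ^ k) * (w * (S.j d) ^ k) := by
            simp only [mul_assoc]
        _ = ((S.j d * w * (S.j d)⁻¹ * w⁻¹) ^ k * S.j d) * (w * (S.j d) ^ k) := by rw [hc.eq]
        _ = (S.j d * w * (S.j d)⁻¹ * w⁻¹) ^ k * ((S.j d * w * (S.j d)⁻¹ * w⁻¹) * w *
              (S.j d * (S.j d) ^ k)) := by
            group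
        _ = (S.j d * w * (S.j d)⁻¹ * w⁻¹) ^ (k + 1) * w * (S.j d) ^ (k + 1) := by
            rw [pow_succ (S.j d * w * (S.j d)⁻¹ * w⁻¹) k, pow_succ' (S.j d) k]
            simp only [mul_assoc]
  have h10 := hpow m
  rw [hum, one_mul] at h10
  rw [map_pow]
  exact h10

/-- If `d` commutes with `W` then `d = 1` (torsion-free case).
PROOF. Suppose `d ≠ 1`. The group `Y = W ⊓ (centraliser of j(𝔻))` is finite by `fix_small`; let
`m = |Y| > 0`. Let `u ∈ U`. For `f : 𝔻`: `δ_u(d f) = δ_u(d) · d δ_u(f) d⁻¹ = δ_u(d) δ_u(f)` and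
`δ_u(f d) = δ_u(f) · f δ_u(d) f⁻¹`; as `W` is abelian, `f δ_u(d) f⁻¹ = δ_u(d)`. So `δ_u(d) ∈ Y` and
`δ_u(d)^m = 1`. By induction `δ_u(d^k) = δ_u(d)^k` (`d` commutes with `W`), so `δ_u(d^m) = 1`, i.e. `u`
commutes with `j (d^m)`. So `U ⊆ L = {g ∈ G | g commutes with j (d^m)}` and `L` has finite
index in `G` by `relIndex_of_U`. Let `L' = ⋂_q (t q) L (t q)⁻¹`, also of finite index in `G` (`tG`);
its elements commute with all `t q (d^m) (t q)⁻¹`. There is `a ≠ 1` in `A0 ∩ L'` (`infA_of`), and `d^m ≠ 1`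
by `htf`, so `a = 1` by `Pre.one_of_comm`: contradiction. -/
theorem cent_W (htf : ∀ (d : 𝔻) (n : ℕ), n ≠ 0 → d ^ n = 1 → d = 1) {d : 𝔻}
    (h : ∀ w ∈ S.W, Commute (S.j d) w) : d = 1 := by
  by_contra hd
  obtain ⟨m, hm0, hm⟩ := Zc_exp S hd
  have hmul : ∀ (u : H) (a b : 𝔻),
      S.delta u (a * b) = S.delta u a * (S.j a * S.delta u b * (S.j a)⁻¹) := by
    intro u a b
    unfold delta
    rw [map_mul]
    group
  -- `δ_u(d)` commutes with `j(𝔻)`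
  have hcd : ∀ u ∈ S.U, ∀ f : 𝔻, S.j f * S.delta u d = S.delta u d * S.j f := by
    intro u hu f
    have h1 := hmul u d f
    have h2 := hmul u f d
    have h3 : S.j d * S.delta u f * (S.j d)⁻¹ = S.delta u f := by
      rw [(h _ (S.delta_mem_W hu f)).eq]; group
    rw [h3] at h1
    rw [mul_comm f d, h1, W_comm S _ (S.delta_mem_W hu d) _ (S.delta_mem_W hu f)] at h2
    have h4 : S.delta u d = S.j f * S.delta u d * (S.j f)⁻¹ := mul_left_cancel h2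
    calc S.j f * S.delta u d = (S.j f * S.delta u d * (S.j f)⁻¹) * S.j f := by group
      _ = S.delta u d * S.j f := by rw [← h4]
  have hone : ∀ u : H, S.delta u 1 = 1 := by
    intro u
    unfold delta
    rw [map_one]
    group
  have hdk : ∀ u ∈ S.U, ∀ k : ℕ, S.delta u (d ^ k) = S.delta u d ^ k := by
    intro u hu k
    induction k with
    | zero => rw [pow_zero, pow_zero, hone]
    | succ k ih =>
      have h5 : S.j (d ^ k) * S.delta u d * (S.j (d ^ k))⁻¹ = S.delta u d := by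
        rw [hcd u hu (d ^ k)]; group
      rw [pow_succ, hmul, ih, h5, pow_succ]
  have hcU : ∀ u ∈ S.U, u * S.j (d ^ m) = S.j (d ^ m) * u := by
    intro u hu
    have h6 : S.delta u (d ^ m) = 1 := by
      rw [hdk u hu m]
      exact hm _ (S.delta_mem_W hu d) (hcd u hu)
    calc u * S.j (d ^ m) = S.delta u (d ^ m) * (S.j (d ^ m) * u) := by
          unfold delta; group
      _ = S.j (d ^ m) * u := by rw [h6, one_mul]
  have hc1 : S.j (d ^ m) ≠ 1 := by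
    intro h7
    exact hd (htf d m hm0 (S.jinj (by rw [h7, map_one])))
  -- the subgroup `L`
  let L : Subgroup H := S.G ⊓ Subgroup.centralizer {S.j (d ^ m)}
  have hLi : L.relIndex S.G ≠ 0 := by
    refine relIndex_of_U S L inf_le_left ?_
    intro u hu
    refine Subgroup.mem_inf.2 ⟨hu.1, ?_⟩
    rw [Subgroup.mem_centralizer_iff]
    rintro y rfl
    exact (hcU u hu).symm
  let Lq : Q → Subgroup H := fun q =>
    S.G ⊓ Subgroup.centralizer {S.t q * S.j (d ^ m) * (S.t q)⁻¹}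
  have hLq : ∀ q, (Lq q).relIndex S.G ≠ 0 := by
    intro q
    have h8 : (Lq q).subgroupOf S.G =
        (L.subgroupOf S.G).comap (MulAut.conj (⟨S.t q, S.tG q⟩ : ↥S.G)⁻¹).toMonoidHom := by
      ext x
      rw [Subgroup.mem_comap, Subgroup.mem_subgroupOf, Subgroup.mem_subgroupOf,
        Subgroup.mem_inf, Subgroup.mem_inf, Subgroup.mem_centralizer_iff,
        Subgroup.mem_centralizer_iff]
      simp only [MulEquiv.coe_toMonoidHom, MulAut.conj_apply, Subgroup.coe_mul,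
        Subgroup.coe_inv, inv_inv, Set.mem_singleton_iff, forall_eq]
      constructor
      · rintro ⟨-, h9⟩
        refine ⟨mul_mem (mul_mem (inv_mem (S.tG q)) x.2) (S.tG q), ?_⟩
        calc S.j (d ^ m) * ((S.t q)⁻¹ * (x : H) * S.t q)
            = (S.t q)⁻¹ * (S.t q * S.j (d ^ m) * (S.t q)⁻¹ * x) * S.t q := by group
          _ = (S.t q)⁻¹ * (x * (S.t q * S.j (d ^ m) * (S.t q)⁻¹)) * S.t q := by rw [h9]
          _ = (S.t q)⁻¹ * (x : H) * S.t q * S.j (d ^ m) := by group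
      · rintro ⟨-, h9⟩
        refine ⟨x.2, ?_⟩
        calc S.t q * S.j (d ^ m) * (S.t q)⁻¹ * (x : H)
            = S.t q * (S.j (d ^ m) * ((S.t q)⁻¹ * x * S.t q)) * (S.t q)⁻¹ := by group
          _ = S.t q * ((S.t q)⁻¹ * x * S.t q * S.j (d ^ m)) * (S.t q)⁻¹ := by rw [h9]
          _ = x * (S.t q * S.j (d ^ m) * (S.t q)⁻¹) := by group
    show ((Lq q).subgroupOf S.G).index ≠ 0
    rw [h8, Subgroup.index_comap_of_surjective _ (MulEquiv.surjective _)]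
    exact hLi
  have hL' : ((⨅ q, Lq q) ⊓ S.G).relIndex S.G ≠ 0 := by
    rw [Subgroup.inf_relIndex_right]
    exact Subgroup.relIndex_iInf_ne_zero hLq
  have hinf := S.toPre.infA_of (L := (⨅ q, Lq q) ⊓ S.G) inf_le_right hL'
  obtain ⟨a, ha, ha1⟩ := (hinf.diff (Set.finite_singleton (1 : H))).nonempty
  have ha' := Subgroup.mem_inf.1 ha
  have ha'' := Subgroup.mem_inf.1 ha'.2
  refine ha1 ?_
  refine S.toPre.one_of_comm (S.jC (d ^ m)) hc1 ha'.1 fun q => ?_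
  have h9 : a ∈ Lq q := (Subgroup.mem_iInf.1 ha''.1) q
  have h10 := (Subgroup.mem_inf.1 h9).2
  rw [Subgroup.mem_centralizer_iff] at h10
  exact (h10 _ rfl).symm

/-- PROOF. Let `y ∈ Yc`, `y = v d` (`mem_Gam`), `v ∈ V`. Let `w ∈ W` and `f : 𝔻`. The commutator
`f w f⁻¹ w⁻¹` is in `W` (`D_norm_W`) and commutes with `y` (`j_mem_Gam`, `W ≤ V ≤ Gam`) and with `v`
(`W_V_comm`), so with `d`. So with `u = d w d⁻¹ w⁻¹ ∈ W` we get `f u f⁻¹ = u` as in the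
proof of `AO.Core.good_j`: `d (f w f⁻¹ w⁻¹) d⁻¹ = f w f⁻¹ w⁻¹` means
`f (d w d⁻¹) f⁻¹ (d w⁻¹ d⁻¹) = f w f⁻¹ w⁻¹`, and `W` is abelian. So `u` commutes with `j(𝔻)`. If `d ≠ 1`,
`u` lies in the finite group `Y = W ⊓ centraliser of j(𝔻)` (`fix_small`), `u^m = 1` for `m = |Y|`, and
`d^k w d^{-k} = u^k w`, so `d^m` commutes with all `w ∈ W` and `d^m = 1` by `cent_W`, `d = 1` by
`htf`. So `d = 1` in any case and `y = v ∈ V`. -/
theorem Yc_le_V (htf : ∀ (d : 𝔻) (n : ℕ), n ≠ 0 → d ^ n = 1 → d = 1) : S.Yc ≤ S.V := by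
  intro y hy
  obtain ⟨v, hv, d, hd⟩ := (mem_Gam S y).1 hy.1
  have hd1 : d = 1 := by
    by_contra hd0
    obtain ⟨m, hm0, hm⟩ := Zc_exp S hd0
    have hc : ∀ w ∈ S.W, ∀ e : 𝔻, Commute (S.j d) (S.j e * w * (S.j e)⁻¹ * w⁻¹) := by
      intro w hw e
      have h1 : S.j e * w * (S.j e)⁻¹ * w⁻¹ ∈ S.W := mul_mem (D_norm_W S e w hw) (inv_mem hw)
      have h2 : Commute y (S.j e * w * (S.j e)⁻¹ * w⁻¹) :=
        hy.2 _ (j_mem_Gam S e) _ (V_le_Gam S (W_le_V S hw))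
      have h3 : Commute v (S.j e * w * (S.j e)⁻¹ * w⁻¹) := (W_V_comm S _ h1 v hv).symm
      have h4 : S.j d = v⁻¹ * y := by rw [hd]; group
      rw [h4]
      exact h3.inv_left.mul_left h2
    exact hd0 (htf d m hm0 (cent_W S htf (Zc_pow S hm hc)))
  rw [hd, hd1, map_one, mul_one]
  exact hv

/-- PROOF. `W ≤ V ≤ Gam` and `W` commutes with `V`, which contains all commutators of `Gam`
(`comm_mem_V`), so `W ≤ Yc`; and `W` commutes with `Yc ≤ V`. -/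
theorem W_le_Zc (htf : ∀ (d : 𝔻) (n : ℕ), n ≠ 0 → d ^ n = 1 → d = 1) : S.W ≤ S.Zc := by
  intro w hw
  refine ⟨⟨V_le_Gam S (W_le_V S hw), fun x hx y hy => ?_⟩, fun y hy => ?_⟩
  · exact W_V_comm S w hw _ (comm_mem_V S x hx y hy)
  · exact W_V_comm S w hw _ (Yc_le_V S htf hy)

theorem Zc_comm : ∀ x ∈ S.Zc, ∀ y ∈ S.Zc, x * y = y * x := by
  intro x hx y hy
  exact hx.2 y hy.1

/-- PROOF. Conjugation by `g ∈ G` maps `Gam` onto itself (`G_norm_Gam` for `g` and `g⁻¹`), so it maps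
`Yc` and `Zc` onto themselves. -/
theorem G_norm_Zc : ∀ g ∈ S.G, ∀ x ∈ S.Zc, g * x * g⁻¹ ∈ S.Zc := by
  have hY : ∀ g ∈ S.G, ∀ x ∈ S.Yc, g * x * g⁻¹ ∈ S.Yc := by
    intro g hg x hx
    refine ⟨G_norm_Gam S g hg x hx.1, fun a ha b hb => ?_⟩
    have ha' : g⁻¹ * a * g⁻¹⁻¹ ∈ S.Gam := G_norm_Gam S g⁻¹ (inv_mem hg) a ha
    have hb' : g⁻¹ * b * g⁻¹⁻¹ ∈ S.Gam := G_norm_Gam S g⁻¹ (inv_mem hg) b hb
    have h1 := (hx.2 _ ha' _ hb').eq
    have h2 : g⁻¹ * a * g⁻¹⁻¹ * (g⁻¹ * b * g⁻¹⁻¹) * (g⁻¹ * a * g⁻¹⁻¹)⁻¹ * (g⁻¹ * b * g⁻¹⁻¹)⁻¹ =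
        g⁻¹ * (a * b * a⁻¹ * b⁻¹) * g := by group
    rw [h2] at h1
    show g * x * g⁻¹ * (a * b * a⁻¹ * b⁻¹) = a * b * a⁻¹ * b⁻¹ * (g * x * g⁻¹)
    calc g * x * g⁻¹ * (a * b * a⁻¹ * b⁻¹) = g * (x * (g⁻¹ * (a * b * a⁻¹ * b⁻¹) * g)) * g⁻¹ := by
          group
      _ = g * (g⁻¹ * (a * b * a⁻¹ * b⁻¹) * g * x) * g⁻¹ := by rw [h1]
      _ = a * b * a⁻¹ * b⁻¹ * (g * x * g⁻¹) := by group
  intro g hg x hx
  refine ⟨hY g hg x hx.1, fun y hy => ?_⟩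
  have hy' : g⁻¹ * y * g⁻¹⁻¹ ∈ S.Yc := hY g⁻¹ (inv_mem hg) y hy
  have h1 := (hx.2 _ hy').eq
  show g * x * g⁻¹ * y = y * (g * x * g⁻¹)
  calc g * x * g⁻¹ * y = g * (x * (g⁻¹ * y * g⁻¹⁻¹)) * g⁻¹ := by group
    _ = g * (g⁻¹ * y * g⁻¹⁻¹ * x) * g⁻¹ := by rw [h1]
    _ = y * (g * x * g⁻¹) := by group

end Core

end Pool.Agent.AP
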